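import Pool.Agent.Lib.DS.E.SpecA
import Pool.Agent.Lib.DN.E.XOm

/-!
# The global theory for all imaginary quadratic fields, part E: `S_XOm`, part B over `Om`
-/

set_option autoImplicit false

open scoped Pointwise nonZeroDivisors

noncomputable section

namespace Pool.Agent.DS

open Pool.Agent.MuZ Pool.Agent.FW NumberField IsDedekindDomain Pool.Agent.DN
open Pool.Agent.DI (io ofC io_inj exists_io io_ofC ofC_io VP MP UP TP ex)

variable {n t : ℕ}

private theorem tor_frac (m : ℕ) (hm : 0 < m) : Tor n t (1 / m) :=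
  ⟨1, m, hm, by rw [toC_one]⟩

private theorem io_ofNat (m : ℕ) [m.AtLeastTwo] : io (OfNat.ofNat m : Om) = (OfNat.ofNat m : ℂ) :=
  map_ofNat io m

theorem sXOm (h1 : S_B1) (h2 : S_B2) (h3 : S_B3) (h5 : S_B5) (h7 : S_B7) (hR1 : S_R1) : S_XOm := by
  intro n t _ b hb
  obtain ⟨p1, p2, p3, p4, p5, p6⟩ := h1 n t b hb.ne
  obtain ⟨q1, q2, q3, q4, q5, q6, q7, -, -⟩ := p6 hb.cop
  obtain ⟨r1, r3, r5, r4⟩ := hR1.1 n t |>.1 b hb
  have hX : ∀ z : ℂ, Tor n t z → io (xO b z) = XC b z := fun z hz => (r5 z hz).1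
  have hV : ∀ z : ℂ, Tor n t z → io (vO b z) = WC b z := fun z hz => (r5 z hz).2
  have hfr2 : fr b ^ 2 ≠ 0 := pow_ne_zero 2 q1
  have hfr3 : fr b ^ 3 ≠ 0 := pow_ne_zero 3 q1
  have c1 : ∀ z l : ℂ, l ∈ Lam b → XC b (z + l) = XC b z ∧ WC b (z + l) = WC b z := by
    intro z l hl
    obtain ⟨e1, e2⟩ := p1 z l hl
    unfold XC WC
    rw [e1, e2]
    exact ⟨rfl, rfl⟩
  have c2 : ∀ z : ℂ, XC b (-z) = XC b z ∧ WC b (-z) = -WC b z := by
    intro z
    obtain ⟨e1, e2⟩ := p2 z
    unfold XC WC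
    rw [e1, e2, neg_div]
    exact ⟨rfl, rfl⟩
  have per : ∀ z l : ℂ, l ∈ Lam b → xO b (z + l) = xO b z ∧ vO b (z + l) = vO b z := by
    intro z l hl
    unfold xO vO
    rw [(c1 z l hl).1, (c1 z l hl).2]
    exact ⟨rfl, rfl⟩
  have cng : ∀ z z' : ℂ, z - z' ∈ Lam b → xO b z = xO b z' ∧ vO b z = vO b z' := by
    intro z z' h
    have e := per z' (z - z') h
    rwa [add_sub_cancel] at e
  have xneg : ∀ z : ℂ, xO b (-z) = xO b z := by
    intro z
    unfold xO
    rw [(c2 z).1]
  have cw : ∀ z : ℂ, wpC b z = fr b ^ 2 * XC b z + wpC b (1 / 3) := by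
    intro z
    unfold XC
    field_simp
    ring
  have t3 : Tor n t (1 / 3) := by exact_mod_cast tor_frac (n := n) (t := t) 3 (by norm_num)
  have t5 : Tor n t (1 / 5) := by exact_mod_cast tor_frac (n := n) (t := t) 5 (by norm_num)
  have n2 : io (2 : Om) = 2 := map_ofNat io 2
  have n4 : io (4 : Om) = 4 := map_ofNat io 4
  have n12 : io (12 : Om) = 12 := map_ofNat io 12
  have n27 : io (27 : Om) = 27 := map_ofNat io 27
  refine ⟨per, cng, ?_, ?_, ?_, ?_, ?_, ?_, ?_, ?_, ?_, ?_, ?_, ?_, ?_, ?_, ?_, ?_, ?_, ?_, ?_⟩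
  · -- neg
    intro z hz
    refine ⟨xneg z, io_inj ?_⟩
    rw [hV _ (tor_neg hz), map_neg, hV z hz, (c2 z).2]
  · -- cng'
    rintro z z' (h | h)
    · exact (cng z z' h).1
    · have e := (cng z (-z') (by rwa [sub_neg_eq_add])).1
      rw [e, xneg]
  · -- lat
    intro z hz
    have hT := tor_lam hb.ne hz
    obtain ⟨e1, e2⟩ := p3 z hz
    refine ⟨io_inj ?_, io_inj ?_⟩
    · rw [hX z hT, map_div₀, map_neg, map_pow, r1, n12]
      unfold XC
      rw [e1, q4]
      field_simp
      ring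
    · rw [hV z hT, map_zero]
      unfold WC
      rw [e2, zero_div]
  · -- inj
    intro z z' hz hz' h h' e
    have e1 : XC b z = XC b z' := by rw [← hX z hz, ← hX z' hz', e]
    have e2 : wpC b z = wpC b z' := by rw [cw z, cw z', e1]
    exact (p4 z z' h h').1 e2
  · -- a3
    intro h
    apply q2
    rw [← r3, h, map_zero]
  · -- disc
    intro h
    apply q3
    have e := congrArg io h
    rw [map_sub, map_mul, map_pow, r1, r3, n27, map_zero] at e
    exact e
  · -- x3
    apply io_inj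
    rw [hX _ t3, q5, map_zero]
  · -- x5
    apply io_inj
    rw [hX _ t5, q6, r3]
  · -- v3
    apply io_inj
    rw [hV _ t3, q7, r3]
  · -- crv
    intro z hz h
    apply io_inj
    rw [map_pow, hV z hz, map_add, map_mul, map_pow, map_pow, map_add, map_mul, hX z hz, r1, r3, n4]
    exact ((h2 n t b hb.ne z h).2 hb.cop).1
  · -- two
    intro z hz h
    rw [← p5 z h]
    constructor
    · intro e
      have e1 := hV z hz
      rw [e, map_zero] at e1
      unfold WC at e1
      rcases div_eq_zero_iff.1 e1.symm with h0 | h0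
      · exact h0
      · exact absurd h0 hfr3
    · intro e
      apply io_inj
      rw [hV z hz, map_zero]
      unfold WC
      rw [e, zero_div]
  · -- kad
    intro z z' hz hz' k1 k2 k3 k4
    have e := ((h3 n t b hb.ne).1 z z' k1 k2 k3 k4).2.2.2 hb.cop
    apply io_inj
    simp only [map_mul, map_add, map_sub, map_pow, n2]
    rw [hX _ (tor_add hz hz'), hX _ (tor_sub hz hz'), hX z hz, hX z' hz', r1, r3]
    exact e.1
  · -- kml
    intro z z' hz hz' k1 k2 k3 k4
    have e := ((h3 n t b hb.ne).1 z z' k1 k2 k3 k4).2.2.2 hb.cop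
    apply io_inj
    simp only [map_mul, map_add, map_sub, map_pow, n2]
    rw [hX _ (tor_add hz hz'), hX _ (tor_sub hz hz'), hX z hz, hX z' hz', r1, r3]
    exact e.2.1
  · -- ksb
    intro z z' hz hz' k1 k2 k3 k4
    have e := ((h3 n t b hb.ne).1 z z' k1 k2 k3 k4).2.2.2 hb.cop
    apply io_inj
    simp only [map_mul, map_add, map_sub, map_pow, map_neg, n2]
    rw [hX _ (tor_add hz hz'), hX _ (tor_sub hz hz'), hX z hz, hX z' hz', hV z hz, hV z' hz']
    exact e.2.2
  · -- dup
    intro z hz k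
    have e := ((h3 n t b hb.ne).2 z k).2 hb.cop
    have hz2 : Tor n t (2 * z) := by
      have := tor_mul (n := n) (t := t) (2 : OO n t) hz
      rwa [toC_two] at this
    apply io_inj
    simp only [map_mul, map_sub, map_pow, n2]
    rw [hX _ hz2, hX z hz, hV z hz, r1, r3]
    exact e
  · -- hom
    intro α hα k3 k5
    obtain ⟨e1, e2, e3, e4⟩ := ((h7 n t b hb.ne).2.2 hb.cop).1 α hα k3 k5
    unfold a1O a3O xO vO
    refine ⟨by rw [e2], by rw [e3], fun z => ⟨by rw [(e4 z).1], by rw [(e4 z).2]⟩⟩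
  · -- hmg
    intro α hα hc z hz
    have hg : G15 (sp α * b) := g15_sp hα hc hb
    obtain ⟨p1', p2', p3', p4', p5', p6'⟩ := h1 n t _ hg.ne
    have q1' := (p6' hg.cop).1
    obtain ⟨-, -, r5', -⟩ := hR1.1 n t |>.1 _ hg
    have e1 := ((h7 n t b hb.ne).1 α hα).1
    have e3 : Tor n t (toC α * (1 / 3)) := tor_mul α t3
    apply io_inj
    rw [map_mul, map_mul, map_pow, map_pow, map_sub, (r4 _ hg).1, (r5' z hz).1, io_toO,
      hX _ (tor_mul α hz), hX _ e3]
    unfold XC
    rw [(e1 z).1, (e1 (1 / 3)).1]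
    field_simp
    ring
  · -- rne
    intro c hc
    exact (r4 c hc).2
  · -- iso2
    obtain ⟨k1, -, k3, -, k5, k6⟩ := h5 n t b hb
    have hg : G15 (sp 2 * b) := by
      refine g15_sp ?_ ?_ hb
      · intro h
        have h0 := congrArg Nm h
        rw [Nm_zero] at h0
        have e2 : Nm (2 : OO n t) = 4 := by
          have e3 := Nm_nat (n := n) (t := t) 2
          push_cast at e3
          rw [e3]
        omega
      · unfold Cop
        have e2 : Nm (2 : OO n t) = 4 := by
          have e3 := Nm_nat (n := n) (t := t) 2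
          push_cast at e3
          rw [e3]
        rw [e2]
        refine ⟨4, -1, by norm_num⟩
    obtain ⟨r1', r3', r5', -⟩ := hR1.1 n t |>.1 _ hg
    have t25 : Tor n t (2 / 5) := by
      have := tor_mul (n := n) (t := t) (2 : OO n t) t5
      rw [toC_two] at this
      have e : (2 : ℂ) * (1 / 5) = 2 / 5 := by norm_num
      rwa [e] at this
    refine ⟨?_, ?_, ?_, ?_⟩
    · intro h
      apply k1
      rw [← hX _ t25, h, map_zero]
    · intro z hz
      have hz2 : Tor n t (2 * z) := by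
        have := tor_mul (n := n) (t := t) (2 : OO n t) hz
        rwa [toC_two] at this
      apply io_inj
      rw [map_mul, map_mul, map_pow, map_pow, (r5' z hz).1, r3, hX _ t25, hX _ hz2]
      exact k3 z
    · apply io_inj
      rw [map_mul, map_pow, map_pow, r3', r3, hX _ t25]
      exact k5
    · apply io_inj
      rw [map_mul, map_mul, r1', r3, hX _ t25, r1]
      exact k6

end Pool.Agent.DS
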