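import Pool.Agent.Lib.DS.E.SpecA

/-!
# The global theory for all imaginary quadratic fields, part E, module Af3: automorphisms of the supersingular curve
-/

set_option autoImplicit false

open scoped Pointwise nonZeroDivisors

noncomputable section

namespace Pool.Agent.DS

open Pool.Agent.MuZ Pool.Agent.FW NumberField IsDedekindDomain Pool.Agent.DN
open Pool.Agent.DI (io ofC io_inj exists_io io_ofC ofC_io VP MP UP TP ex)

variable {n t : ℕ}

private theorem Af3_frac [SqN n t] {p c : ℕ} (hp : 0 < p) (h : ¬ p ∣ c) :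
    ((c : ℂ) / p) ∉ Lam (⊤ : Ideal (OO n t)) := by
  intro hm
  obtain ⟨v, hv⟩ := lam_top.1 hm
  have hp' : (p : ℂ) ≠ 0 := by exact_mod_cast hp.ne'
  have h1 : (c : OO n t) = p * v := by
    apply toC_inj
    rw [toC_mul, toC_nat, toC_nat, ← hv]
    field_simp
  have h2 := ((nat_dvd_iff p (c : OO n t)).1 ⟨v, h1⟩).1
  have h3 : ((c : OO n t)).re = (c : ℤ) := by simp
  rw [h3] at h2
  exact h (by exact_mod_cast h2)

private theorem Af3_N [SqN n t] {N p : ℕ} (c : ℕ) (hp : 0 < p) (h : p ∣ N) :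
    (N : ℂ) * ((c : ℂ) / p) ∈ Lam (⊤ : Ideal (OO n t)) := by
  obtain ⟨m, rfl⟩ := h
  have hp' : (p : ℂ) ≠ 0 := by exact_mod_cast hp.ne'
  refine lam_top.2 ⟨((m * c : ℕ) : OO n t), ?_⟩
  rw [toC_nat]
  push_cast
  field_simp

private theorem Af3_two {N : ℕ} (hN : Odd N) {z : ℂ} [SqN n t]
    (hz : (N : ℂ) * z ∈ Lam (⊤ : Ideal (OO n t))) (hz' : z ∉ Lam (⊤ : Ideal (OO n t))) :
    (N : ℂ) * (2 * z) ∈ Lam (⊤ : Ideal (OO n t)) ∧ 2 * z ∉ Lam (⊤ : Ideal (OO n t)) := by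
  constructor
  · have h := lam_mul (2 : OO n t) hz
    rw [toC_two] at h
    rwa [mul_left_comm] at h
  · intro h2
    obtain ⟨m, rfl⟩ := hN
    apply hz'
    have h3 := lam_mul ((m : ℕ) : OO n t) h2
    rw [toC_nat] at h3
    have h4 := lam_sub hz h3
    have e : ((2 * m + 1 : ℕ) : ℂ) * z - m * (2 * z) = z := by
      push_cast
      ring
    rwa [e] at h4

private theorem Af3_dup (h2 : S_XOm) (h4 : S_Afi) [SqN n t] {P : Ideal ZZ}
    (hP : SS n t P) {N : ℕ} (hN : Odd N) (h3N : 3 ≤ N) {z : ℂ}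
    (hz : (N : ℂ) * z ∈ Lam (⊤ : Ideal (OO n t))) (hz' : z ∉ Lam (⊤ : Ideal (OO n t))) :
    MP P (xO (⊤ : Ideal (OO n t)) (2 * z) * a3O (⊤ : Ideal (OO n t)) ^ 2 -
      xO (⊤ : Ideal (OO n t)) z ^ 4) := by
  have := hP.ab.1.1
  have g : G15 (⊤ : Ideal (OO n t)) := Eb.g15_top
  obtain ⟨hz2, hz2'⟩ := Af3_two hN hz hz'
  obtain ⟨a1, -⟩ := h4 n t P hP N hN h3N
  obtain ⟨zt, zk, zv⟩ := a1 z hz hz'
  obtain ⟨-, -, z2v⟩ := a1 (2 * z) hz2 hz2'
  obtain ⟨-, hg⟩ := hP.gq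
  have hm := hP.a1
  obtain ⟨-, ⟨va3, -⟩, -⟩ := hg _ g
  have ma1 := hm _ g
  have hX := h2 n t (⊤ : Ideal (OO n t)) g
  have hd := hX.dup z zt hz2'
  have mv := hP.vo _ g z zt zk
  have vv : VP P (vO (⊤ : Ideal (OO n t)) z) := by
    have h := mv.vp.add va3
    rwa [sub_add_cancel] at h
  have m2 : MP P (2 : Om) := hP.ab.2
  generalize xO (⊤ : Ideal (OO n t)) (2 * z) = Y at *
  generalize xO (⊤ : Ideal (OO n t)) z = X at *
  generalize vO (⊤ : Ideal (OO n t)) z = V at *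
  generalize a1O (⊤ : Ideal (OO n t)) = A at *
  generalize a3O (⊤ : Ideal (OO n t)) = B at *
  have e : Y * B ^ 2 - X ^ 4 = Y * (V + B) * (-(V - B)) + (-(A * (B * X ^ 2))) + -(2 * (B ^ 2 * X)) := by
    linear_combination hd
  rw [e]
  exact ((DI.MP.mul_left (z2v.mul (vv.add va3)) mv.neg).add
    (DI.MP.mul_right ma1 (va3.mul (zv.pow 2))).neg).add
    (DI.MP.mul_right m2 ((va3.pow 2).mul zv)).neg

private theorem Af3_key (h2 : S_XOm) (h4 : S_Afi) [SqN n t] {P : Ideal ZZ}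
    (hP : SS n t P) {N : ℕ} (hN : Odd N) (h3N : 3 ≤ N) {γ : OO n t} {al r : Om} (hA : AfM P N γ al r)
    {z : ℂ} (hz : (N : ℂ) * z ∈ Lam (⊤ : Ideal (OO n t))) (hz' : z ∉ Lam (⊤ : Ideal (OO n t))) :
    MP P (a3O (⊤ : Ideal (OO n t)) ^ 2 * (al * xO (⊤ : Ideal (OO n t)) (2 * z) + r) -
      (al ^ 4 * (a3O (⊤ : Ideal (OO n t)) ^ 2 * xO (⊤ : Ideal (OO n t)) (2 * z)) + r ^ 4)) := by
  have := hP.ab.1.1
  have g : G15 (⊤ : Ideal (OO n t)) := Eb.g15_top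
  obtain ⟨hz2, hz2'⟩ := Af3_two hN hz hz'
  obtain ⟨a1, -, a3, -⟩ := h4 n t P hP N hN h3N
  obtain ⟨-, -, zv⟩ := a1 z hz hz'
  obtain ⟨gz, gz'⟩ := a3 γ z hA.cop hz hz'
  obtain ⟨-, -, gv⟩ := a1 _ gz gz'
  obtain ⟨-, hg⟩ := hP.gq
  obtain ⟨-, ⟨va3, -⟩, -⟩ := hg _ g
  have k1 := Af3_dup h2 h4 hP hN h3N hz hz'
  have k2 := Af3_dup h2 h4 hP hN h3N gz gz'
  have k3 := hA.aff z hz hz'
  have k4 := hA.aff (2 * z) hz2 hz2'
  rw [show toC γ * (2 * z) = 2 * (toC γ * z) by ring] at k4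
  have m2 : MP P (2 : Om) := hP.ab.2
  have va := hA.hal.1
  have vr := hA.hr
  generalize xO (⊤ : Ideal (OO n t)) (2 * (toC γ * z)) = Y' at *
  generalize xO (⊤ : Ideal (OO n t)) (toC γ * z) = X' at *
  generalize xO (⊤ : Ideal (OO n t)) (2 * z) = Y at *
  generalize xO (⊤ : Ideal (OO n t)) z = X at *
  generalize a3O (⊤ : Ideal (OO n t)) = B at *
  have vu : VP P (al * X + r) := (va.mul zv).add vr
  have vx := va.mul zv
  have e : B ^ 2 * (al * Y + r) - (al ^ 4 * (B ^ 2 * Y) + r ^ 4) =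
      -(B ^ 2 * (Y' - (al * Y + r))) + (Y' * B ^ 2 - X' ^ 4) +
      (X' - (al * X + r)) * (X' ^ 3 + X' ^ 2 * (al * X + r) + X' * (al * X + r) ^ 2 + (al * X + r) ^ 3) +
      2 * (2 * ((al * X) ^ 3 * r) + 3 * ((al * X) ^ 2 * r ^ 2) + 2 * ((al * X) * r ^ 3)) -
      al ^ 4 * (Y * B ^ 2 - X ^ 4) := by
    ring
  rw [e]
  have v3 : VP P (3 : Om) := by exact_mod_cast DI.VP.nat (P := P) 3
  refine (((((DI.MP.mul_left (va3.pow 2) k4).neg).add k2).add (DI.MP.mul_right k3 ?_)).add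
    (DI.MP.mul_right m2 ?_)).sub (DI.MP.mul_left (va.pow 4) k1)
  · exact (((gv.pow 3).add ((gv.pow 2).mul vu)).add (gv.mul (vu.pow 2))).add (vu.pow 3)
  · exact ((m2.vp.mul ((vx.pow 3).mul vr)).add (v3.mul ((vx.pow 2).mul (vr.pow 2)))).add
      (m2.vp.mul (vx.mul (vr.pow 3)))

theorem sAf3 (h2 : S_XOm) (h4 : S_Afi) : S_Af3 := by
  intro n t _ P hP N hN h15 γ al r hA
  have := hP.ab.1.1
  have h3N : 3 ≤ N := by
    have := Nat.le_of_dvd hN.pos h15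
    omega
  have g : G15 (⊤ : Ideal (OO n t)) := Eb.g15_top
  have hX := h2 n t (⊤ : Ideal (OO n t)) g
  obtain ⟨-, -, -, a4, a5⟩ := h4 n t P hP N hN h3N
  obtain ⟨-, hg⟩ := hP.gq
  obtain ⟨-, uB, -⟩ := hg _ g
  have m2 : MP P (2 : Om) := hP.ab.2
  have va := hA.hal.1
  have vr := hA.hr
  have one : ∀ m : ℕ, ((m : ℕ) : ℂ) ∈ Lam (⊤ : Ideal (OO n t)) := fun m =>
    lam_top.2 ⟨((m : ℕ) : OO n t), (toC_nat m).symm⟩
  -- `z = 2/3`
  have k1 := Af3_key h2 h4 hP hN h3N hA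
    (Af3_N (n := n) (t := t) 2 (by norm_num) (dvd_trans (by norm_num) h15 : 3 ∣ N))
    (Af3_frac (n := n) (t := t) (p := 3) (c := 2) (by norm_num) (by norm_num))
  have x43 : xO (⊤ : Ideal (OO n t)) (2 * (((2 : ℕ) : ℂ) / ((3 : ℕ) : ℂ))) = 0 := by
    rw [← hX.x3]
    apply hX.cng'
    left
    have h := one 1
    have e : 2 * (((2 : ℕ) : ℂ) / ((3 : ℕ) : ℂ)) - 1 / 3 = ((1 : ℕ) : ℂ) := by
      push_cast
      norm_num
    rw [e]
    exact h
  rw [x43] at k1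
  -- `z = 3/5`
  have k2 := Af3_key h2 h4 hP hN h3N hA
    (Af3_N (n := n) (t := t) 3 (by norm_num) (dvd_trans (by norm_num) h15 : 5 ∣ N))
    (Af3_frac (n := n) (t := t) (p := 5) (c := 3) (by norm_num) (by norm_num))
  have x65 : xO (⊤ : Ideal (OO n t)) (2 * (((3 : ℕ) : ℂ) / ((5 : ℕ) : ℂ))) =
      a3O (⊤ : Ideal (OO n t)) := by
    rw [← hX.x5]
    apply hX.cng'
    left
    have h := one 1
    have e : 2 * (((3 : ℕ) : ℂ) / ((5 : ℕ) : ℂ)) - 1 / 5 = ((1 : ℕ) : ℂ) := by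
      push_cast
      norm_num
    rw [e]
    exact h
  rw [x65] at k2
  generalize a3O (⊤ : Ideal (OO n t)) = B at *
  have k3 : MP P (B ^ 3 * (al * (al ^ 3 - 1))) := by
    have h := k1.sub k2
    have e : B ^ 2 * (al * 0 + r) - (al ^ 4 * (B ^ 2 * 0) + r ^ 4) -
        (B ^ 2 * (al * B + r) - (al ^ 4 * (B ^ 2 * B) + r ^ 4)) = B ^ 3 * (al * (al ^ 3 - 1)) := by
      ring
    rwa [e] at h
  have vc : VP P (al ^ 3 - 1) := (va.pow 3).sub DI.VP.one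
  have k4 : MP P (al ^ 3 - 1) := by
    rcases DI.MP.mul_cases (uB.pow 3).1 (va.mul vc) k3 with h | h
    · exact absurd h (uB.pow 3).2
    · exact (DI.MP.mul_cases va vc h).resolve_left hA.hal.2
  have A2 := a4 γ γ al al r r hA hA
  refine ⟨k4, fun h => ?_, fun h => ?_⟩
  · have := a5 (γ * γ) (al * al) (al * r + r) A2 ?_ ?_
    · rwa [← pow_two] at this
    · have e : al * al - 1 = (al - 1) * (al + 1) := by ring
      rw [e]
      exact DI.MP.mul_right h (va.add DI.VP.one)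
    · have e : al * r + r = (al - 1) * r + 2 * r := by ring
      rw [e]
      exact (DI.MP.mul_right h vr).add (DI.MP.mul_right m2 vr)
  · have v2 : VP P (al ^ 2 + al + 1) := ((va.pow 2).add va).add DI.VP.one
    have k5 : MP P (al ^ 2 + al + 1) := by
      have e : al ^ 3 - 1 = (al - 1) * (al ^ 2 + al + 1) := by ring
      rw [e] at k4
      exact (DI.MP.mul_cases (va.sub DI.VP.one) v2 k4).resolve_left h
    refine ⟨k5, ?_⟩
    have A3 := a4 γ (γ * γ) al (al * al) r (al * r + r) hA A2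
    have := a5 _ _ _ A3 ?_ ?_
    · have e : γ * (γ * γ) = γ ^ 3 := by ring
      rwa [e] at this
    · have e : al * (al * al) - 1 = al ^ 3 - 1 := by ring
      rw [e]
      exact k4
    · have e : al * (al * r + r) + r = (al ^ 2 + al + 1) * r := by ring
      rw [e]
      exact DI.MP.mul_right k5 vr

end Pool.Agent.DS
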