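import Pool.Agent.Lib.DS.E.SpecA

/-!
# The global theory for all imaginary quadratic fields, part E, module Aff: inertia elements are affine maps
-/

set_option autoImplicit false

open scoped Pointwise nonZeroDivisors

noncomputable section

namespace Pool.Agent.DS

open Pool.Agent.MuZ Pool.Agent.FW NumberField IsDedekindDomain Pool.Agent.DN
open Pool.Agent.DI (io ofC io_inj exists_io io_ofC ofC_io VP MP UP TP ex)

variable {n t : ℕ}

private theorem Aff_unit [SqN n t] {P : Ideal ZZ} (hP : Ab2 P) {γ : OO n t} (h : Cop γ 2) :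
    UP P (toO γ) := by
  have := hP.1.1
  refine ⟨toO_VP γ, fun hm => ?_⟩
  have h1 : MP P ((Nm γ : ℤ) : Om) := by
    have e : ((Nm γ : ℤ) : Om) = toO γ * toO (cjO γ) := by
      rw [← toO_mul, mul_cjO, toO_int]
    rw [e]
    exact DI.MP.mul_right hm (toO_VP _)
  obtain ⟨a, b, hab⟩ := h
  have h2 : MP P (1 : Om) := by
    have e : (1 : Om) = (a : Om) * ((Nm γ : ℤ) : Om) + (b : Om) * 2 := by
      have := congrArg (fun x : ℤ => (x : Om)) hab
      push_cast at this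
      exact this.symm
    rw [e]
    exact (DI.MP.mul_left (DI.VP.int a) h1).add (DI.MP.mul_left (DI.VP.int b) hP.2)
  exact DI.MP.one_not h2

private theorem Aff_third [SqN n t] {N : ℕ} (h : 3 ∣ N) :
    (N : ℂ) * (1 / 3) ∈ Lam (⊤ : Ideal (OO n t)) ∧ (1 / 3 : ℂ) ∉ Lam (⊤ : Ideal (OO n t)) := by
  constructor
  · obtain ⟨m, rfl⟩ := h
    refine lam_top.2 ⟨((m : ℕ) : OO n t), ?_⟩
    rw [toC_nat]
    push_cast
    ring
  · intro hm
    obtain ⟨v, hv⟩ := lam_top.1 hm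
    have h1 : (1 : OO n t) = ((3 : ℕ) : OO n t) * v := by
      apply toC_inj
      rw [toC_mul, toC_nat, toC_one, ← hv]
      norm_num
    have h2 := ((nat_dvd_iff 3 (1 : OO n t)).1 ⟨v, h1⟩).1
    rw [re_one] at h2
    norm_num at h2

private theorem Aff_rr (h2 : S_R1) [SqN n t] :
    rO (⊤ : Ideal (OO n t)) (⊤ : Ideal (OO n t)) = 1 := by
  obtain ⟨-, -, -, h⟩ := (h2.1 n t).1 (⊤ : Ideal (OO n t)) Eb.g15_top
  obtain ⟨h1, h0⟩ := h (⊤ : Ideal (OO n t)) Eb.g15_top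
  have hf : fr (⊤ : Ideal (OO n t)) ≠ 0 := by
    intro hf
    rw [hf, div_zero] at h1
    exact h0 (io_inj (by rw [h1, map_zero]))
  apply io_inj
  rw [h1, div_self hf, map_one]

private theorem Aff_alg {ρ g A B R T : Om} (g0 : g ≠ 0) (h : ρ ^ 2 * T = g ^ 2 * (A - R)) :
    A - ((ρ / g) ^ 2 * B + R) = (ρ / g) ^ 2 * (T - B) := by
  field_simp
  linear_combination (-1 : Om) * h

private theorem Aff_alg' {g A B R : Om} (g0 : g ≠ 0) (h : 1 ^ 2 * B = g ^ 2 * (A - R)) :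
    A - ((g ^ 2)⁻¹ * B + R) = 0 := by
  field_simp
  linear_combination (-1 : Om) * h

theorem sAff (h1 : S_O6) (h2 : S_R1) (h3 : S_XOm) (h5 : S_Afi) : S_Aff := by
  constructor
  · intro n t _ P hP τ hτ N γ hN h15 hγ hγ2 hψ
    have := hP.ab.1.1
    have h3N : 3 ≤ N := by
      have := Nat.le_of_dvd hN.pos h15
      omega
    obtain ⟨-, o2, -, o4, -⟩ := h1 n t
    obtain ⟨p15, pN⟩ := (o2 15 N (sp γ)).1 hψ.cop
    have c15 : Cop γ 15 := (o4 15 γ (by norm_num)).1 p15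
    have cN : Cop γ N := (o4 N γ hN.pos).1 pN
    have p2 : PrI (sp γ) 2 := (o4 2 γ (by norm_num)).2 hγ2
    have hX := h3 n t (⊤ : Ideal (OO n t)) Eb.g15_top
    obtain ⟨a1, -, a3, -⟩ := h5 n t P hP N hN h3N
    obtain ⟨t1, t2⟩ := Aff_third (n := n) (t := t) (dvd_trans (by norm_num) h15 : 3 ∣ N)
    obtain ⟨t3, t4⟩ := a3 γ _ cN t1 t2
    obtain ⟨-, -, vr⟩ := a1 _ t3 t4
    have uR := hP.ro (⊤ : Ideal (OO n t)) Eb.g15_top (sp γ) (Eb.ne_sp hγ) p2 p15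
    rw [Ideal.mul_top] at uR
    have uG := Aff_unit hP.ab hγ2
    have g0 : toO γ ≠ 0 := toO_ne hγ
    refine ⟨(rO (⊤ : Ideal (OO n t)) (sp γ) / toO γ) ^ 2,
      xO (⊤ : Ideal (OO n t)) (toC γ * (1 / 3)), cN, (uR.div uG).pow 2, vr, ?_⟩
    intro z hz hz'
    obtain ⟨zt, -, zv⟩ := a1 z hz hz'
    have e1 := hX.hmg γ hγ c15 z zt
    have e2 := hψ.xx (⊤ : Ideal (OO n t)) Eb.ne_top (Eb.pri_top 15) z hz
    rw [Ideal.mul_top] at e1 e2
    rw [← e2] at e1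
    have k := DI.VP.inertia hτ zv
    have ua := (uR.div uG).pow 2
    rw [Aff_alg g0 e1]
    exact DI.MP.mul_left ua.1 k
  · intro t _ P hP N hN h15
    have := hP.ab.1.1
    have h3N : 3 ≤ N := by
      have := Nat.le_of_dvd hN.pos h15
      omega
    have nw : Nm (wI 1 t) = 1 := by
      simp [wI, Nm]
    have cw : ∀ j : ℕ, Cop (wI 1 t) j := fun j => by
      unfold Cop
      rw [nw]
      exact isCoprime_one_left
    have w0 : wI 1 t ≠ 0 := by
      intro h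
      rw [h, Nm_zero] at nw
      exact zero_ne_one nw
    have hw : sp (wI 1 t) = (⊤ : Ideal (OO 1 t)) := by
      refine Ideal.span_singleton_eq_top.2 (IsUnit.of_mul_eq_one (cjO (wI 1 t)) ?_)
      rw [mul_cjO, nw, Int.cast_one]
    have hX := h3 1 t (⊤ : Ideal (OO 1 t)) Eb.g15_top
    obtain ⟨a1, -, a3, -⟩ := h5 1 t P hP N hN h3N
    obtain ⟨t1, t2⟩ := Aff_third (n := 1) (t := t) (dvd_trans (by norm_num) h15 : 3 ∣ N)
    obtain ⟨t3, t4⟩ := a3 (wI 1 t) _ (cw N) t1 t2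
    obtain ⟨-, -, vr⟩ := a1 _ t3 t4
    refine ⟨xO (⊤ : Ideal (OO 1 t)) (toC (wI 1 t) * (1 / 3)), cw N,
      ((Aff_unit hP.ab (cw 2)).pow 2).inv, vr, ?_⟩
    intro z hz hz'
    obtain ⟨zt, -, zv⟩ := a1 z hz hz'
    have e1 := hX.hmg (wI 1 t) w0 (cw 15) z zt
    rw [Ideal.mul_top, hw, Aff_rr h2] at e1
    have g0 : toO (wI 1 t) ≠ 0 := toO_ne w0
    rw [Aff_alg' g0 e1]
    exact DI.MP.zero

end Pool.Agent.DS
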