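import Pool.Agent.Lib.DS.E.SpecA

/-!
# The global theory for all imaginary quadratic fields, part E, module Afi: affine maps modulo `P`: basic facts
-/

set_option autoImplicit false

open scoped Pointwise nonZeroDivisors

noncomputable section

namespace Pool.Agent.DS

open Pool.Agent.MuZ Pool.Agent.FW NumberField IsDedekindDomain Pool.Agent.DN
open Pool.Agent.DI (io ofC io_inj exists_io io_ofC ofC_io VP MP UP TP ex)

variable {n t : ℕ}

/-- Two conditions which cover a group. -/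
private theorem Afi_cover {a : Ideal (OO n t)} {μ : ℂ} {N : ℕ} [SqN n t]
    (h : ∀ z : ℂ, (N : ℂ) * z ∈ Lam (⊤ : Ideal (OO n t)) → μ * z - z ∈ Lam a ∨ μ * z + z ∈ Lam a) :
    ∃ e : ℤ, (e = 1 ∨ e = -1) ∧
      ∀ z : ℂ, (N : ℂ) * z ∈ Lam (⊤ : Ideal (OO n t)) → (μ - e) * z ∈ Lam a := by
  by_cases h1 : ∀ z : ℂ, (N : ℂ) * z ∈ Lam (⊤ : Ideal (OO n t)) → μ * z - z ∈ Lam a
  · refine ⟨1, Or.inl rfl, fun z hz => ?_⟩
    have e : (μ - ((1 : ℤ) : ℂ)) * z = μ * z - z := by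
      push_cast
      ring
    rw [e]
    exact h1 z hz
  · push Not at h1
    obtain ⟨z₁, hz₁, hn₁⟩ := h1
    have hp₁ : μ * z₁ + z₁ ∈ Lam a := (h z₁ hz₁).resolve_left hn₁
    refine ⟨-1, Or.inr rfl, fun z hz => ?_⟩
    have e : (μ - ((-1 : ℤ) : ℂ)) * z = μ * z + z := by
      push_cast
      ring
    rw [e]
    by_contra hn
    have hp : μ * z - z ∈ Lam a := (h z hz).resolve_right hn
    have hs : (N : ℂ) * (z₁ + z) ∈ Lam (⊤ : Ideal (OO n t)) := by
      rw [mul_add]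
      exact lam_add hz₁ hz
    rcases h _ hs with h2 | h2
    · apply hn₁
      have e2 : μ * z₁ - z₁ = (μ * (z₁ + z) - (z₁ + z)) - (μ * z - z) := by ring
      rw [e2]
      exact lam_sub h2 hp
    · apply hn
      have e2 : μ * z + z = (μ * (z₁ + z) + (z₁ + z)) - (μ * z₁ + z₁) := by ring
      rw [e2]
      exact lam_sub h2 hp₁

/-- Odd numbers are units at the primes above `2`. -/
private theorem Afi_odd {P : Ideal ZZ} (hP : Ab2 P) {N : ℕ} (hN : Odd N) : ¬ MP P (N : Om) := by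
  intro h
  have hPp : P.IsPrime := hP.1.1
  obtain ⟨k, rfl⟩ := hN
  have h1 : MP P (2 * (k : Om)) := MP.mul_right hP.2 (VP.nat k)
  have h2 := h.sub h1
  push_cast at h2
  rw [add_sub_cancel_left] at h2
  exact MP.one_not h2

/-- **Basic facts.** -/
theorem sAfi : S_L5 → S_O6 → S_D1 → S_Afi := by
  intro hL5 hO6 hD1 n t _ P hS N hN hN3
  have hP := hS.ab
  have hPp : P.IsPrime := hP.1.1
  have hN0 : 0 < N := by omega
  have ht : (⊤ : Ideal (OO n t)) ≠ ⊥ := Eb.ne_top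
  have hNP : ¬ MP P (N : Om) := Afi_odd hP hN
  have hD := hD1 n t P hS.gq ⊤ Eb.g15_top
  -- (1)
  have f1 : ∀ z : ℂ, (N : ℂ) * z ∈ Lam (⊤ : Ideal (OO n t)) → z ∉ Lam (⊤ : Ideal (OO n t)) →
      Tor n t z ∧ ¬ IK P (⊤ : Ideal (OO n t)) z ∧ VP P (xO (⊤ : Ideal (OO n t)) z) := by
    intro z hz hzn
    have hT : Tor n t z := (tor_iff ht).2 ⟨N, hN0, hz⟩
    have hI : ¬ IK P (⊤ : Ideal (OO n t)) z := by
      intro hI
      apply hzn
      have h1 := hD.2.2.2.2.1 z hI (N : OO n t) 1 (by rwa [toO_nat])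
        (by rwa [mul_one, toC_nat])
      rwa [toC_one, one_mul] at h1
    refine ⟨hT, hI, ?_⟩
    by_contra hV
    exact hI ⟨hT, Or.inr hV⟩
  -- (2)
  have f2 : ∀ z z' : ℂ, (N : ℂ) * z ∈ Lam (⊤ : Ideal (OO n t)) → z ∉ Lam (⊤ : Ideal (OO n t)) →
      (N : ℂ) * z' ∈ Lam (⊤ : Ideal (OO n t)) → z' ∉ Lam (⊤ : Ideal (OO n t)) →
      MP P (xO (⊤ : Ideal (OO n t)) z - xO (⊤ : Ideal (OO n t)) z') →
      z - z' ∈ Lam (⊤ : Ideal (OO n t)) ∨ z + z' ∈ Lam (⊤ : Ideal (OO n t)) := by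
    intro z z' hz hzn hz' hzn' hx
    obtain ⟨hT, hI, -⟩ := f1 z hz hzn
    obtain ⟨hT', hI', -⟩ := f1 z' hz' hzn'
    rcases hD.2.2.2.2.2.2 z z' hT hT' hI hI' hx with h | h
    · right
      by_contra hn
      refine (f1 _ ?_ hn).2.1 h
      rw [mul_add]
      exact lam_add hz hz'
    · left
      by_contra hn
      refine (f1 _ ?_ hn).2.1 h
      rw [mul_sub]
      exact lam_sub hz hz'
  -- (3)
  have f3 : ∀ (γ : OO n t) (z : ℂ), Cop γ N → (N : ℂ) * z ∈ Lam (⊤ : Ideal (OO n t)) →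
      z ∉ Lam (⊤ : Ideal (OO n t)) → (N : ℂ) * (toC γ * z) ∈ Lam (⊤ : Ideal (OO n t)) ∧
        toC γ * z ∉ Lam (⊤ : Ideal (OO n t)) := by
    intro γ z hγ hz hzn
    have hγ0 : γ ≠ 0 := by
      rintro rfl
      unfold Cop at hγ
      rw [Nm_zero, isCoprime_zero_left, Int.isUnit_iff] at hγ
      omega
    constructor
    · have e : (N : ℂ) * (toC γ * z) = toC γ * ((N : ℂ) * z) := by ring
      rw [e]
      exact lam_mul γ hz
    · intro h
      apply hzn
      refine (hL5 n t (sp γ) ⊤ N (Eb.ne_sp hγ0) ht hN0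
        (((hO6 n t).2.2.2.1 N γ hN0).2 hγ)).1 z hz ?_
      exact lam_sp.2 h
  refine ⟨f1, f2, f3, ?_, ?_⟩
  -- (4)
  · intro γ γ' al al' r r' h h'
    refine ⟨cop_mul h.cop h'.cop, h.hal.mul h'.hal, (h.hal.1.mul h'.hr).add h.hr, ?_⟩
    intro z hz hzn
    obtain ⟨h1, h2⟩ := f3 γ' z h'.cop hz hzn
    have h3 := h.aff _ h1 h2
    have h4 := MP.mul_left h.hal.1 (h'.aff z hz hzn)
    have h5 := h3.add h4
    have e : xO (⊤ : Ideal (OO n t)) (toC (γ * γ') * z) -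
        (al * al' * xO (⊤ : Ideal (OO n t)) z + (al * r' + r)) =
        xO (⊤ : Ideal (OO n t)) (toC γ * (toC γ' * z)) -
          (al * xO (⊤ : Ideal (OO n t)) (toC γ' * z) + r) +
        al * (xO (⊤ : Ideal (OO n t)) (toC γ' * z) -
          (al' * xO (⊤ : Ideal (OO n t)) z + r')) := by
      rw [toC_mul, mul_assoc (toC γ)]
      ring
    rw [e]
    exact h5
  -- (5)
  · intro γ al r h hal hr
    have h1 : ∀ z : ℂ, (N : ℂ) * z ∈ Lam (⊤ : Ideal (OO n t)) →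
        toC γ * z - z ∈ Lam (⊤ : Ideal (OO n t)) ∨ toC γ * z + z ∈ Lam (⊤ : Ideal (OO n t)) := by
      intro z hz
      by_cases hzn : z ∈ Lam (⊤ : Ideal (OO n t))
      · exact Or.inl (lam_sub (lam_mul γ hzn) hzn)
      · obtain ⟨h2, h3⟩ := f3 γ z h.cop hz hzn
        refine f2 _ _ h2 h3 hz hzn ?_
        have h4 := ((h.aff z hz hzn).add (MP.mul_right hal (f1 z hz hzn).2.2)).add hr
        have e : xO (⊤ : Ideal (OO n t)) (toC γ * z) - xO (⊤ : Ideal (OO n t)) z =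
            xO (⊤ : Ideal (OO n t)) (toC γ * z) - (al * xO (⊤ : Ideal (OO n t)) z + r) +
              (al - 1) * xO (⊤ : Ideal (OO n t)) z + r := by ring
        rw [e]
        exact h4
    obtain ⟨e, he, h2⟩ := Afi_cover h1
    obtain ⟨v, hv⟩ := lam_top.1 (h2 _ (one_div_lam ⊤ hN0))
    have hNc : (N : ℂ) ≠ 0 := by exact_mod_cast hN0.ne'
    have h3 : γ - (e : OO n t) = (N : OO n t) * v := by
      apply toC_inj
      rw [toC_sub, toC_mul, toC_int, toC_nat, ← hv]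
      field_simp
    rcases he with rfl | rfl
    · left
      refine ⟨v, ?_⟩
      rw [← h3]
      push_cast
      ring
    · right
      refine ⟨v, ?_⟩
      rw [← h3]
      push_cast
      ring

end Pool.Agent.DS
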