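import Pool.Agent.Lib.DS.E.SpecA

/-!
# The global theory for all imaginary quadratic fields, part E, module Afx: affine maps with a fixed point

Author helper27.
-/

set_option autoImplicit false

open scoped Pointwise nonZeroDivisors

noncomputable section

namespace Pool.Agent.DS

open Pool.Agent.MuZ Pool.Agent.FW NumberField IsDedekindDomain Pool.Agent.DN
open Pool.Agent.DI (io ofC io_inj exists_io io_ofC ofC_io VP MP UP TP ex)

private theorem Afx_one (hX : S_XOm) (hAfi : S_Afi) {n t : ℕ} [SqN n t] {P : Ideal ZZ}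
    (hP : SS n t P) {N : ℕ} (hN : Odd N) (hN3 : 3 ≤ N) {γ : OO n t} {al r : Om}
    (hA : AfM P N γ al r) {z₀ : ℂ} (hz : (N : ℂ) * z₀ ∈ Lam (⊤ : Ideal (OO n t)))
    (h1 : z₀ ∉ Lam (⊤ : Ideal (OO n t))) (h2 : 2 * z₀ ∉ Lam (⊤ : Ideal (OO n t)))
    (h3 : 3 * z₀ ∉ Lam (⊤ : Ideal (OO n t)))
    (hf : toC γ * z₀ - z₀ ∈ Lam (⊤ : Ideal (OO n t)) ∨ toC γ * z₀ + z₀ ∈ Lam (⊤ : Ideal (OO n t))) :
    (N : OO n t) ∣ γ - 1 ∨ (N : OO n t) ∣ γ + 1 := by
  have : P.IsPrime := hP.ab.1.1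
  obtain ⟨f1, f2, -, -, f5⟩ := hAfi n t P hP N hN hN3
  have hXO := hX n t ⊤ Eb.g15_top
  have key : ∀ z : ℂ, (N : ℂ) * z ∈ Lam (⊤ : Ideal (OO n t)) → z ∉ Lam (⊤ : Ideal (OO n t)) →
      (toC γ * z - z ∈ Lam (⊤ : Ideal (OO n t)) ∨ toC γ * z + z ∈ Lam (⊤ : Ideal (OO n t))) →
      MP P (xO (⊤ : Ideal (OO n t)) z - (al * xO (⊤ : Ideal (OO n t)) z + r)) := by
    intro z ha hb hc
    have h := hA.aff z ha hb
    rwa [hXO.cng' (toC γ * z) z hc] at h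
  have hz2 : (N : ℂ) * (2 * z₀) ∈ Lam (⊤ : Ideal (OO n t)) := by
    have h := lam_nat 2 hz
    have e : ((2 : ℕ) : ℂ) * ((N : ℂ) * z₀) = (N : ℂ) * (2 * z₀) := by
      push_cast
      ring
    rwa [e] at h
  have hf2 : toC γ * (2 * z₀) - 2 * z₀ ∈ Lam (⊤ : Ideal (OO n t)) ∨
      toC γ * (2 * z₀) + 2 * z₀ ∈ Lam (⊤ : Ideal (OO n t)) := by
    rcases hf with h | h
    · left
      have h' := lam_nat 2 h
      have e : ((2 : ℕ) : ℂ) * (toC γ * z₀ - z₀) = toC γ * (2 * z₀) - 2 * z₀ := by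
        push_cast
        ring
      rwa [e] at h'
    · right
      have h' := lam_nat 2 h
      have e : ((2 : ℕ) : ℂ) * (toC γ * z₀ + z₀) = toC γ * (2 * z₀) + 2 * z₀ := by
        push_cast
        ring
      rwa [e] at h'
  have k1 := key z₀ hz h1 hf
  have k2 := key (2 * z₀) hz2 h2 hf2
  have v1 := (f1 z₀ hz h1).2.2
  have v2 := (f1 (2 * z₀) hz2 h2).2.2
  have hal1 : VP P (al - 1) := hA.hal.1.sub VP.one
  have k3 : MP P ((al - 1) * (xO (⊤ : Ideal (OO n t)) (2 * z₀) - xO (⊤ : Ideal (OO n t)) z₀)) := by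
    have h := k1.sub k2
    have e : (xO (⊤ : Ideal (OO n t)) z₀ - (al * xO (⊤ : Ideal (OO n t)) z₀ + r)) -
        (xO (⊤ : Ideal (OO n t)) (2 * z₀) - (al * xO (⊤ : Ideal (OO n t)) (2 * z₀) + r)) =
        (al - 1) * (xO (⊤ : Ideal (OO n t)) (2 * z₀) - xO (⊤ : Ideal (OO n t)) z₀) := by ring
    rwa [e] at h
  rcases MP.mul_cases hal1 (v2.sub v1) k3 with h | h
  · have hr : MP P r := by
      have h4 := (MP.mul_right h v1).add k1
      have e : (al - 1) * xO (⊤ : Ideal (OO n t)) z₀ +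
          (xO (⊤ : Ideal (OO n t)) z₀ - (al * xO (⊤ : Ideal (OO n t)) z₀ + r)) = -r := by ring
      rw [e] at h4
      have h5 := h4.neg
      rwa [neg_neg] at h5
    exact f5 γ al r hA h hr
  · exfalso
    rcases f2 (2 * z₀) z₀ hz2 h2 hz h1 h with h4 | h4
    · apply h1
      have e : 2 * z₀ - z₀ = z₀ := by ring
      rwa [e] at h4
    · apply h3
      have e : 2 * z₀ + z₀ = 3 * z₀ := by ring
      rwa [e] at h4

theorem sAfx (hL3 : S_L3) (hX : S_XOm) (hDq : S_Dq) (hAfi : S_Afi) : S_Afx := by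
  intro n t _ P hP N hN hN3 γ al r hA
  refine ⟨fun z₀ hz h1 h2 h3 hf => Afx_one hX hAfi hP hN hN3 hA hz h1 h2 h3 hf, ?_⟩
  intro q l hq hlN hl30 hγ
  obtain ⟨d1, -, -, -, -⟩ := hDq n t q l hq
  obtain ⟨⟨g, hg, hg'⟩, hL, -⟩ := hL3 n t q ⊤ hq.2.1 Eb.ne_top
  obtain ⟨hv, -⟩ := hL g hg hg'
  have hm : ∀ m : ℕ, (m : ℂ) * g ∈ Lam (⊤ : Ideal (OO n t)) ↔ l ∣ m := by
    intro m
    rw [← toC_nat (n := n) (t := t) m, hv]
    have h := d1 (m : ℤ)
    rw [Int.cast_natCast] at h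
    rw [h]
    exact Int.natCast_dvd_natCast
  have hl1 : ¬ l ∣ 1 := by
    intro h
    exact hq.2.2.1.one_lt.ne' (Nat.dvd_one.1 h)
  have hl2 : ¬ l ∣ 2 := by
    intro h
    exact hl1 (hl30 ▸ Nat.dvd_gcd dvd_rfl (h.trans (by norm_num)))
  have hl3 : ¬ l ∣ 3 := by
    intro h
    exact hl1 (hl30 ▸ Nat.dvd_gcd dvd_rfl (h.trans (by norm_num)))
  have e1 : g ∉ Lam (⊤ : Ideal (OO n t)) := by
    intro h
    apply hl1
    rw [← hm]
    simpa using h
  have e2 : 2 * g ∉ Lam (⊤ : Ideal (OO n t)) := by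
    intro h
    apply hl2
    rw [← hm]
    exact_mod_cast h
  have e3 : 3 * g ∉ Lam (⊤ : Ideal (OO n t)) := by
    intro h
    apply hl3
    rw [← hm]
    exact_mod_cast h
  refine Afx_one hX hAfi hP hN hN3 hA ((hm N).2 hlN) e1 e2 e3 ?_
  rcases hγ with h | h
  · left
    have h' := (hv (γ - 1)).2 h
    rw [toC_sub, toC_one] at h'
    have e : toC γ * g - g = (toC γ - 1) * g := by ring
    rwa [e]
  · right
    have h' := (hv (γ + 1)).2 h
    rw [toC_add, toC_one] at h'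
    have e : toC γ * g + g = (toC γ + 1) * g := by ring
    rwa [e]

end Pool.Agent.DS
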