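import Pool.Agent.Lib.DS.E.SpecA

/-!
# The global theory for all imaginary quadratic fields, part E, module `Aux` (file `AuxP.lean`; the module name `Aux` is refused by Lean): auxiliary primes
-/

set_option autoImplicit false

open scoped Pointwise nonZeroDivisors

noncomputable section

namespace Pool.Agent.DS

open Pool.Agent.MuZ Pool.Agent.FW NumberField IsDedekindDomain Pool.Agent.DN
open Pool.Agent.DI (io ofC io_inj exists_io io_ofC ofC_io VP MP UP TP ex)

/-- An algebraic integer fixed by the Frobenius elements of almost all primes of degree one is in `O`. -/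
private theorem Aux_gen (h1 : Eb.S_Gn) (h3 : S_MO) (n t : ℕ) [SqN n t] (x : Om) (hx : IsIntegral ℤ x)
    (M : ℕ) (hM : 0 < M)
    (hF : ∀ (q : Ideal (OO n t)) (l : ℕ) (Q : Ideal ZZ) (τ : Gal(Om/ℚ)), Deg1 q l → l.Coprime M →
      Npr Q → Abv Q q → Fro Q l τ → τ x = x) : ∃ v : OO n t, x = toO v := by
  let H : Subgroup Gal(Om/ℚ) :=
    { carrier := {τ | τ x = x}
      mul_mem' := by
        intro a b ha hb
        change (a * b) x = x
        rw [AlgEquiv.mul_apply, show b x = x from hb, show a x = x from ha]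
      one_mem' := rfl
      inv_mem' := by
        intro a ha
        change a⁻¹ x = x
        have h : a x = x := ha
        calc a⁻¹ x = a⁻¹ (a x) := by rw [h]
          _ = (a⁻¹ * a) x := rfl
          _ = x := by rw [inv_mul_cancel]; rfl }
  have hE : FiniteDimensional ℚ (IntermediateField.adjoin ℚ {x}) :=
    IntermediateField.adjoin.finiteDimensional (Algebra.IsIntegral.isIntegral x)
  let U : OpenSubgroup Gal(Om/ℚ) := ⟨(IntermediateField.adjoin ℚ {x}).fixingSubgroup,
    IntermediateField.fixingSubgroup_isOpen _⟩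
  have hU : GK n t ⊓ (U : Subgroup Gal(Om/ℚ)) ≤ H := by
    rintro τ ⟨-, hτ⟩
    have hτ' : τ ∈ (IntermediateField.adjoin ℚ {x}).fixingSubgroup := hτ
    rw [IntermediateField.mem_fixingSubgroup_iff] at hτ'
    exact hτ' x (IntermediateField.mem_adjoin_simple_self ℚ x)
  have hG : GK n t ≤ H := h1 n t H U M hU hM
    (fun q l Q τ hq hl hQ hqA _ _ hFr => hF q l Q τ hq hl hQ hqA hFr)
  exact h3 n t x hx (fun τ hτ => hG hτ)

private theorem Aux_four (h1 : Eb.S_Gn) (h2 : Eb.S_AbB) (h3 : S_MO) (n t : ℕ) [SqN n t] (M : ℕ)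
    (hM : 0 < M) (hnt : ¬ (n = 1 ∧ t = 0)) :
    ∃ (q : Ideal (OO n t)) (l : ℕ), Deg1 q l ∧ l.Coprime M ∧ l % 4 = 3 := by
  by_contra hcon
  obtain ⟨x, hx⟩ := IsAlgClosed.exists_pow_nat_eq (-1 : Om) (n := 2) (by norm_num)
  have hxi : IsIntegral ℤ x := by
    refine ⟨Polynomial.X ^ 2 + 1, ?_, ?_⟩
    · monicity!
    · simp only [Polynomial.eval₂_add, Polynomial.eval₂_pow, Polynomial.eval₂_X, Polynomial.eval₂_one]
      rw [hx]
      ring
  obtain ⟨v, hv⟩ := Aux_gen h1 h3 n t x hxi (2 * M) (by omega) (by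
    intro q l Q τ hq hl hQ hqA hFr
    have hQp : Q.IsPrime := hQ.1
    have hlM : l.Coprime M := Nat.Coprime.coprime_mul_left_right hl
    have hl2 : l.Coprime 2 := Nat.Coprime.coprime_mul_right_right hl
    have hodd : l % 2 = 1 := Nat.odd_iff.1 (Nat.coprime_two_right.1 hl2)
    have hn3 : l % 4 ≠ 3 := fun h => hcon ⟨q, l, hq, hlM, h⟩
    have h4 : l % 4 = 1 := by omega
    have hl4 : l = 4 * (l / 4) + 1 := by omega
    have hpow : x ^ l = x := by
      rw [hl4, pow_succ, pow_mul, show x ^ 4 = 1 by linear_combination (x ^ 2 - 1) * hx, one_pow, one_mul]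
    have hfr : MP Q (τ x - x) := by
      have := DI.VP.frob hFr (DI.VP.integral (P := Q) hxi)
      rwa [hpow] at this
    have hτx : (τ x) ^ 2 = -1 := by rw [← map_pow, hx, map_neg, map_one]
    have hm : (τ x - x) * (τ x + x) = 0 := by linear_combination hτx - hx
    rcases mul_eq_zero.1 hm with h | h
    · exact sub_eq_zero.1 h
    · exfalso
      have h5 : MP Q (x * (τ x - x)) := DI.MP.mul_left (DI.VP.integral (P := Q) hxi) hfr
      have h6 : x * (τ x - x) = ((2 : ℤ) : Om) := by
        push_cast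
        linear_combination x * h - 2 * hx
      rw [h6] at h5
      refine (((h2 n t).2 Q q l hQ hq hqA).2 2 ?_).2 h5
      intro hd
      have hd' : l ∣ 2 := by exact_mod_cast hd
      have h7 : l = 1 := Nat.Coprime.eq_one_of_dvd hl2 hd'
      exact hq.2.2.1.one_lt.ne' h7)
  have hvv : v * v = -1 := by
    apply toO_inj
    rw [toO_mul, toO_neg, toO_one, ← hv, ← hx]
    ring
  rcases (inferInstance : SqN n t).out with ⟨ht, -, -⟩ | ⟨ht, -, -⟩
  · subst ht
    have hre := congrArg QuadraticAlgebra.re hvv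
    have him := congrArg QuadraticAlgebra.im hvv
    rw [re_mul, QuadraticAlgebra.re_neg, re_one] at hre
    rw [im_mul, QuadraticAlgebra.im_neg, im_one] at him
    push_cast at him
    have hn1 : (1 : ℤ) ≤ n := by exact_mod_cast (hn (n := n) (t := 1))
    have hf : v.im * (2 * v.re + v.im) = 0 := by linear_combination him
    rcases mul_eq_zero.1 hf with h | h
    · rw [h] at hre
      nlinarith [sq_nonneg v.re]
    · have hy : v.im = -(2 * v.re) := by linarith
      rw [hy] at hre
      have h8 : v.re ^ 2 * (4 * n - 1) = 1 := by linear_combination -hre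
      have h9 : (3 : ℤ) ≤ 4 * n - 1 := by linarith
      rcases eq_or_ne v.re 0 with h0 | h0
      · rw [h0] at h8
        norm_num at h8
      · have h10 : 1 ≤ v.re ^ 2 := by
          have := sq_pos_of_ne_zero h0
          linarith
        nlinarith
  · subst ht
    have hre := congrArg QuadraticAlgebra.re hvv
    have him := congrArg QuadraticAlgebra.im hvv
    rw [re_mul, QuadraticAlgebra.re_neg, re_one] at hre
    rw [im_mul, QuadraticAlgebra.im_neg, im_one] at him
    push_cast at him
    have hf : v.re * v.im = 0 := by linarith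
    rcases mul_eq_zero.1 hf with h | h
    · rw [h] at hre
      have h8 : (n : ℤ) * (v.im * v.im) = 1 := by linarith
      have h9 : (0 : ℤ) ≤ n := by positivity
      have h10 : (n : ℤ) = 1 := by
        rcases Int.eq_one_or_neg_one_of_mul_eq_one h8 with h11 | h11
        · exact h11
        · omega
      exact hnt ⟨by exact_mod_cast h10, rfl⟩
    · rw [h] at hre
      nlinarith [sq_nonneg v.re]

private theorem Aux_three (h1 : Eb.S_Gn) (h2 : Eb.S_AbB) (h3 : S_MO) (n t : ℕ) [SqN n t] (M : ℕ)
    (hM : 0 < M) (hnt : ¬ (n = 1 ∧ t = 1)) :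
    ∃ (q : Ideal (OO n t)) (l : ℕ), Deg1 q l ∧ l.Coprime M ∧ l % 3 = 2 := by
  by_contra hcon
  obtain ⟨s, hs⟩ := IsAlgClosed.exists_pow_nat_eq (-3 : Om) (n := 2) (by norm_num)
  obtain ⟨x, hx⟩ : ∃ x : Om, x ^ 2 + x + 1 = 0 := by
    refine ⟨(-1 + s) / 2, ?_⟩
    linear_combination hs / 4
  have hxi : IsIntegral ℤ x := by
    refine ⟨Polynomial.X ^ 2 + Polynomial.X + 1, ?_, ?_⟩
    · monicity!
    · simp only [Polynomial.eval₂_add, Polynomial.eval₂_pow, Polynomial.eval₂_X, Polynomial.eval₂_one]
      exact hx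
  obtain ⟨v, hv⟩ := Aux_gen h1 h3 n t x hxi (3 * M) (by omega) (by
    intro q l Q τ hq hl hQ hqA hFr
    have hQp : Q.IsPrime := hQ.1
    have hlM : l.Coprime M := Nat.Coprime.coprime_mul_left_right hl
    have hl3 : l.Coprime 3 := Nat.Coprime.coprime_mul_right_right hl
    have hnd : ¬ l ∣ 3 := by
      intro hd'
      have h7 : l = 1 := Nat.Coprime.eq_one_of_dvd hl3 hd'
      exact hq.2.2.1.one_lt.ne' h7
    have h0 : l % 3 ≠ 0 := by
      intro h
      have h8 : 3 ∣ l := Nat.dvd_of_mod_eq_zero h
      have h9 : Nat.gcd l 3 = 3 := Nat.gcd_eq_right h8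
      rw [hl3] at h9
      omega
    have hn2 : l % 3 ≠ 2 := fun h => hcon ⟨q, l, hq, hlM, h⟩
    have h4 : l % 3 = 1 := by omega
    have hl4 : l = 3 * (l / 3) + 1 := by omega
    have hpow : x ^ l = x := by
      rw [hl4, pow_succ, pow_mul, show x ^ 3 = 1 by linear_combination (x - 1) * hx, one_pow, one_mul]
    have hfr : MP Q (τ x - x) := by
      have := DI.VP.frob hFr (DI.VP.integral (P := Q) hxi)
      rwa [hpow] at this
    have hτx : (τ x) ^ 2 + τ x + 1 = 0 := by
      rw [← map_pow, ← map_add, ← map_one τ, ← map_add, hx, map_zero]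
    have hm : (τ x - x) * (τ x + x + 1) = 0 := by linear_combination hτx - hx
    rcases mul_eq_zero.1 hm with h | h
    · exact sub_eq_zero.1 h
    · exfalso
      have h5 : MP Q ((τ x - x) * (τ x - x)) := DI.MP.mul_left (DI.MP.vp hfr) hfr
      have h6 : (τ x - x) * (τ x - x) = ((-3 : ℤ) : Om) := by
        have h7 : τ x = -x - 1 := by linear_combination h
        rw [h7]
        push_cast
        linear_combination 4 * hx
      rw [h6] at h5
      refine (((h2 n t).2 Q q l hQ hq hqA).2 (-3) ?_).2 h5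
      intro hd
      rw [Int.dvd_neg] at hd
      exact hnd (by exact_mod_cast hd))
  have hvv : v * v + v + 1 = 0 := by
    apply toO_inj
    rw [toO_add, toO_add, toO_mul, toO_one, toO_zero, ← hv, ← hx]
    ring
  rcases (inferInstance : SqN n t).out with ⟨ht, -, -⟩ | ⟨ht, -, -⟩
  · subst ht
    have hn1' : n ≠ 1 := fun h => hnt ⟨h, rfl⟩
    have hre := congrArg QuadraticAlgebra.re hvv
    have him := congrArg QuadraticAlgebra.im hvv
    rw [QuadraticAlgebra.re_add, QuadraticAlgebra.re_add, re_mul, re_one, QuadraticAlgebra.re_zero] at hre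
    rw [QuadraticAlgebra.im_add, QuadraticAlgebra.im_add, im_mul, im_one, QuadraticAlgebra.im_zero] at him
    push_cast at him
    have hn1 : (1 : ℤ) ≤ n := by exact_mod_cast (hn (n := n) (t := 1))
    have hn2 : (2 : ℤ) ≤ n := by
      have : (2 : ℕ) ≤ n := by
        have := hn (n := n) (t := 1)
        omega
      exact_mod_cast this
    have hf : v.im * (2 * v.re + v.im + 1) = 0 := by linear_combination him
    rcases mul_eq_zero.1 hf with h | h
    · rw [h] at hre
      nlinarith [sq_nonneg (2 * v.re + 1)]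
    · have hy : v.im = -(2 * v.re + 1) := by linarith
      rw [hy] at hre
      have hs0 : 0 ≤ v.re ^ 2 + v.re := by
        rcases le_or_gt 0 v.re with h0 | h0
        · positivity
        · have h11 : v.re ≤ -1 := by omega
          nlinarith
      have h8 : v.re ^ 2 + v.re + 1 = n * (4 * (v.re ^ 2 + v.re) + 1) := by linear_combination hre
      nlinarith
  · subst ht
    have hre := congrArg QuadraticAlgebra.re hvv
    have him := congrArg QuadraticAlgebra.im hvv
    rw [QuadraticAlgebra.re_add, QuadraticAlgebra.re_add, re_mul, re_one, QuadraticAlgebra.re_zero] at hre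
    rw [QuadraticAlgebra.im_add, QuadraticAlgebra.im_add, im_mul, im_one, QuadraticAlgebra.im_zero] at him
    push_cast at him
    have hf : v.im * (2 * v.re + 1) = 0 := by linear_combination him
    rcases mul_eq_zero.1 hf with h | h
    · rw [h] at hre
      nlinarith [sq_nonneg (2 * v.re + 1)]
    · omega

/-- **Auxiliary primes.** -/
theorem sAux (h1 : Eb.S_Gn) (h2 : Eb.S_AbB) (h3 : S_MO) : S_Aux := by
  intro n t _ M hM
  exact ⟨Aux_four h1 h2 h3 n t M hM, Aux_three h1 h2 h3 n t M hM⟩

end Pool.Agent.DS
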