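import Pool.Agent.Lib.DS.E.SpecA

/-!
# The global theory for all imaginary quadratic fields, part E: the Galois action on `Theta` (module `E10T`; author helper9)
-/

set_option autoImplicit false

noncomputable section

namespace Pool.Agent.DS

open Pool.Agent.MuZ Pool.Agent.FW Pool.Agent.DN

/-- **The Galois action on `Theta`.** -/
theorem sE10T (hB14 : S_B14) (hD8 : S_D8) (hSyA : S_SyA) : S_E10T := by
  intro n t _ τ N a hN _ hP m b hm hb hm2 hm15 hmN z hz
  have ga : G15 a := Eb.psi_g15 hP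
  have gab : G15 (a * b) := Eb.g15_mul ga hb
  obtain ⟨-, hNu, -, hHalf⟩ := hSyA n t a b m N hP.ne hb.ne hm hN (Eb.psi_pri hP) hmN
  have hh := (hB14 n t m b hm hb.ne hm2).1
  rw [← (hD8 n t m (a * b) hm gab hm2 hm15).1 (hs m b) (hHalf _ hh) z]
  unfold Theta
  rw [map_prod]
  refine Finset.prod_congr rfl (fun u hu => ?_)
  have hu1 : τ (xO b u) = xO (a * b) u := hP.xx b hb.ne hb.cop u (hNu u (hh.mem u hu).1)
  have hz1 : τ (xO b z) = xO (a * b) z := hP.xx b hb.ne hb.cop z hz
  have e1 := hP.a1 b hb.ne hb.cop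
  have e3 := hP.a3 b hb.ne hb.cop
  have e4 : τ (4 : Om) = 4 := map_ofNat τ 4
  simp only [W2, map_pow, map_mul, map_inv₀, map_sub, map_add, hu1, hz1, e1, e3, e4]

end Pool.Agent.DS
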