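import Pool.Agent.Lib.DS.E.SpecA

/-!
# The global theory for all imaginary quadratic fields, part E, module `E10v`: the function `vO` and the Galois action on it
-/

set_option autoImplicit false

open scoped Pointwise nonZeroDivisors

noncomputable section

namespace Pool.Agent.DS

open Pool.Agent.MuZ Pool.Agent.FW NumberField IsDedekindDomain Pool.Agent.DN
open Pool.Agent.DI (io ofC io_inj exists_io io_ofC ofC_io VP MP UP TP ex)

/-- `1/3` is a torsion point. -/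
private theorem E10v_tor {n t : ℕ} [SqN n t] : Tor n t (1 / 3 : ℂ) :=
  ⟨1, 3, by norm_num, by rw [toC_one, Nat.cast_ofNat]⟩

/-- `1/3` is not a lattice point. -/
private theorem E10v_third (hL6 : S_L6) {n t : ℕ} [SqN n t] {b : Ideal (OO n t)} (hb : G15 b) :
    (1 / 3 : ℂ) ∉ Lam b := by
  intro h
  have h1 := (hL6.1 n t b 3 hb.ne (by norm_num) (Eb.pri_dvd hb.cop ⟨5, rfl⟩) 1).1
    (by rw [toC_one, Nat.cast_ofNat]; exact h)
  have h2 := ((nat_dvd_iff 3 (1 : OO n t)).1 h1).1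
  rw [re_one] at h2
  omega

private theorem E10v_val (hL6 : S_L6) (hXOm : S_XOm) (n t : ℕ) [SqN n t] (b : Ideal (OO n t))
    (hb : G15 b) (z : ℂ) (hz : Tor n t z) :
    (z ∈ Lam b → vO b z = 0) ∧ (z - 1 / 3 ∈ Lam b → vO b z = a3O b) ∧
    (z + 1 / 3 ∈ Lam b → vO b z = -a3O b) ∧
    (z ∉ Lam b → z - 1 / 3 ∉ Lam b → z + 1 / 3 ∉ Lam b →
      vO b z * a3O b = -((xO b (z + 1 / 3) - xO b (z - 1 / 3)) * xO b z ^ 2)) := by
  have hX := hXOm n t b hb
  refine ⟨fun h => (hX.lat z h).2, fun h => (hX.cng z (1 / 3) h).2.trans hX.v3, fun h => ?_,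
    fun h1 h2 h3 => ?_⟩
  · have h1 : z - -(1 / 3) ∈ Lam b := by
      rw [sub_neg_eq_add]
      exact h
    rw [(hX.cng z (-(1 / 3)) h1).2, (hX.neg (1 / 3) E10v_tor).2, hX.v3]
  · have h4 := hX.ksb z (1 / 3) hz E10v_tor h1 (E10v_third hL6 hb) h3 h2
    rw [hX.x3, hX.v3, sub_zero] at h4
    rw [h4, neg_neg]

/-- The function `vO` and the Galois action on it. -/
theorem sE10v (hL5 : S_L5) (hL6 : S_L6) (_hO6 : S_O6) (hXOm : S_XOm) : S_E10v := by
  refine ⟨fun n t _ b hb z hz => E10v_val hL6 hXOm n t b hb z hz, ?_⟩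
  intro n t _ τ N a hN h15 hP b hb z hz
  have haN : PrI a N := Eb.psi_pri hP
  have hab : G15 (a * b) := Eb.g15_mul (Eb.psi_g15 hP) hb
  have hT : Tor n t z := (tor_iff hb.ne).2 ⟨N, hN, hz⟩
  obtain ⟨h1, h2, h3, h4⟩ := E10v_val hL6 hXOm n t b hb z hT
  obtain ⟨h1', h2', h3', h4'⟩ := E10v_val hL6 hXOm n t (a * b) hab z hT
  have hS : (N : ℂ) * (1 / 3) ∈ Lam b := by
    obtain ⟨c, hc⟩ := h15
    have e : (N : ℂ) * (1 / 3) = toC ((5 * c : ℕ) : OO n t) := by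
      rw [toC_nat, hc]
      push_cast
      ring
    rw [e]
    have h5 : toC ((5 * c : ℕ) : OO n t) ∈ Lam (⊤ : Ideal (OO n t)) := lam_top.2 ⟨_, rfl⟩
    exact lam_anti le_top h5
  have hp : (N : ℂ) * (z + 1 / 3) ∈ Lam b := by
    rw [mul_add]
    exact lam_add hz hS
  have hm : (N : ℂ) * (z - 1 / 3) ∈ Lam b := by
    rw [mul_sub]
    exact lam_sub hz hS
  have hL : ∀ y : ℂ, (N : ℂ) * y ∈ Lam b → y ∉ Lam b → y ∉ Lam (a * b) := fun y hy h5 h6 =>
    h5 ((hL5 n t a b N hP.ne hb.ne hN haN).1 y hy h6)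
  have ha3 : τ (a3O b) = a3O (a * b) := hP.a3 b hb.ne hb.cop
  by_cases c1 : z ∈ Lam b
  · rw [h1 c1, h1' (lam_mono c1), map_zero]
  by_cases c2 : z - 1 / 3 ∈ Lam b
  · rw [h2 c2, h2' (lam_mono c2), ha3]
  by_cases c3 : z + 1 / 3 ∈ Lam b
  · rw [h3 c3, h3' (lam_mono c3), map_neg, ha3]
  have h5 := congrArg τ (h4 c1 c2 c3)
  rw [map_mul, ha3, map_neg, map_mul, map_sub, map_pow, hP.xx b hb.ne hb.cop z hz,
    hP.xx b hb.ne hb.cop _ hp, hP.xx b hb.ne hb.cop _ hm] at h5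
  have h6 := h4' (hL _ hz c1) (hL _ hm c2) (hL _ hp c3)
  rw [← h6] at h5
  exact mul_right_cancel₀ (hXOm n t (a * b) hab).a3 h5

end Pool.Agent.DS
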