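import Pool.Agent.Lib.DS.E.SpecA

/-!
# The global theory for all imaginary quadratic fields, part E: Frobenius elements at almost all degree one primes (`S_E2`)

Let `A` be the finite set of all conjugates of the numbers `a1O b`, `a3O b`, `xO b z` (`N z ∈ Lam b`). Modulo a prime `Q`
above a degree one prime `q` prime to `30 N`, of good reduction, at which the elements of `A` are incongruent, the Frobenius
congruence and Kronecker congruence give `τ (a1O b) = a1O (q b)`, `τ (a3O b) = a3O (q b)`, `τ (xO b z) = xO (q b) z`.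
-/

set_option autoImplicit false

open scoped Pointwise nonZeroDivisors

noncomputable section

namespace Pool.Agent.DS

open Pool.Agent.MuZ Pool.Agent.FW NumberField IsDedekindDomain Pool.Agent.DN
open Pool.Agent.DI (io ofC io_inj exists_io io_ofC ofC_io VP MP UP TP ex)

/-- The conjugates of the elements of a finite set: a finite set, stable under the Galois group. -/
private theorem E2_conj (A : Set Om) (hA : A.Finite) :
    ∃ A' : Set Om, A'.Finite ∧ A ⊆ A' ∧ ∀ (τ : Gal(Om/ℚ)), ∀ x ∈ A, τ x ∈ A' := by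
  have hx0 : ∀ x : Om, minpoly ℚ x ≠ 0 := fun x =>
    minpoly.ne_zero (Algebra.IsAlgebraic.isAlgebraic x).isIntegral
  refine ⟨⋃ x ∈ A, (minpoly ℚ x).rootSet Om, hA.biUnion fun x _ => (minpoly ℚ x).rootSet_finite Om,
    ?_, ?_⟩
  · intro x hx
    rw [Set.mem_iUnion₂]
    refine ⟨x, hx, ?_⟩
    rw [Polynomial.mem_rootSet]
    exact ⟨hx0 x, minpoly.aeval ℚ x⟩
  · intro τ x hx
    rw [Set.mem_iUnion₂]
    refine ⟨x, hx, ?_⟩
    rw [Polynomial.mem_rootSet]
    refine ⟨hx0 x, ?_⟩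
    have h1 : Polynomial.aeval (τ x) (minpoly ℚ x) = τ (Polynomial.aeval x (minpoly ℚ x)) :=
      Polynomial.aeval_algHom_apply (τ : Om →ₐ[ℚ] Om) x (minpoly ℚ x)
    rw [h1, minpoly.aeval, map_zero]

/-- **Frobenius elements at almost all degree one primes.** -/
theorem sE2 (hO6 : S_O6) (hR : S_GQB) (hX : S_XOm) (hAb : Eb.S_AbB) (hD1 : S_D1) (hD3 : S_D3)
    (hFN : S_FN) (hInc : S_Inc) : S_E2 := by
  intro n t _ N hN h15
  obtain ⟨A₀, hA₀, hAa, hAx⟩ := hFN n t N hN h15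
  obtain ⟨A, hA, hsub, hstab⟩ := E2_conj A₀ hA₀
  obtain ⟨B₁, hB₁, hI⟩ := hInc A hA
  obtain ⟨B₂, hB₂, hG⟩ := hR n t
  refine ⟨30 * N * B₁ * B₂, by positivity, ?_⟩
  intro q l hq hl Q hNQ hab τ _ hFr
  have hpr : Q.IsPrime := hNQ.1
  have hl1 : l.Coprime (30 * N * B₁) := Nat.Coprime.coprime_mul_right_right hl
  have hlB₂ : l.Coprime B₂ := Nat.Coprime.coprime_mul_left_right hl
  have hl2 : l.Coprime (30 * N) := Nat.Coprime.coprime_mul_right_right hl1
  have hlB₁ : l.Coprime B₁ := Nat.Coprime.coprime_mul_left_right hl1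
  have hlN : l.Coprime N := Nat.Coprime.coprime_mul_left_right hl2
  have hl30 : l.Coprime 30 := Nat.Coprime.coprime_mul_right_right hl2
  have hl15 : l.Coprime 15 := Nat.Coprime.coprime_dvd_right (by norm_num) hl30
  have hlp : l.Prime := hq.2.2.1
  obtain ⟨hMl, hUn⟩ := (hAb n t).2 Q q l hNQ hq hab
  have hnd : ∀ m : ℕ, l.Coprime m → UP Q (m : Om) := by
    intro m hm
    have h1 : ¬ (l : ℤ) ∣ (m : ℤ) := by
      intro h
      have h2 : l ∣ m := by exact_mod_cast h
      exact hlp.one_lt.ne' (Nat.Coprime.eq_one_of_dvd hm h2)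
    have h3 := hUn m h1
    rwa [Int.cast_natCast] at h3
  have hGQ : GQ n t Q := hG Q hNQ (hnd B₂ hlB₂).2
  obtain ⟨hV, hE⟩ := hI Q l hNQ hMl hlB₁
  have hcop : PrI q (15 * N) := by
    rw [(hO6 n t).2.2.1 (15 * N) q (by positivity), hq.2.2.2]
    exact Nat.Coprime.mul_right hl15 hlN
  have hq15 : G15 q := ⟨hq.2.1, Eb.pri_dvd hcop ⟨N, rfl⟩⟩
  -- the common argument
  have key : ∀ x ∈ A₀, ∀ y ∈ A₀, MP Q (y - x ^ l) → τ x = y := by
    intro x hx y hy h
    refine hE (τ x) (hstab τ x hx) y (hsub hy) ?_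
    have h1 : MP Q (τ x - x ^ l) := DI.VP.frob hFr (hV x (hsub hx))
    have h2 := DI.MP.sub h1 h
    have e : τ x - y = τ x - x ^ l - (y - x ^ l) := by ring
    rw [e]
    exact h2
  have ha1 : ∀ b : Ideal (OO n t), b ≠ ⊥ → PrI b 15 → τ (a1O b) = a1O (q * b) := by
    intro b hb hb15
    have hg : G15 b := ⟨hb, hb15⟩
    exact key _ (hAa b hg).1 _ (hAa _ (Eb.g15_mul hq15 hg)).1
      (hD3 n t q l hq hl30 Q hGQ hab b hg).2.1
  have ha3 : ∀ b : Ideal (OO n t), b ≠ ⊥ → PrI b 15 → τ (a3O b) = a3O (q * b) := by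
    intro b hb hb15
    have hg : G15 b := ⟨hb, hb15⟩
    exact key _ (hAa b hg).2 _ (hAa _ (Eb.g15_mul hq15 hg)).2
      (hD3 n t q l hq hl30 Q hGQ hab b hg).2.2.1
  refine ⟨hq.2.1, hcop, ha1, ha3, ?_⟩
  intro b hb hb15 z hz
  have hg : G15 b := ⟨hb, hb15⟩
  have hqg : G15 (q * b) := Eb.g15_mul hq15 hg
  by_cases hzb : z ∈ Lam b
  · have h1 := ((hX n t b hg).lat z hzb).1
    have h2 := ((hX n t (q * b) hqg).lat z (lam_mono hzb)).1
    rw [h1, h2, ← ha1 b hb hb15, map_div₀, map_neg, map_pow, map_ofNat]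
  · have hTz : Tor n t z := (tor_iff hb).2 ⟨N, hN, hz⟩
    have hK : ¬ IK Q b z := by
      intro h
      have h1 : Qp Q b z := (hD1 n t Q hGQ b hg).2.2.2.2.1 z h
      have h2 : toC (1 : OO n t) * z ∈ Lam b := by
        refine h1 (N : OO n t) 1 ?_ ?_
        · rw [toO_nat]
          exact (hnd N hlN).2
        · rw [mul_one, toC_nat]
          exact hz
      rw [toC_one, one_mul] at h2
      exact hzb h2
    exact key _ (hAx b hg z hz) _ (hAx _ hqg z (lam_mono hz))
      ((hD3 n t q l hq hl30 Q hGQ hab b hg).2.2.2 z hTz hK).2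

end Pool.Agent.DS
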