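import Pool.Agent.Lib.DS.Iface

/-!
# Global theory for all imaginary quadratic fields, part E, second half (author helper28)

The modules of `DN/E` (second half) for `[SqN n t]`: the same proofs. Complete proofs in words: the docstrings of `DN/E/SpecB.lean`.
-/

set_option autoImplicit false

open scoped Pointwise nonZeroDivisors

noncomputable section

namespace Pool.Agent.DS.Eb

open Pool.Agent.MuZ Pool.Agent.FW NumberField IsDedekindDomain Pool.Agent.DN Pool.Agent.DN.Eb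
open Pool.Agent.DI (io ofC io_inj exists_io io_ofC ofC_io VP MP UP TP ex sqr sqr_sq kap)

/-- `S_E1`, item 3. -/
def S_Ray : Prop :=
  ∀ (n t : ℕ) [SqN n t] (N : ℕ), 0 < N → 15 ∣ N → ∀ (τ : Gal(Om/ℚ)) (a a' : Ideal (OO n t)),
    Psi τ N a → Ray N a a' → Psi τ N a'

/-- `S_E1`, item 2. -/
def S_Uq : Prop :=
  ∀ (n t : ℕ) [SqN n t] (N : ℕ), 0 < N → 15 ∣ N → ∀ (τ : Gal(Om/ℚ)) (a a' : Ideal (OO n t)),
    Psi τ N a → Psi τ N a' → Ray N a a'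

/-- An open subgroup which acts trivially on the `N`-torsion and on `μ_N`. -/
def S_Op : Prop :=
  ∀ (n t : ℕ) [SqN n t] (N : ℕ), 0 < N → 15 ∣ N → ∃ O : OpenSubgroup Gal(Om/ℚ), ∀ τ ∈ O,
    Psi τ N (⊤ : Ideal (OO n t)) ∧ ∀ ζ : Om, ζ ^ N = 1 → τ ζ = ζ

/-- `FixI` is stable under `Gal(Om/K)`. -/
def S_Ab : Prop :=
  ∀ (n t : ℕ) [SqN n t] (N : ℕ) (H : Ideal (OO n t) → Prop), 0 < N → 15 ∣ N →
    (∀ a a', H a → Ray N a a' → H a') → ∀ τ ∈ GK n t, ∀ x ∈ FixI N H, τ x ∈ FixI N H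

/-- **`S_E1`** (complete). -/
theorem sE1 (h1 : S_Ex) (h2 : S_Uq) (h3 : S_Ray) : S_E1 := by
  intro n t _ N hN h15
  exact ⟨h1 n t N hN h15, h2 n t N hN h15, h3 n t N hN h15, fun τ τ' a a' h h' => psi_mul h h',
    fun τ M a h hM _ => psi_level h hM⟩

/-- **`S_E9`** (complete). -/
theorem sE9 (hC : S_Cj) (h2 : S_H2M) (hP : S_HPM) : S_E9 := by
  intro n t _ f hf0 h15
  obtain ⟨c, -, hc⟩ := hC
  obtain ⟨-, -, hst⟩ := hc n t
  obtain ⟨a1, a2⟩ := h2 n t f hf0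
  obtain ⟨b1, b2, b3, b4⟩ := hP n t f hf0
  have h2f : 0 < 2 * f := by omega
  have h15' : 15 ∣ 2 * f := h15.mul_left 2
  have hfN : ∀ N : ℕ, 0 < f * 2 ^ N := fun N => Nat.mul_pos hf0 (by positivity)
  have hfN' : ∀ N : ℕ, 15 ∣ f * 2 ^ N := fun N => h15.mul_right _
  refine ⟨hst (2 * f) _ h2f h15' b1.ray b1.cj,
    fun N τ hN => hst _ _ (hfN N) (hfN' N) (b2 N hN).ray (b2 N hN).cj τ,
    hst (2 * f) _ h2f h15' a1.ray a1.cj,
    fun N τ hN => hst _ _ (hfN N) (hfN' N) (a2 N hN).ray (a2 N hN).cj τ, ?_, ?_⟩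
  · intro x hx τ hτ a h1 h2
    exact hx τ hτ a h1 (b3 a h2)
  · intro N hN x hx τ hτ a h1 h2
    exact hx τ hτ a h1 (b4 N a hN h2)

end Pool.Agent.DS.Eb
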