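import Pool.Agent.Lib.DS.E.SpecA
import Pool.Agent.Lib.DS.E.SpecB

/-!
# The global theory for all imaginary quadratic fields, part E, module Ex: existence of the ideal `a` with `Psi τ N a`
-/

set_option autoImplicit false

open scoped Pointwise nonZeroDivisors

noncomputable section

namespace Pool.Agent.DS

open Pool.Agent.MuZ Pool.Agent.FW NumberField IsDedekindDomain Pool.Agent.DN
open Pool.Agent.DI (io ofC io_inj exists_io io_ofC ofC_io VP MP UP TP ex)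

/-- Existence of the ideal `a` with `Psi τ N a`. -/
theorem sEx (gn : Eb.S_Gn) (op : Eb.S_Op) (opA : S_OpA) (e2 : S_E2) : S_Ex := by
  intro n t _ N hN h15 τ₀ hτ₀
  obtain ⟨U, hU⟩ := op n t N hN h15
  obtain ⟨B, hB, hB'⟩ := e2 n t N hN h15
  let Hs : Set Gal(Om/ℚ) := {τ | τ ∈ GK n t ∧ ∃ a : Ideal (OO n t), Psi τ N a}
  have hmul : ∀ τ ∈ Hs, ∀ τ' ∈ Hs, τ * τ' ∈ Hs := by
    rintro τ ⟨h1, a, ha⟩ τ' ⟨h1', a', ha'⟩
    exact ⟨mul_mem h1 h1', a * a', Eb.psi_mul ha ha'⟩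
  have hUs : ∀ τ ∈ GK n t, τ ∈ U → τ ∈ Hs := fun τ h1 h2 => ⟨h1, ⊤, (hU τ h2).1⟩
  have hinv := opA n t U Hs (fun τ h => h.1) hUs hmul
  let H : Subgroup Gal(Om/ℚ) :=
    { carrier := Hs
      mul_mem' := fun {a b} ha hb => hmul a ha b hb
      one_mem' := hUs 1 (one_mem _) (one_mem U)
      inv_mem' := fun {a} ha => hinv a ha }
  have hgen := gn n t H U B (fun τ h => hUs τ h.1 h.2) hB
    (fun q l Q τ hq hlB hQ hqA _ hτ hFr => ⟨hτ, q, hB' q l hq hlB Q hQ hqA τ hτ hFr⟩)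
  exact (hgen hτ₀).2

end Pool.Agent.DS
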