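import Pool.Agent.Lib.DS.E.SpecA
import Pool.Agent.Lib.DN.O.All

/-!
# The global theory for all imaginary quadratic fields, part E, module Gwp: inertia, the class of `a` is trivial, one step
-/

set_option autoImplicit false

noncomputable section

namespace Pool.Agent.DS

open Pool.Agent.MuZ Pool.Agent.FW NumberField IsDedekindDomain Pool.Agent.DN
open Pool.Agent.DI (io ofC io_inj exists_io io_ofC ofC_io VP MP UP TP ex)

private theorem Gwp_unit {n t : ℕ} [h : SqN n t] (hn : n ≠ 1) {e : OO n t} (he : Nm e = 1) :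
    e = 1 ∨ e = -1 := by
  refine unit_pm ?_ e he
  have h1 := Dk_cast (n := n) (t := t)
  rcases h.out with ⟨ht, h2, -⟩ | ⟨ht, h2, -⟩ <;> subst ht
  · have h3 : 2 ≤ n := by omega
    have h4 : (2 : ℤ) ≤ n := by exact_mod_cast h3
    have h5 : (4 : ℤ) < (Dk n 1 : ℕ) := by
      rw [h1]
      push_cast
      linarith
    exact_mod_cast h5
  · have h3 : 2 ≤ n := by omega
    have h4 : (2 : ℤ) ≤ n := by exact_mod_cast h3
    have h5 : (4 : ℤ) < (Dk n 0 : ℕ) := by
      rw [h1]
      push_cast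
      linarith
    exact_mod_cast h5

private theorem Gwp_cj {n t : ℕ} [SqN n t] (o3 : S_O3) (a : Ideal (OO n t)) (m : ℕ) :
    cjI (a ^ m) = cjI a ^ m := by
  obtain ⟨-, c2, -, c4, -⟩ := o3 n t
  induction m with
  | zero =>
    rw [pow_zero, pow_zero, Ideal.one_eq_top]
    have h := c4 (1 : OO n t)
    rw [cjO_one] at h
    have h2 : sp (1 : OO n t) = ⊤ := Ideal.span_singleton_one
    rwa [h2] at h
  | succ m ih => rw [pow_succ, pow_succ, c2, ih]

private theorem Gwp_root {n t : ℕ} [SqN n t] {a b : Ideal (OO n t)} {p : ℕ} (hp : p ≠ 0)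
    (ha : a ≠ ⊥) (hb : b ≠ ⊥) (h : a ^ p = b ^ p) : a = b := by
  have hd : IsDedekindDomain (OO n t) := aO1 n t
  classical
  have h1 : p • UniqueFactorizationMonoid.normalizedFactors a =
      p • UniqueFactorizationMonoid.normalizedFactors b := by
    rw [← UniqueFactorizationMonoid.normalizedFactors_pow, ← UniqueFactorizationMonoid.normalizedFactors_pow, h]
  have h2 : UniqueFactorizationMonoid.normalizedFactors a = UniqueFactorizationMonoid.normalizedFactors b := by
    ext x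
    have h3 := congrArg (Multiset.count x) h1
    rw [Multiset.count_nsmul, Multiset.count_nsmul] at h3
    exact Nat.eq_of_mul_eq_mul_left (Nat.pos_of_ne_zero hp) h3
  rw [← Ideal.prod_normalizedFactors_eq_self ha, ← Ideal.prod_normalizedFactors_eq_self hb, h2]

theorem sGwp (o3 : S_O3) (o6 : S_O6) (e1 : S_E1) (dq : S_Dq) (gwc : S_Gwc) (pri : S_Pri) : S_Gwp := by
  intro n t _ hn P hP τ hτ hτi N a p hN h15 hψ hp hap
  obtain ⟨-, -, c3, c4, -⟩ := o3 n t
  have hN0 : 0 < N := hN.pos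
  have ha0 : a ≠ ⊥ := hψ.ne
  obtain ⟨-, -, hc⟩ := c3 a
  set c : Ideal (OO n t) := cjI a with hcdef
  set κ : OO n t := (NI a : OO n t) with hκ
  have hNI : NI a ≠ 0 := by
    intro h
    have h1 := ((o6 n t).2.2.1 (15 * N) a (by omega)).1 hψ.cop
    rw [h, Nat.coprime_zero_left] at h1
    omega
  have hκ0 : κ ≠ 0 := by
    intro h
    have h1 := congrArg Nm h
    rw [hκ, Nm_nat, Nm_zero] at h1
    exact hNI (by exact_mod_cast pow_eq_zero_iff (two_ne_zero) |>.1 h1)
  obtain ⟨g₀, hg₀, hag⟩ := hap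
  set g : OO n t := cjO g₀ with hg
  have hg0 : g ≠ 0 := by
    intro h
    apply hg₀
    rw [← cjO_cjO g₀, ← hg, h, cjO_zero]
  have hcp : c ^ p = sp g := by
    rw [hcdef, ← Gwp_cj o3, hag, c4]
  have hclaim : ∀ (q : Ideal (OO n t)) (l : ℕ), Deg1 q l → l.Coprime (2 * N) →
      ∃ u : OO n t, g - u ^ p ∈ q ∨ g + u ^ p ∈ q := by
    intro q l hq hl
    have hqp : q.IsPrime := hq.1
    have hlp : l.Prime := hq.2.2.1
    have hlo : Odd l := by
      rw [← Nat.coprime_two_right]
      exact Nat.Coprime.coprime_dvd_right (dvd_mul_right _ _) hl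
    have hM : Odd (N * l) := hN.mul hlo
    have hM0 : 0 < N * l := hM.pos
    have h15M : 15 ∣ N * l := h15.mul_right _
    obtain ⟨e11, -, -, -, e15⟩ := e1 n t (N * l) hM0 h15M
    obtain ⟨a₁, hψ₁⟩ := e11 τ hτ
    have hψN := e15 τ N a₁ hψ₁ (dvd_mul_right _ _) h15
    obtain ⟨α, α', hα, hα', -, -, -, hαa⟩ := (e1 n t N hN0 h15).2.1 τ a₁ a hψN hψ
    obtain ⟨ρ, hρ0, hρ⟩ : Prc (a₁ * c) := by
      refine prc_of hα hα' (a' := a * c) ?_ ⟨κ, hκ0, hc⟩
      rw [← mul_assoc, hαa, mul_assoc]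
    have hpr : Prc (a₁ ^ p) := by
      refine prc_of (α := α ^ p) (α' := α' ^ p) (pow_ne_zero _ hα) (pow_ne_zero _ hα') (a' := a ^ p) ?_
        ⟨g₀, hg₀, hag⟩
      have h1 : ∀ x : OO n t, sp (x ^ p) = sp x ^ p := fun x => (Ideal.span_singleton_pow x p).symm
      rw [h1, h1, ← mul_pow, ← mul_pow, hαa]
    obtain ⟨β, β', hβ, hβ', hβc, -, hβd, hβe⟩ := pri n t hn P hP (τ ^ p) (pow_mem hτ p) (pow_mem hτi p)
      (N * l) (a₁ ^ p) hM h15M (psi_pow hψ₁ p) hpr
    have hspan : sp (β * ρ ^ p) = sp (β' * g) := by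
      have h1 : sp (ρ ^ p) = sp ρ ^ p := (Ideal.span_singleton_pow ρ p).symm
      rw [sp_mul', sp_mul', h1, ← hρ, mul_pow, ← mul_assoc, hβe, Ideal.mul_top, hcp]
    obtain ⟨u, hu⟩ := Ideal.span_singleton_eq_span_singleton.1 hspan
    have hu1 := Gwp_unit hn ((unit_iff (u : OO n t)).1 u.isUnit)
    obtain ⟨q1, -, -, -, q5⟩ := dq n t q l hq
    have hlq : ((l : ℕ) : OO n t) ∈ q := by
      have h1 := (q1 (l : ℤ)).2 (dvd_refl _)
      push_cast at h1
      exact h1
    have hMq : ((N * l : ℕ) : OO n t) ∈ q := by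
      push_cast
      exact q.mul_mem_left _ hlq
    have hββ : β - β' ∈ q := by
      obtain ⟨x, hx⟩ := hβd
      rw [hx]
      exact q.mul_mem_right _ hMq
    have hβq : β ∉ q := by
      refine q5 β fun h1 => ?_
      have h2 : IsCoprime (Nm β) ((N * l : ℕ) : ℤ) := hβc
      have h3 : (l : ℤ) ∣ ((N * l : ℕ) : ℤ) := by
        push_cast
        exact dvd_mul_left _ _
      have h4 := h2.isUnit_of_dvd' h1 h3
      have h5 := Int.isUnit_iff_natAbs_eq.1 h4
      rw [Int.natAbs_natCast] at h5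
      exact hlp.one_lt.ne' h5
    refine ⟨ρ, ?_⟩
    rcases hu1 with h | h
    · left
      rw [h, mul_one] at hu
      have h1 : β * (g - ρ ^ p) ∈ q := by
        have e : β * (g - ρ ^ p) = (β - β') * g := by
          rw [mul_sub, hu]
          ring
        rw [e]
        exact q.mul_mem_right _ hββ
      exact (hqp.mem_or_mem h1).resolve_left hβq
    · right
      rw [h] at hu
      have h1 : β * (g + ρ ^ p) ∈ q := by
        have e : β * (g + ρ ^ p) = (β - β') * g := by
          linear_combination (-1 : OO n t) * hu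
        rw [e]
        exact q.mul_mem_right _ hββ
      exact (hqp.mem_or_mem h1).resolve_left hβq
  obtain ⟨v, hv⟩ := gwc n t p g (2 * N) hp hg0 (by omega) hclaim
  have hv0 : v ≠ 0 := by
    rintro rfl
    rw [zero_pow hp.ne_zero] at hv
    rcases hv with h | h
    · exact hg0 h.symm
    · exact hg0 (neg_eq_zero.1 h.symm)
  have hvs : sp v ^ p = c ^ p := by
    rw [hcp]
    have h1 : sp v ^ p = sp (v ^ p) := Ideal.span_singleton_pow v p
    rw [h1]
    rcases hv with h | h
    · rw [h]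
    · rw [h]
      exact Ideal.span_singleton_neg g
  have hc0 : c ≠ ⊥ := by
    intro h
    rw [h, Ideal.mul_bot] at hc
    exact hκ0 (Ideal.span_singleton_eq_bot.1 hc.symm)
  have hvc : sp v = c := Gwp_root hp.ne_zero (fun h => hv0 (Ideal.span_singleton_eq_bot.1 h)) hc0 hvs
  refine prc_of hv0 hκ0 (a' := ⊤) ?_ ⟨1, one_ne_zero, Ideal.span_singleton_one.symm⟩
  rw [hvc, mul_comm, hc, Ideal.mul_top]

end Pool.Agent.DS
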