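import Pool.Agent.Lib.DS.E.AllB
import Pool.Agent.Lib.DS.E.XOm
import Pool.Agent.Lib.DS.E.FN
import Pool.Agent.Lib.DS.E.E2
import Pool.Agent.Lib.DS.E.Ex
import Pool.Agent.Lib.DS.E.AuxP
import Pool.Agent.Lib.DS.E.Afi
import Pool.Agent.Lib.DS.E.Afx
import Pool.Agent.Lib.DS.E.Af3
import Pool.Agent.Lib.DS.E.Aff
import Pool.Agent.Lib.DS.E.Pri
import Pool.Agent.Lib.DS.E.Gwp
import Pool.Agent.Lib.DS.E.E4a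
import Pool.Agent.Lib.DS.E.E4b
import Pool.Agent.Lib.DS.E.PsK
import Pool.Agent.Lib.DS.E.E10v
import Pool.Agent.Lib.DS.E.Ero
import Pool.Agent.Lib.DS.E.E10r
import Pool.Agent.Lib.DS.E.E10g
import Pool.Agent.Lib.DS.E.E10T

/-!
# The global theory for all imaginary quadratic fields, part E: assembly (author helper39)

`S_E1`, `S_E2`, `S_E4a` (supersingular reduction), `S_E4b`, `S_E6` - `S_E10`, `S_Cj`, `S_PsK` from `S_R1`, `S_GQB`, `S_Leg`, `S_D1`, `S_D3`,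
`S_D8`.
-/

set_option autoImplicit false

noncomputable section

namespace Pool.Agent.DS

open Pool.Agent.DN

/-- `S_XOm`. -/
theorem bXOm (r1 : S_R1) : S_XOm := sXOm aB1 aB2 aB3 aB5 aB7 r1

/-- `S_FN`. -/
theorem bFN (r1 : S_R1) : S_FN := sFN aO7 aL3 (bXOm r1) aIso

/-- `S_E2`. -/
theorem bE2 (r1 : S_R1) (gq : S_GQB) (d1 : S_D1) (d3 : S_D3) : S_E2 :=
  sE2 aO6 gq (bXOm r1) DN.Eb.aAbB d1 d3 (bFN r1) aInc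

theorem bEx (r1 : S_R1) (gq : S_GQB) (d1 : S_D1) (d3 : S_D3) : S_Ex :=
  sEx DN.Eb.aGn (DS.Eb.bOp (bFN r1)) aOpA (bE2 r1 gq d1 d3)

/-- `S_E1`. -/
theorem bE1 (r1 : S_R1) (gq : S_GQB) (d1 : S_D1) (d3 : S_D3) : S_E1 := DS.Eb.bE1 r1 (bEx r1 gq d1 d3)

/-- `S_E6`. -/
theorem bE6 (r1 : S_R1) (gq : S_GQB) (d1 : S_D1) (d3 : S_D3) : S_E6 :=
  DS.Eb.bE6 (bE1 r1 gq d1 d3) (bE2 r1 gq d1 d3) (bFN r1)

/-- `S_E7`. -/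
theorem bE7 (r1 : S_R1) (gq : S_GQB) (d1 : S_D1) (d3 : S_D3) : S_E7 :=
  DS.Eb.bE7 (bE1 r1 gq d1 d3) (bE2 r1 gq d1 d3)

/-- `S_E8`. -/
theorem bE8 (r1 : S_R1) (gq : S_GQB) (d1 : S_D1) (d3 : S_D3) : S_E8 :=
  DS.Eb.bE8 (bE1 r1 gq d1 d3) (bFN r1)

/-- `S_Cj`. -/
theorem bCj (r1 : S_R1) (gq : S_GQB) (d1 : S_D1) (d3 : S_D3) : S_Cj :=
  DS.Eb.bCj (bE1 r1 gq d1 d3) r1

/-- `S_E9`. -/
theorem bE9 (r1 : S_R1) (gq : S_GQB) (d1 : S_D1) (d3 : S_D3) : S_E9 :=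
  DS.Eb.bE9 (bE1 r1 gq d1 d3) r1

theorem bAux : S_Aux := sAux DN.Eb.aGn DN.Eb.aAbB aMO

theorem bAfi (d1 : S_D1) : S_Afi := sAfi aL5 aO6 d1

theorem bAfx (r1 : S_R1) (d1 : S_D1) : S_Afx := sAfx aL3 (bXOm r1) aDq (bAfi d1)

theorem bAf3 (r1 : S_R1) (d1 : S_D1) : S_Af3 := sAf3 (bXOm r1) (bAfi d1)

theorem bAff (r1 : S_R1) (d1 : S_D1) : S_Aff := sAff aO6 r1 (bXOm r1) (bAfi d1)

/-- `S_Pri`, from `S_E1`. -/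
theorem bPri (e1 : S_E1) (r1 : S_R1) (d1 : S_D1) : S_Pri :=
  sPri aO6 aO7 e1 aDq bAux (bAff r1 d1) (bAf3 r1 d1) (bAfx r1 d1)

theorem bPr4 (e1 : S_E1) (r1 : S_R1) (d1 : S_D1) : S_Pr4 :=
  sPr4 aO6 aO7 e1 aDq bAux (bAfi d1) (bAff r1 d1) (bAf3 r1 d1) (bAfx r1 d1)

theorem bGw (e1 : S_E1) (r1 : S_R1) (d1 : S_D1) : S_Gw :=
  sGw aO5 (sGwp aO3 aO6 e1 aDq aGwc (bPri e1 r1 d1))

/-- Inertia above `2`, supersingular reduction, from `S_E1`. -/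
theorem cE4a (e1 : S_E1) (r1 : S_R1) (d1 : S_D1) : S_E4a :=
  sE4a e1 (bPri e1 r1 d1) (bPr4 e1 r1 d1) (bGw e1 r1 d1)

/-- **Inertia above `2`, supersingular reduction.** -/
theorem bE4a (r1 : S_R1) (gq : S_GQB) (d1 : S_D1) (d3 : S_D3) : S_E4a :=
  cE4a (bE1 r1 gq d1 d3) r1 d1

/-- Inertia and the torsion prime to `Q`, `Q` not above `2`. -/
theorem bE4b (r1 : S_R1) (lg : S_Leg) : S_E4b := sE4b aO6 aL3 aL5 aB1 aB7 r1 lg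

/-- `S_PsK`, from `S_E1`. -/
theorem cPsK (e1 : S_E1) (r1 : S_R1) : S_PsK := sPsK aO3 aL5 aL6 aB1 aB13 r1 e1 aIso

/-- `S_PsK`. -/
theorem bPsK (r1 : S_R1) (gq : S_GQB) (d1 : S_D1) (d3 : S_D3) : S_PsK :=
  cPsK (bE1 r1 gq d1 d3) r1

theorem bE10v (r1 : S_R1) : S_E10v := sE10v aL5 aL6 aO6 (bXOm r1)

theorem bEro (r1 : S_R1) : S_Ero := sEro aL3 aL6 aO6 aB1 aB9 r1 aSyA (bE10v r1)

theorem cE10r (e1 : S_E1) (r1 : S_R1) : S_E10r :=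
  sE10r aO2 aO7 r1 e1 (cPsK e1 r1) aEfr (bEro r1)

theorem bE10g (r1 : S_R1) : S_E10g :=
  sE10g aO6 aL5 aB11 aB14 r1 (bXOm r1) aSyA aHsA (bE10v r1)

/-- `S_E10`, from `S_E1`. -/
theorem cE10 (e1 : S_E1) (r1 : S_R1) (d8 : S_D8) : S_E10 :=
  sE10 (bE10v r1) (cE10r e1 r1) (bE10g r1) (sE10T aB14 d8 aSyA)

/-- **`S_E10`.** -/
theorem bE10 (r1 : S_R1) (gq : S_GQB) (d1 : S_D1) (d3 : S_D3) (d8 : S_D8) : S_E10 :=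
  cE10 (bE1 r1 gq d1 d3) r1 d8

end Pool.Agent.DS
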