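import Pool.Agent.Lib.DS.D.AllE
import Pool.Agent.Lib.DS.E.AllA

/-!
# Theorem DS (all imaginary quadratic fields), part E: complete, no hypotheses (helper39)

`zE1`, `zE2`, `zE4a` (supersingular reduction above `2`), `zE4b`, `zE6` - `zE10`, `zCj`, `zPsK`, `zFN`, `zGQB`.
-/

set_option autoImplicit false

noncomputable section

namespace Pool.Agent.DS

open Pool.Agent.DN

theorem zGQB : S_GQB := gqB zGQ
theorem zFN : S_FN := bFN zR1
theorem zE1 : S_E1 := bE1 zR1 zGQB zD1 yD3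
theorem zE2 : S_E2 := bE2 zR1 zGQB zD1 yD3
theorem zE4a : S_E4a := bE4a zR1 zGQB zD1 yD3
theorem zE4b : S_E4b := bE4b zR1 zLeg
theorem zE6 : S_E6 := bE6 zR1 zGQB zD1 yD3
theorem zE7 : S_E7 := bE7 zR1 zGQB zD1 yD3
theorem zE8 : S_E8 := bE8 zR1 zGQB zD1 yD3
theorem zCj : S_Cj := bCj zR1 zGQB zD1 yD3
theorem zE9 : S_E9 := bE9 zR1 zGQB zD1 yD3
theorem zPsK : S_PsK := bPsK zR1 zGQB zD1 yD3
theorem zE10 : S_E10 := bE10 zR1 zGQB zD1 yD3 zD8

end Pool.Agent.DS
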