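import Pool.Agent.Lib.DS.Iface

/-!
# All imaginary quadratic fields, part E: inertia and the torsion prime to `Q`, elements which are `1` modulo a number `p ≥ 3` (author helper9)

`Q` is ANY prime which does not contain `p`. The coordinate is normalised by the points `1/p`, `w/p` of the curve `ℂ / O`:
`y(z) = (X(z) - X(1/p))/(X(w/p) - X(1/p))`.
-/

set_option autoImplicit false

open scoped Pointwise nonZeroDivisors

noncomputable section

namespace Pool.Agent.DS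

open Pool.Agent.MuZ Pool.Agent.FW Pool.Agent.DN NumberField IsDedekindDomain
open Pool.Agent.DI (io ofC io_inj exists_io io_ofC ofC_io VP MP UP TP ex)

variable {n t : ℕ}

/-- **Inertia, elements `1` modulo `p`.** -/
def S_E4l : Prop :=
  ∀ (n t : ℕ) [SqN n t] (p : ℕ), 2 ≤ p → ∀ Q : Ideal ZZ, Npr Q → (p : ZZ) ∉ Q →
    ∀ τ ∈ Q.inertia Gal(Om/ℚ), ∀ (v : OO n t) (δ : Ideal (OO n t)) (N : ℕ), 0 < N → 15 ∣ N → p ∣ N →
      δ ≠ ⊥ → sp (N : OO n t) ≤ δ → ¬ Abv Q δ → (p : OO n t) ∣ v - 1 → Psi τ N (sp v) →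
      v - 1 ∈ δ ∨ v + 1 ∈ δ

namespace E4lAux

theorem g15_top : G15 (⊤ : Ideal (OO n t)) := ⟨top_ne_bot, top_sup_eq _⟩

/-- A point of order prime to `Q` which is `Q`-primary is in the lattice. -/
theorem qp_lam [SqN n t] {Q : Ideal ZZ} {δ : Ideal (OO n t)} (hδ : ¬ Abv Q δ) {z : ℂ}
    (hz : z ∈ Lam (δ * (⊤ : Ideal (OO n t)))) (h : Qp Q (⊤ : Ideal (OO n t)) z) :
    z ∈ Lam (⊤ : Ideal (OO n t)) := by
  unfold Abv at hδ
  push Not at hδ
  obtain ⟨α, hα, hM⟩ := hδ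
  have h1 := h α 1 hM (by rw [mul_one]; exact lam_prod.1 hz α hα)
  rwa [toC_one, one_mul] at h1

theorem not_abv_mul [SqN n t] {Q : Ideal ZZ} (hQ : Q.IsPrime) {δ : Ideal (OO n t)} (hδ : ¬ Abv Q δ)
    {p : ℕ} (hp : (p : ZZ) ∉ Q) : ¬ Abv Q (δ * sp ((p : ℕ) : OO n t)) := by
  unfold Abv at hδ
  push Not at hδ
  obtain ⟨α, hα, hM⟩ := hδ
  intro h
  have h1 := h (α * ((p : ℕ) : OO n t)) (Ideal.mul_mem_mul hα (Ideal.mem_span_singleton_self _))
  rw [toO_mul, toO_nat] at h1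
  rcases DI.MP.mul_cases (toO_VP α) (DI.VP.nat p) h1 with h2 | h2
  · exact hM h2
  · exact hp ((DI.MP.nat_iff p).1 h2)

/-- Coordinates with good reduction at `Q`. -/
theorem red [SqN n t] (b1 : S_B1) (r1 : S_R1) (gq : S_GQ) (d1 : S_D1) (lg : S_Leg) {Q : Ideal ZZ}
    (hQ : Npr Q) {δ : Ideal (OO n t)} (hδ0 : δ ≠ ⊥) (hδ : ¬ Abv Q δ) :
    ∃ (F : ℂ → Om) (c0 c1 : Om), c1 ≠ 0 ∧
      (∀ z : ℂ, Tor n t z → F z = (xO (⊤ : Ideal (OO n t)) z - c0) / c1) ∧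
      ∀ z z' : ℂ, z ∈ Lam (δ * (⊤ : Ideal (OO n t))) → z' ∈ Lam (δ * (⊤ : Ideal (OO n t))) →
        z ∉ Lam (⊤ : Ideal (OO n t)) → z' ∉ Lam (⊤ : Ideal (OO n t)) → VP Q (F z) ∧
        (MP Q (F z - F z') → z - z' ∈ Lam (⊤ : Ideal (OO n t)) ∨ z + z' ∈ Lam (⊤ : Ideal (OO n t))) := by
  have hQp : Q.IsPrime := hQ.1
  have hδT : δ * (⊤ : Ideal (OO n t)) ≠ ⊥ := by rwa [Ideal.mul_top]
  by_cases h2 : MP Q 2
  · -- the model `X`
    have h15 : ¬ MP Q 15 := by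
      intro h
      have h3 := h.sub (DI.MP.mul_left (DI.VP.nat (P := Q) 7) h2)
      have e : (15 : Om) - ((7 : ℕ) : Om) * 2 = 1 := by norm_num
      rw [e] at h3
      exact DI.MP.one_not h3
    have hG := gq n t Q hQ h15
    obtain ⟨-, -, -, -, d5, -, d7⟩ := d1 n t Q hG ⊤ g15_top
    refine ⟨fun z => xO (⊤ : Ideal (OO n t)) z, 0, 1, one_ne_zero,
      fun z _ => by rw [sub_zero, div_one], fun z z' hz hz' hzn hzn' => ?_⟩
    have hk : ∀ y : ℂ, y ∈ Lam (δ * (⊤ : Ideal (OO n t))) → IK Q (⊤ : Ideal (OO n t)) y →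
        y ∈ Lam (⊤ : Ideal (OO n t)) := fun y hy h => qp_lam hδ hy (d5 y h)
    have hv : ∀ y : ℂ, y ∈ Lam (δ * (⊤ : Ideal (OO n t))) → y ∉ Lam (⊤ : Ideal (OO n t)) →
        ¬ IK Q (⊤ : Ideal (OO n t)) y := fun y hy hyn h => hyn (hk y hy h)
    have ht : ∀ y : ℂ, y ∈ Lam (δ * (⊤ : Ideal (OO n t))) → Tor n t y := fun y hy => tor_lam hδT hy
    constructor
    · by_contra h
      exact hv z hz hzn ⟨ht z hz, Or.inr h⟩
    · intro hM
      rcases d7 z z' (ht z hz) (ht z' hz') (hv z hz hzn) (hv z' hz' hzn') hM with h | h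
      · exact Or.inr (hk _ (lam_add hz hz') h)
      · exact Or.inl (hk _ (lam_sub hz hz') h)
  · -- Legendre's coordinate
    have h2O : ∀ u : OO n t, toC u / 2 ∈ Lam (⊤ : Ideal (OO n t)) → (2 : OO n t) ∣ u := by
      intro u h
      obtain ⟨x, hx⟩ := lam_top.1 h
      refine ⟨x, toC_inj ?_⟩
      rw [toC_mul, toC_two, ← hx]
      ring
    have hn2 : ∀ u : OO n t, (2 : OO n t) ∣ u → (2 : ℤ) ∣ u.re ∧ (2 : ℤ) ∣ u.im := by
      intro u h
      have := (nat_dvd_iff (n := n) (t := t) 2 u).1 (by exact_mod_cast h)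
      exact_mod_cast this
    obtain ⟨T, hT⟩ : ∃ T : ℂ, T = toC (1 : OO n t) / 2 := ⟨_, rfl⟩
    obtain ⟨T', hT'⟩ : ∃ T' : ℂ, T' = toC (wI n t) / 2 := ⟨_, rfl⟩
    have a1 : 2 * T ∈ Lam (⊤ : Ideal (OO n t)) := lam_top.2 ⟨1, by rw [hT]; ring⟩
    have a2 : T ∉ Lam (⊤ : Ideal (OO n t)) := by
      intro h
      rw [hT] at h
      have h3 := (hn2 _ (h2O _ h)).1
      rw [re_one] at h3
      omega
    have a3 : 2 * T' ∈ Lam (⊤ : Ideal (OO n t)) := lam_top.2 ⟨wI n t, by rw [hT']; ring⟩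
    have a4 : T' ∉ Lam (⊤ : Ideal (OO n t)) := by
      intro h
      rw [hT'] at h
      have h3 := (hn2 _ (h2O _ h)).2
      change (2 : ℤ) ∣ 1 at h3
      omega
    have a5 : T - T' ∉ Lam (⊤ : Ideal (OO n t)) := by
      intro h
      rw [hT, hT', ← sub_div, ← toC_sub] at h
      have h3 := (hn2 _ (h2O _ h)).2
      rw [QuadraticAlgebra.im_sub, im_one] at h3
      change (2 : ℤ) ∣ 0 - 1 at h3
      omega
    have htT : Tor n t T := ⟨1, 2, two_pos, by rw [hT]; norm_num⟩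
    have htT' : Tor n t T' := ⟨wI n t, 2, two_pos, by rw [hT']; norm_num⟩
    have hfr : fr (⊤ : Ideal (OO n t)) ≠ 0 := ((b1 n t ⊤ top_ne_bot).2.2.2.2.2 g15_top.cop).1
    have hx : ∀ y : ℂ, Tor n t y → io (xO (⊤ : Ideal (OO n t)) y) =
        (wpC (⊤ : Ideal (OO n t)) y - wpC (⊤ : Ideal (OO n t)) (1 / 3)) / fr (⊤ : Ideal (OO n t)) ^ 2 :=
      fun y hy => (((r1.1 n t).1 ⊤ g15_top).2.2.1 y hy).1
    have hle : ∀ z : ℂ, Tor n t z → leO (⊤ : Ideal (OO n t)) T T' z =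
        (xO (⊤ : Ideal (OO n t)) z - xO (⊤ : Ideal (OO n t)) T) / (xO (⊤ : Ideal (OO n t)) T' - xO (⊤ : Ideal (OO n t)) T) := by
      intro z hz
      have h : (wpC (⊤ : Ideal (OO n t)) z - wpC (⊤ : Ideal (OO n t)) T) / (wpC (⊤ : Ideal (OO n t)) T' - wpC (⊤ : Ideal (OO n t)) T) =
          io ((xO (⊤ : Ideal (OO n t)) z - xO (⊤ : Ideal (OO n t)) T) / (xO (⊤ : Ideal (OO n t)) T' - xO (⊤ : Ideal (OO n t)) T)) := by
        rw [map_div₀, map_sub, map_sub, hx z hz, hx T htT, hx T' htT', ← sub_div, ← sub_div,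
          div_div_div_cancel_right₀ (pow_ne_zero 2 hfr)]
        congr 1 <;> ring
      unfold leO
      rw [h, ofC_io]
    have hc1 : xO (⊤ : Ideal (OO n t)) T' - xO (⊤ : Ideal (OO n t)) T ≠ 0 := by
      intro h
      have h3 : wpC (⊤ : Ideal (OO n t)) T' = wpC (⊤ : Ideal (OO n t)) T := by
        have h4 := congrArg io h
        rw [map_sub, map_zero, hx T htT, hx T' htT', ← sub_div, div_eq_zero_iff] at h4
        rcases h4 with h4 | h4
        · linear_combination h4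
        · exact absurd h4 (pow_ne_zero 2 hfr)
      rcases ((b1 n t ⊤ top_ne_bot).2.2.2.1 T' T a4 a2).1 h3 with h4 | h4
      · apply a5
        have := lam_neg h4
        rwa [neg_sub] at this
      · apply a5
        have := lam_sub a1 h4
        have e : 2 * T - (T' + T) = T - T' := by ring
        rwa [e] at this
    exact ⟨fun z => leO (⊤ : Ideal (OO n t)) T T' z, xO (⊤ : Ideal (OO n t)) T, xO (⊤ : Ideal (OO n t)) T' - xO (⊤ : Ideal (OO n t)) T, hc1, hle,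
      fun z z' hz hz' hzn hzn' => lg n t Q hQ h2 ⊤ top_ne_bot T T' a1 a2 a3 a4 a5 δ hδ0 hδ z z' hz hz'
        hzn hzn'⟩

end E4lAux

open E4lAux in
theorem sE4l (l3 : S_L3) (b1 : S_B1) (b7 : S_B7) (r1 : S_R1) (gq : S_GQ) (d1 : S_D1) (lg : S_Leg) :
    S_E4l := by
  intro n t _ p hp Q hQ hpQ τ hi v δ N hN h15 hpN hδ hle hA hv hΨ
  have hQp : Q.IsPrime := hQ.1
  by_cases htop : δ = ⊤
  · left
    rw [htop]
    trivial
  have hp0 : 0 < p := by omega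
  have hpC : (p : ℂ) ≠ 0 := by exact_mod_cast hp0.ne'
  have hv0 : v ≠ 0 := by
    intro h
    apply hΨ.ne
    rw [h]
    exact Ideal.span_singleton_eq_bot.2 rfl
  have hvC : toC v ≠ 0 := toC_ne hv0
  -- the ideal `δ p`
  have hpp0 : sp ((p : ℕ) : OO n t) ≠ ⊥ := by
    intro h
    have h5 : ((p : ℕ) : OO n t) = 0 := Ideal.span_singleton_eq_bot.1 h
    have h6 := congrArg Nm h5
    rw [Nm_nat, Nm_zero] at h6
    have h7 : ((p : ℕ) : ℤ) = 0 := pow_eq_zero_iff (two_ne_zero) |>.1 h6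
    omega
  have hδp0 : δ * sp ((p : ℕ) : OO n t) ≠ ⊥ := mul_ne_zero hδ hpp0
  obtain ⟨F, c0, c1, hc1, hF, hred⟩ := red b1 r1 gq d1 lg hQ hδp0 (not_abv_mul hQp hA hpQ)
  -- the marked points
  have hpO : ∀ u : OO n t, toC u / p ∈ Lam (⊤ : Ideal (OO n t)) → (p : ℤ) ∣ u.re ∧ (p : ℤ) ∣ u.im := by
    intro u h
    obtain ⟨x, hx⟩ := lam_top.1 h
    refine (nat_dvd_iff p u).1 ⟨x, toC_inj ?_⟩
    rw [toC_mul, toC_nat, ← hx]
    field_simp
  have hnd1 : ¬ (p : ℤ) ∣ 1 := by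
    intro h
    have := Int.le_of_dvd one_pos h
    omega
  have hnd1' : ¬ (p : ℤ) ∣ -1 := fun h => hnd1 ((dvd_neg).1 h)
  obtain ⟨P1, hP1⟩ : ∃ P1 : ℂ, P1 = toC (1 : OO n t) / p := ⟨_, rfl⟩
  obtain ⟨P2, hP2⟩ : ∃ P2 : ℂ, P2 = toC (wI n t) / p := ⟨_, rfl⟩
  have n1 : P1 ∉ Lam (⊤ : Ideal (OO n t)) := by
    intro h
    rw [hP1] at h
    have h3 := (hpO _ h).1
    rw [re_one] at h3
    exact hnd1 h3
  have n2 : P2 ∉ Lam (⊤ : Ideal (OO n t)) := by
    intro h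
    rw [hP2] at h
    exact hnd1 (hpO _ h).2
  have n3 : P2 - P1 ∉ Lam (⊤ : Ideal (OO n t)) := by
    intro h
    rw [hP1, hP2, ← sub_div, ← toC_sub] at h
    have h3 := (hpO _ h).2
    rw [QuadraticAlgebra.im_sub, im_one, sub_zero] at h3
    exact hnd1 h3
  have n4 : P2 + P1 ∉ Lam (⊤ : Ideal (OO n t)) := by
    intro h
    rw [hP1, hP2, ← add_div, ← toC_add] at h
    have h3 := (hpO _ h).2
    rw [QuadraticAlgebra.im_add, im_one, add_zero] at h3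
    exact hnd1 h3
  have hinδ : ∀ u : OO n t, toC u / p ∈ Lam (δ * sp ((p : ℕ) : OO n t) * (⊤ : Ideal (OO n t))) := by
    intro u
    rw [mul_assoc]
    refine lam_mono ?_
    rw [lam_sp, toC_nat]
    exact lam_top.2 ⟨u, by field_simp⟩
  have m1 : P1 ∈ Lam (δ * sp ((p : ℕ) : OO n t) * (⊤ : Ideal (OO n t))) := by
    rw [hP1]
    exact hinδ _
  have m2 : P2 ∈ Lam (δ * sp ((p : ℕ) : OO n t) * (⊤ : Ideal (OO n t))) := by
    rw [hP2]
    exact hinδ _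
  obtain ⟨q, hq⟩ := hpN
  have hNp : ∀ u : OO n t, (N : ℂ) * (toC u / p) ∈ Lam (⊤ : Ideal (OO n t)) := by
    intro u
    refine lam_top.2 ⟨((q : ℕ) : OO n t) * u, ?_⟩
    rw [toC_mul, toC_nat, hq]
    push_cast
    field_simp
  have hN1 : (N : ℂ) * P1 ∈ Lam (⊤ : Ideal (OO n t)) := by
    rw [hP1]
    exact hNp _
  have hN2 : (N : ℂ) * P2 ∈ Lam (⊤ : Ideal (OO n t)) := by
    rw [hP2]
    exact hNp _
  have hvp : ∀ u : OO n t, toC v * (toC u / p) - toC u / p ∈ Lam (⊤ : Ideal (OO n t)) := by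
    intro u
    obtain ⟨x, hx⟩ := hv
    refine lam_top.2 ⟨x * u, ?_⟩
    have e : toC v * (toC u / p) - toC u / p = toC ((v - 1) * u) / p := by
      rw [toC_mul, toC_sub, toC_one]
      ring
    rw [e, hx, toC_mul, toC_mul, toC_nat, toC_mul]
    field_simp
  have hv1 : toC v * P1 - P1 ∈ Lam (⊤ : Ideal (OO n t)) := by
    rw [hP1]
    exact hvp _
  have hv2 : toC v * P2 - P2 ∈ Lam (⊤ : Ideal (OO n t)) := by
    rw [hP2]
    exact hvp _
  have t1 : Tor n t P1 := ⟨1, p, hp0, hP1⟩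
  have t2 : Tor n t P2 := ⟨wI n t, p, hp0, hP2⟩
  -- the generator of `Lam δ`
  obtain ⟨⟨g, hg, hg'⟩, hgen, -⟩ := l3 n t δ ⊤ hδ top_ne_bot
  obtain ⟨hann, -⟩ := hgen g hg hg'
  have hvδ : v ∉ δ := by
    intro hvδ
    apply htop
    have hpr : PrI (sp v) N := by
      have h1 := hΨ.cop
      unfold PrI at *
      rw [eq_top_iff, ← h1]
      refine sup_le_sup_left ?_ _
      exact Ideal.span_singleton_le_span_singleton.2 (Nat.cast_dvd_cast (Dvd.intro_left _ rfl))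
    rw [eq_top_iff, ← (show sp v ⊔ Ideal.span {(N : OO n t)} = ⊤ from hpr)]
    exact sup_le ((Ideal.span_singleton_le_iff_mem _).2 hvδ) hle
  have h1δ : (1 : OO n t) ∉ δ := fun h => htop ((Ideal.eq_top_iff_one _).2 h)
  have hg0 : g ∉ Lam (⊤ : Ideal (OO n t)) := by
    intro h
    apply h1δ
    rw [← hann, toC_one, one_mul]
    exact h
  have hvg : toC v * g ∉ Lam (⊤ : Ideal (OO n t)) := fun h => hvδ ((hann v).1 h)
  have hgd : g ∈ Lam (δ * sp ((p : ℕ) : OO n t) * (⊤ : Ideal (OO n t))) := by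
    have e : δ * sp ((p : ℕ) : OO n t) * (⊤ : Ideal (OO n t)) =
        sp ((p : ℕ) : OO n t) * (δ * (⊤ : Ideal (OO n t))) := by
      rw [mul_comm δ, mul_assoc]
    rw [e]
    exact lam_mono hg
  have hvgd := lam_mul v hgd
  have hNg : (N : ℂ) * g ∈ Lam (⊤ : Ideal (OO n t)) := by
    have h := lam_prod.1 hg (N : OO n t) (hle (Ideal.mem_span_singleton_self _))
    rwa [toC_nat] at h
  have hδT : δ * (⊤ : Ideal (OO n t)) ≠ ⊥ := by rwa [Ideal.mul_top]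
  have tg : Tor n t g := tor_lam hδT hg
  have tvg : Tor n t (toC v * g) := tor_mul v tg
  -- the normalised coordinate
  obtain ⟨y, hy⟩ : ∃ y : ℂ → Om, y = fun z => (F z - F P1) / (F P2 - F P1) := ⟨_, rfl⟩
  have hyx : ∀ z : ℂ, Tor n t z → y z = (xO (⊤ : Ideal (OO n t)) z - xO (⊤ : Ideal (OO n t)) P1) / (xO (⊤ : Ideal (OO n t)) P2 - xO (⊤ : Ideal (OO n t)) P1) := by
    intro z hz
    rw [hy]
    change (F z - F P1) / (F P2 - F P1) = _
    rw [hF z hz, hF P1 t1, hF P2 t2, ← sub_div, ← sub_div, div_div_div_cancel_right₀ hc1]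
    congr 1 <;> ring
  have hU : UP Q (F P2 - F P1) := by
    refine ⟨(hred P2 P2 m2 m2 n2 n2).1.sub (hred P1 P1 m1 m1 n1 n1).1, fun h => ?_⟩
    rcases (hred P2 P1 m2 m1 n2 n1).2 h with h | h
    · exact n3 h
    · exact n4 h
  have hyV : VP Q (y g) := by
    rw [hy]
    change VP Q ((F g - F P1) / (F P2 - F P1))
    rw [div_eq_mul_inv]
    exact ((hred g g hgd hgd hg0 hg0).1.sub (hred P1 P1 m1 m1 n1 n1).1).mul (DI.VP.inv hU.1 hU.2)
  obtain ⟨hper, -, -, -, -, -⟩ := b1 n t ⊤ top_ne_bot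
  have hwp : ∀ z z' : ℂ, z - z' ∈ Lam (⊤ : Ideal (OO n t)) → wpC (⊤ : Ideal (OO n t)) z = wpC (⊤ : Ideal (OO n t)) z' := by
    intro z z' h
    have h' := (hper z' (z - z') h).1
    rwa [add_sub_cancel] at h'
  -- the Galois action
  have hfr : fr (⊤ : Ideal (OO n t)) ≠ 0 := ((b1 n t ⊤ top_ne_bot).2.2.2.2.2 g15_top.cop).1
  have hc : G15 (sp v * (⊤ : Ideal (OO n t))) := by
    refine ⟨by rw [Ideal.mul_top]; exact hΨ.ne, ?_⟩
    have h1 := hΨ.cop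
    rw [Ideal.mul_top]
    unfold PrI at *
    rw [eq_top_iff, ← h1]
    refine sup_le_sup_left ?_ _
    exact Ideal.span_singleton_le_span_singleton.2 (Nat.cast_dvd_cast (Dvd.intro _ rfl))
  have hfrv : fr (sp v * (⊤ : Ideal (OO n t))) ≠ 0 := ((b1 n t _ hc.ne).2.2.2.2.2 hc.cop).1
  have hx : ∀ {b : Ideal (OO n t)}, G15 b → ∀ z : ℂ, Tor n t z → io (xO b z) =
      (wpC b z - wpC b (1 / 3)) / fr b ^ 2 :=
    fun hb z hz => (((r1.1 n t).1 _ hb).2.2.1 z hz).1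
  have h7 : ∀ z : ℂ, wpC (sp v * (⊤ : Ideal (OO n t))) z = toC v ^ 2 * wpC (⊤ : Ideal (OO n t)) (toC v * z) := fun z =>
    (((b7 n t ⊤ top_ne_bot).1 v hv0).1 z).1
  have hga : τ (y g) = y (toC v * g) := by
    rw [hyx g tg, hyx _ tvg, map_div₀, map_sub, map_sub, hΨ.xx ⊤ top_ne_bot g15_top.cop g hNg,
      hΨ.xx ⊤ top_ne_bot g15_top.cop P1 hN1, hΨ.xx ⊤ top_ne_bot g15_top.cop P2 hN2]
    apply io_inj
    rw [map_div₀, map_sub, map_sub, map_div₀, map_sub, map_sub, hx hc g tg, hx hc P1 t1, hx hc P2 t2,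
      hx g15_top _ tvg, hx g15_top P1 t1, hx g15_top P2 t2, ← sub_div, ← sub_div, ← sub_div, ← sub_div,
      div_div_div_cancel_right₀ (pow_ne_zero 2 hfrv), div_div_div_cancel_right₀ (pow_ne_zero 2 hfr),
      h7 g, h7 P1, h7 P2, hwp _ _ hv1, hwp _ _ hv2]
    have hv2' : toC v ^ 2 ≠ 0 := pow_ne_zero 2 hvC
    have e1 : toC v ^ 2 * wpC (⊤ : Ideal (OO n t)) (toC v * g) - wpC (sp v * (⊤ : Ideal (OO n t))) (1 / 3) -
        (toC v ^ 2 * wpC (⊤ : Ideal (OO n t)) P1 - wpC (sp v * (⊤ : Ideal (OO n t))) (1 / 3)) =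
        toC v ^ 2 * (wpC (⊤ : Ideal (OO n t)) (toC v * g) - wpC (⊤ : Ideal (OO n t)) P1) := by ring
    have e2 : toC v ^ 2 * wpC (⊤ : Ideal (OO n t)) P2 - wpC (sp v * (⊤ : Ideal (OO n t))) (1 / 3) -
        (toC v ^ 2 * wpC (⊤ : Ideal (OO n t)) P1 - wpC (sp v * (⊤ : Ideal (OO n t))) (1 / 3)) =
        toC v ^ 2 * (wpC (⊤ : Ideal (OO n t)) P2 - wpC (⊤ : Ideal (OO n t)) P1) := by ring
    rw [e1, e2, mul_div_mul_left _ _ hv2']
    congr 1 <;> ring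
  -- the reduction
  have hm := VP.inertia hi hyV
  rw [hga] at hm
  have hm2 : MP Q (F (toC v * g) - F g) := by
    have h3 := DI.MP.mul_right hm hU.1
    have hU0 : F P2 - F P1 ≠ 0 := by
      intro h
      apply hU.2
      rw [h]
      exact DI.MP.zero
    have e : (y (toC v * g) - y g) * (F P2 - F P1) = F (toC v * g) - F g := by
      rw [hy]
      change ((F (toC v * g) - F P1) / (F P2 - F P1) - (F g - F P1) / (F P2 - F P1)) *
        (F P2 - F P1) = _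
      field_simp
      ring
    rwa [e] at h3
  rcases (hred (toC v * g) g hvgd hgd hvg hg0).2 hm2 with h | h
  · left
    rw [← hann, toC_sub, toC_one, sub_mul, one_mul]
    exact h
  · right
    rw [← hann, toC_add, toC_one, add_mul, one_mul]
    exact h

end Pool.Agent.DS
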