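import Pool.Agent.Lib.DS.Iface
import Pool.Agent.Lib.DN.E.SpecA

/-!
# The global theory for ALL imaginary quadratic fields (`SqN n t`): part E, first half, statements (author helper39)

The statements of `DN/E/SpecA.lean` with `[SqN n t]` in place of `[Ine n t]`; inertia above `2` for SUPERSINGULAR reduction
(structure `SS n t P`): `S_E4a`. Proofs: as in `DN/E/SpecA.lean`.
-/

set_option autoImplicit false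

open scoped Pointwise nonZeroDivisors

noncomputable section

namespace Pool.Agent.DS

open Pool.Agent.MuZ Pool.Agent.FW NumberField IsDedekindDomain Pool.Agent.DN
open Pool.Agent.DI (io ofC io_inj exists_io io_ofC ofC_io VP MP UP TP ex)

/-! ## Auxiliary primes -/

/-- AUXILIARY PRIMES (as in `DN/E/SpecA.lean`; `i ∈ K` iff `(n, t) = (1, 0)`, `ρ ∈ K` iff `(n, t) = (1, 1)`). -/
def S_Aux : Prop :=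
  ∀ (n t : ℕ) [SqN n t] (M : ℕ), 0 < M →
    (¬ (n = 1 ∧ t = 0) → ∃ (q : Ideal (OO n t)) (l : ℕ), Deg1 q l ∧ l.Coprime M ∧ l % 4 = 3) ∧
    (¬ (n = 1 ∧ t = 1) → ∃ (q : Ideal (OO n t)) (l : ℕ), Deg1 q l ∧ l.Coprime M ∧ l % 3 = 2)

/-! ## Supersingular reduction at a prime above `2` -/

/-- SUPERSINGULAR REDUCTION of the model `X` at the prime `P` above `2`. -/
structure SS (n t : ℕ) (P : Ideal ZZ) : Prop where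
  ab : Ab2 P
  gq : GQ n t P
  a1 : ∀ b : Ideal (OO n t), G15 b → MP P (a1O b)
  vo : ∀ b : Ideal (OO n t), G15 b → ∀ z : ℂ, Tor n t z → ¬ IK P b z → MP P (vO b z - a3O b)
  ro : ∀ b : Ideal (OO n t), G15 b → ∀ a : Ideal (OO n t), a ≠ ⊥ → PrI a 2 → PrI a 15 →
    UP P (rO b (a * b))

/-- BASIC FACTS on affine maps (`DN.AfM`). -/
def S_Afi : Prop :=
  ∀ (n t : ℕ) [SqN n t] (P : Ideal ZZ), SS n t P → ∀ N : ℕ, Odd N → 3 ≤ N →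
    (∀ z : ℂ, (N : ℂ) * z ∈ Lam (⊤ : Ideal (OO n t)) → z ∉ Lam (⊤ : Ideal (OO n t)) →
      Tor n t z ∧ ¬ IK P (⊤ : Ideal (OO n t)) z ∧ VP P (xO (⊤ : Ideal (OO n t)) z)) ∧
    (∀ z z' : ℂ, (N : ℂ) * z ∈ Lam (⊤ : Ideal (OO n t)) → z ∉ Lam (⊤ : Ideal (OO n t)) →
      (N : ℂ) * z' ∈ Lam (⊤ : Ideal (OO n t)) → z' ∉ Lam (⊤ : Ideal (OO n t)) →
      MP P (xO (⊤ : Ideal (OO n t)) z - xO (⊤ : Ideal (OO n t)) z') →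
      z - z' ∈ Lam (⊤ : Ideal (OO n t)) ∨ z + z' ∈ Lam (⊤ : Ideal (OO n t))) ∧
    (∀ (γ : OO n t) (z : ℂ), Cop γ N → (N : ℂ) * z ∈ Lam (⊤ : Ideal (OO n t)) →
      z ∉ Lam (⊤ : Ideal (OO n t)) → (N : ℂ) * (toC γ * z) ∈ Lam (⊤ : Ideal (OO n t)) ∧
        toC γ * z ∉ Lam (⊤ : Ideal (OO n t))) ∧
    (∀ (γ γ' : OO n t) (al al' r r' : Om), AfM P N γ al r → AfM P N γ' al' r' →
      AfM P N (γ * γ') (al * al') (al * r' + r)) ∧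
    ∀ (γ : OO n t) (al r : Om), AfM P N γ al r → MP P (al - 1) → MP P r →
      (N : OO n t) ∣ γ - 1 ∨ (N : OO n t) ∣ γ + 1

/-- A FIXED POINT. -/
def S_Afx : Prop :=
  ∀ (n t : ℕ) [SqN n t] (P : Ideal ZZ), SS n t P → ∀ N : ℕ, Odd N → 3 ≤ N →
    ∀ (γ : OO n t) (al r : Om), AfM P N γ al r →
      (∀ z₀ : ℂ, (N : ℂ) * z₀ ∈ Lam (⊤ : Ideal (OO n t)) → z₀ ∉ Lam (⊤ : Ideal (OO n t)) →
        2 * z₀ ∉ Lam (⊤ : Ideal (OO n t)) → 3 * z₀ ∉ Lam (⊤ : Ideal (OO n t)) →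
        (toC γ * z₀ - z₀ ∈ Lam (⊤ : Ideal (OO n t)) ∨ toC γ * z₀ + z₀ ∈ Lam (⊤ : Ideal (OO n t))) →
        (N : OO n t) ∣ γ - 1 ∨ (N : OO n t) ∣ γ + 1) ∧
      ∀ (q : Ideal (OO n t)) (l : ℕ), Deg1 q l → l ∣ N → l.Coprime 30 → (γ - 1 ∈ q ∨ γ + 1 ∈ q) →
        (N : OO n t) ∣ γ - 1 ∨ (N : OO n t) ∣ γ + 1

/-- AUTOMORPHISMS OF THE SUPERSINGULAR CURVE. -/
def S_Af3 : Prop :=
  ∀ (n t : ℕ) [SqN n t] (P : Ideal ZZ), SS n t P → ∀ N : ℕ, Odd N → 15 ∣ N →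
    ∀ (γ : OO n t) (al r : Om), AfM P N γ al r → MP P (al ^ 3 - 1) ∧
      (MP P (al - 1) → (N : OO n t) ∣ γ ^ 2 - 1 ∨ (N : OO n t) ∣ γ ^ 2 + 1) ∧
      (¬ MP P (al - 1) → MP P (al ^ 2 + al + 1) ∧
        ((N : OO n t) ∣ γ ^ 3 - 1 ∨ (N : OO n t) ∣ γ ^ 3 + 1))

/-- THE AFFINE MAPS. -/
def S_Aff : Prop :=
  (∀ (n t : ℕ) [SqN n t] (P : Ideal ZZ), SS n t P → ∀ τ ∈ P.inertia Gal(Om/ℚ), ∀ (N : ℕ) (γ : OO n t),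
    Odd N → 15 ∣ N → γ ≠ 0 → Cop γ 2 → Psi τ N (sp γ) → ∃ al r : Om, AfM P N γ al r) ∧
  ∀ (t : ℕ) [SqN 1 t] (P : Ideal ZZ), SS 1 t P → ∀ N : ℕ, Odd N → 15 ∣ N →
    ∃ r : Om, AfM P N (wI 1 t) ((toO (wI 1 t) ^ 2)⁻¹) r

/-- PRINCIPAL CLASSES, `n ≠ 1`. -/
def S_Pri : Prop :=
  ∀ (n t : ℕ) [SqN n t], n ≠ 1 → ∀ P : Ideal ZZ, SS n t P → ∀ τ ∈ GK n t, τ ∈ P.inertia Gal(Om/ℚ) →
    ∀ (N : ℕ) (a : Ideal (OO n t)), Odd N → 15 ∣ N → Psi τ N a → Prc a → Ray N a (⊤ : Ideal (OO n t))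

/-- `ℤ[i]` IS A PRINCIPAL IDEAL DOMAIN. -/
def S_Gau : Prop := ∀ a : Ideal (OO 1 0), a ≠ ⊥ → Prc a

/-- THE CASE `K = ℚ(i)`. PROOF. `S_Aux` (2): `Deg1 q l`, `l` prime to `30 N`, `l % 3 = 2`. `N' = N l`, `Psi τ (2 N') a'`, `a' = sp γ`
(`S_Gau`), `Cop γ 2`, `AfM P N' γ al r` (`S_Aff`). If `¬ MP P (al - 1)`: `N' ∣ γ ^ 3 ∓ 1`, `γ ∓ 1 ∈ q` (`DN.S_Dq` (3)), `S_Afx` (2).
If `MP P (al - 1)`: `N' ∣ γ ^ 2 - 1` or `N' ∣ γ ^ 2 + 1`; let `i = wI 1 0`, `i ^ 2 = -1`. In the first case `γ ∓ 1 ∈ q`: `S_Afx` (2). In the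
second case `γ ^ 2 + 1 = (γ - i) (γ + i) ∈ q`, so `γ i - 1` or `γ i + 1 ∈ q`, and `γ i` has `AfM P N' (γ i) (- al) r''` (`S_Afi` (4), `S_Aff` (2)):
`N' ∣ γ i ∓ 1` (`S_Afx` (2)), `sp (γ * i) = sp γ`. -/
def S_Pr4 : Prop :=
  ∀ P : Ideal ZZ, SS 1 0 P → ∀ τ ∈ GK 1 0, τ ∈ P.inertia Gal(Om/ℚ) →
    ∀ (N : ℕ) (a : Ideal (OO 1 0)), Odd N → 15 ∣ N → Psi τ N a → Ray N a (⊤ : Ideal (OO 1 0))

/-- ONE STEP. -/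
def S_Gwp : Prop :=
  ∀ (n t : ℕ) [SqN n t], n ≠ 1 → ∀ P : Ideal ZZ, SS n t P → ∀ τ ∈ GK n t, τ ∈ P.inertia Gal(Om/ℚ) →
    ∀ (N : ℕ) (a : Ideal (OO n t)) (p : ℕ), Odd N → 15 ∣ N → Psi τ N a → p.Prime → Prc (a ^ p) → Prc a

/-- THE CLASS OF `a` IS TRIVIAL. -/
def S_Gw : Prop :=
  ∀ (n t : ℕ) [SqN n t], n ≠ 1 → ∀ P : Ideal ZZ, SS n t P → ∀ τ ∈ GK n t, τ ∈ P.inertia Gal(Om/ℚ) →
    ∀ (N : ℕ) (a : Ideal (OO n t)), Odd N → 15 ∣ N → Psi τ N a → Prc a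

/-- **Inertia above `2`, supersingular reduction.** -/
def S_E4a : Prop :=
  ∀ (n t : ℕ) [SqN n t] (P : Ideal ZZ), SS n t P → ∀ τ ∈ GK n t, τ ∈ P.inertia Gal(Om/ℚ) →
    ∀ N : ℕ, Odd N → 15 ∣ N → Psi τ N (⊤ : Ideal (OO n t))

/-! ## `S_E10` -/

/-- THE FUNCTION `vO`. -/
def S_E10v : Prop :=
  (∀ (n t : ℕ) [SqN n t] (b : Ideal (OO n t)), G15 b → ∀ z : ℂ, Tor n t z →
    (z ∈ Lam b → vO b z = 0) ∧ (z - 1 / 3 ∈ Lam b → vO b z = a3O b) ∧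
    (z + 1 / 3 ∈ Lam b → vO b z = -a3O b) ∧
    (z ∉ Lam b → z - 1 / 3 ∉ Lam b → z + 1 / 3 ∉ Lam b →
      vO b z * a3O b = -((xO b (z + 1 / 3) - xO b (z - 1 / 3)) * xO b z ^ 2))) ∧
  ∀ (n t : ℕ) [SqN n t] (τ : Gal(Om/ℚ)) (N : ℕ) (a : Ideal (OO n t)), 0 < N → 15 ∣ N → Psi τ N a →
    ∀ b : Ideal (OO n t), G15 b → ∀ z : ℂ, (N : ℂ) * z ∈ Lam b → τ (vO b z) = vO (a * b) z

/-- THE QUOTIENT OF THE FRAMINGS, LARGE LEVEL. -/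
def S_Ero : Prop :=
  (∀ (n t : ℕ) [SqN n t] (b c : Ideal (OO n t)), G15 b → G15 c → ∀ R : Finset ℂ, IsSys c b R →
    rO b (c * b) * ∑ u ∈ R, (xO b (1 / 5 + u) - xO b (1 / 3 + u)) = ∑ u ∈ R, vO b (1 / 3 + u) ∧
      ∑ u ∈ R, (xO b (1 / 5 + u) - xO b (1 / 3 + u)) ≠ 0) ∧
  ∀ (n t : ℕ) [SqN n t] (τ : Gal(Om/ℚ)) (N : ℕ) (a : Ideal (OO n t)), 0 < N → 15 ∣ N → Psi τ N a →
    ∀ b c : Ideal (OO n t), G15 b → G15 c → NI c ∣ N → τ (rO b (c * b)) = rO (a * b) (a * (c * b))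

/-- THE QUOTIENT OF THE FRAMINGS. -/
def S_E10r : Prop :=
  ∀ (n t : ℕ) [SqN n t] (τ : Gal(Om/ℚ)) (N : ℕ) (a : Ideal (OO n t)), 0 < N → 15 ∣ N → Psi τ N a →
    ∀ b c : Ideal (OO n t), G15 b → G15 c → τ (rO b c) = rO (a * b) (a * c)

/-- THE FUNCTION `gO`. -/
def S_E10g : Prop :=
  (∀ (n t : ℕ) [SqN n t] (m b : Ideal (OO n t)), m ≠ ⊥ → G15 b → PrI m 2 → PrI m 15 →
    ∀ z : ℂ, Tor n t z → z ∉ Lam (m * b) →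
      gO m b z = ∑ u ∈ hs m b, vO b z * (xO b z - xO b u)⁻¹) ∧
  ∀ (n t : ℕ) [SqN n t] (τ : Gal(Om/ℚ)) (N : ℕ) (a : Ideal (OO n t)), 0 < N → 15 ∣ N → Psi τ N a →
    ∀ m b : Ideal (OO n t), m ≠ ⊥ → G15 b → PrI m 2 → PrI m 15 → NI m ∣ N →
      ∀ z : ℂ, (N : ℂ) * z ∈ Lam b → z ∉ Lam (m * b) → τ (gO m b z) = gO m (a * b) z

/-- `Theta`. -/
def S_E10T : Prop :=
  ∀ (n t : ℕ) [SqN n t] (τ : Gal(Om/ℚ)) (N : ℕ) (a : Ideal (OO n t)), 0 < N → 15 ∣ N → Psi τ N a →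
    ∀ m b : Ideal (OO n t), m ≠ ⊥ → G15 b → PrI m 2 → PrI m 15 → NI m ∣ N →
      ∀ z : ℂ, (N : ℂ) * z ∈ Lam b → τ (Theta m b z) = Theta m (a * b) z

/-- **`S_E10`** (complete). -/
theorem sE10 (h1 : S_E10v) (h2 : S_E10r) (h3 : S_E10g) (h4 : S_E10T) : S_E10 := by
  intro n t _ τ N a hN h15 h
  refine ⟨fun b hb => ⟨fun z hz => h1.2 n t τ N a hN h15 h b hb z hz,
    fun c hc => h2 n t τ N a hN h15 h b c hb hc⟩, fun m b hm hb h2' h15' hmN z hz => ⟨fun hz' => ?_, ?_⟩⟩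
  · exact h3.2 n t τ N a hN h15 h m b hm hb h2' h15' hmN z hz hz'
  · exact h4 n t τ N a hN h15 h m b hm hb h2' h15' hmN z hz

end Pool.Agent.DS
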