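import Pool.Agent.Lib.DS.E.SpecB

/-!
# Global theory (all imaginary quadratic fields), part E: complex conjugation (module `Cj`, adapted from `DK/E/Cj.lean`)
-/

set_option autoImplicit false

open scoped Pointwise nonZeroDivisors

noncomputable section

namespace Pool.Agent.DS.Eb

open Pool.Agent.MuZ Pool.Agent.FW NumberField IsDedekindDomain Pool.Agent.DN Pool.Agent.DN.Eb
open Pool.Agent.DI (io ofC io_inj exists_io io_ofC ofC_io VP MP UP TP ex sqr sqr_sq kap)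

variable {n t : ℕ}

section cj

variable {c : Gal(Om/ℚ)} (hc : ∀ x : Om, io (c x) = (starRingEnd ℂ) (io x))

include hc

private lemma Cj_cc (x : Om) : c (c x) = x := by
  apply io_inj
  rw [hc, hc, Complex.conj_conj]

private lemma Cj_inv : c⁻¹ = c := by
  have h : c * c = 1 := AlgEquiv.ext fun x => Cj_cc hc x
  exact inv_eq_of_mul_eq_one_left h

private lemma Cj_w (n t : ℕ) [SqN n t] : c (wO n t) = t - wO n t := by
  apply io_inj
  rw [hc, io_wO, conj_wC, map_sub, map_natCast, io_wO]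

private lemma Cj_GK [SqN n t] {τ : Gal(Om/ℚ)} (hτ : τ ∈ GK n t) : c * τ * c⁻¹ ∈ GK n t := by
  rw [mem_GK_iff, Cj_inv hc, AlgEquiv.mul_apply, AlgEquiv.mul_apply, Cj_w hc n t, map_sub,
    map_natCast, mem_GK_iff.1 hτ, map_sub, map_natCast, Cj_w hc n t, sub_sub_cancel]

private lemma Cj_or (n t : ℕ) [SqN n t] (g : Gal(Om/ℚ)) : g ∈ GK n t ∨ c * g ∈ GK n t := by
  have h1 : (g (wO n t)) ^ 2 = t * g (wO n t) - n := by
    rw [← map_pow, wO_sq, map_sub, map_mul, map_natCast, map_natCast]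
  have h2 : (g (wO n t) - wO n t) * (g (wO n t) - (t - wO n t)) = 0 := by
    linear_combination h1 - wO_sq (n := n) (t := t)
  rcases mul_eq_zero.1 h2 with h | h
  · left
    rw [mem_GK_iff]
    exact sub_eq_zero.1 h
  · right
    rw [mem_GK_iff, AlgEquiv.mul_apply, sub_eq_zero.1 h, map_sub, map_natCast, Cj_w hc n t,
      sub_sub_cancel]

private lemma Cj_psi [SqN n t] (hL2 : S_L2) (hO3 : S_O3)
    (hcc : ∀ b : Ideal (OO n t), G15 b →
      c (a1O b) = a1O (cjI b) ∧ c (a3O b) = a3O (cjI b) ∧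
      ∀ z : ℂ, Tor n t z → c (xO b z) = xO (cjI b) ((starRingEnd ℂ) z))
    {τ : Gal(Om/ℚ)} {N : ℕ} (hN : 0 < N) {a : Ideal (OO n t)} (ha : Psi τ N a) :
    Psi (c * τ * c⁻¹) N (cjI a) := by
  obtain ⟨-, o2, o3, -, o5, -⟩ := hO3 n t
  have hg : ∀ b : Ideal (OO n t), G15 b → G15 (cjI b) := fun b hb =>
    ⟨ne_cj hO3 hb.ne, (o5 b 15).2 hb.cop⟩
  have happ : ∀ x : Om, (c * τ * c⁻¹) x = c (τ (c x)) := by
    intro x
    rw [Cj_inv hc, AlgEquiv.mul_apply, AlgEquiv.mul_apply]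
  have hcj : ∀ b : Ideal (OO n t), cjI (a * cjI b) = cjI a * b := by
    intro b
    rw [o2, (o3 b).1]
  refine ⟨ne_cj hO3 ha.ne, (o5 a _).2 ha.cop, fun b hb h15 => ?_, fun b hb h15 => ?_,
    fun b hb h15 z hz => ?_⟩
  · have hb' := hg b ⟨hb, h15⟩
    rw [happ, (hcc b ⟨hb, h15⟩).1, ha.a1 _ hb'.ne hb'.cop,
      (hcc _ (g15_mul (psi_g15 ha) hb')).1, hcj]
  · have hb' := hg b ⟨hb, h15⟩
    rw [happ, (hcc b ⟨hb, h15⟩).2.1, ha.a3 _ hb'.ne hb'.cop,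
      (hcc _ (g15_mul (psi_g15 ha) hb')).2.1, hcj]
  · have hb' := hg b ⟨hb, h15⟩
    set z' : ℂ := (starRingEnd ℂ) z with hz'
    have hzz : (starRingEnd ℂ) z' = z := Complex.conj_conj z
    obtain ⟨-, -, -, -, -, -, l7, l8⟩ := hL2 n t
    have h2 : (N : ℂ) * z' ∈ Lam (cjI b) := by
      rw [l7 b _ hb, map_mul, map_natCast, hzz]
      exact hz
    have t1 : Tor n t z := (l8 b z hb).2 ⟨N, hN, hz⟩
    have t2 : Tor n t z' := (l8 (cjI b) z' hb'.ne).2 ⟨N, hN, h2⟩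
    rw [happ, (hcc b ⟨hb, h15⟩).2.2 z t1, ← hz', ha.xx _ hb'.ne hb'.cop z' h2,
      (hcc _ (g15_mul (psi_g15 ha) hb')).2.2 z' t2, hzz, hcj]

private lemma Cj_fix [SqN n t] {N : ℕ} {H : Ideal (OO n t) → Prop}
    (hpsi : ∀ (τ : Gal(Om/ℚ)) (a : Ideal (OO n t)), Psi τ N a → Psi (c * τ * c⁻¹) N (cjI a))
    (hH : ∀ a, H a → H (cjI a)) {x : Om} (hx : x ∈ FixI N H) : c x ∈ FixI N H := by
  intro τ hτ a ha h
  have h1 := hx _ (Cj_GK hc hτ) _ (hpsi τ a ha) (hH a h)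
  rw [Cj_inv hc, AlgEquiv.mul_apply, AlgEquiv.mul_apply] at h1
  have h2 := congrArg c h1
  rwa [Cj_cc hc] at h2

end cj

/-- **Complex conjugation.** -/
theorem tCj : S_Ab → S_L2 → S_O3 → S_R1 → S_Cj := by
  rintro hAb hL2 hO3 ⟨-, c, hc, hcc⟩
  refine ⟨c, hc, fun n t _ => ?_⟩
  have hcc' : ∀ b : Ideal (OO n t), G15 b →
      c (a1O b) = a1O (cjI b) ∧ c (a3O b) = a3O (cjI b) ∧
      ∀ z : ℂ, Tor n t z → c (xO b z) = xO (cjI b) ((starRingEnd ℂ) z) :=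
    fun b hb => ⟨(hcc n t b hb).1, (hcc n t b hb).2.1, fun z hz => ((hcc n t b hb).2.2 z hz).1⟩
  have hpsi : ∀ (N : ℕ), 0 < N → ∀ (τ : Gal(Om/ℚ)) (a : Ideal (OO n t)), Psi τ N a →
      Psi (c * τ * c⁻¹) N (cjI a) :=
    fun N hN τ a ha => Cj_psi hc hL2 hO3 hcc' hN ha
  refine ⟨fun τ hτ => ⟨Cj_GK hc hτ, fun N a hN ha => hpsi N hN τ a ha⟩, Cj_or hc n t, ?_⟩
  intro N H hN h15 hray hcj g x hx
  rcases Cj_or hc n t g with hg | hg
  · exact hAb n t N H hN h15 hray g hg x hx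
  · have h6 := hAb n t N H hN h15 hray _ hg x hx
    have h7 := Cj_fix hc (hpsi N hN) hcj h6
    rwa [AlgEquiv.mul_apply, Cj_cc hc] at h7

end Pool.Agent.DS.Eb
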