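import Pool.Agent.Lib.DS.E.SpecB

/-!
# Global theory (all imaginary quadratic fields), part E, module Ray: `Psi` for equivalent ideals (`S_E1`, item 3)
-/

set_option autoImplicit false

open scoped Pointwise nonZeroDivisors

noncomputable section

namespace Pool.Agent.DS.Eb

open Pool.Agent.MuZ Pool.Agent.FW NumberField IsDedekindDomain Pool.Agent.DN Pool.Agent.DN.Eb
open Pool.Agent.DI (io ofC io_inj exists_io io_ofC ofC_io VP MP UP TP ex sqr sqr_sq kap)

variable {n t : ℕ}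

private theorem Ray_cast {M N : ℕ} (h : M ∣ N) : (M : OO n t) ∣ (N : OO n t) := by
  obtain ⟨c, rfl⟩ := h
  push_cast
  exact dvd_mul_right _ _

private theorem Ray_ne {N : ℕ} (hN : 15 ∣ N) {c : OO n t} (h : (N : OO n t) ∣ c - 1) : c ≠ 0 := by
  rintro rfl
  rw [zero_sub, dvd_neg] at h
  have h1 := ((nat_dvd_iff N (1 : OO n t)).1 h).1
  rw [re_one] at h1
  have h2 : N ∣ 1 := by exact_mod_cast h1
  have h3 := hN.trans h2
  norm_num at h3

/-- Multiplication by an element `= 1` modulo `N` on `N`-torsion points. -/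
private theorem Ray_per [SqN n t] (hB1 : S_B1) {N : ℕ} {c : OO n t} (h : (N : OO n t) ∣ c - 1)
    {d b : Ideal (OO n t)} (hdb : d * b ≠ ⊥) {z : ℂ} (hz : (N : ℂ) * z ∈ Lam b) :
    XC (d * b) (toC c * z) = XC (d * b) z := by
  obtain ⟨u, hu⟩ := h
  have h1 : toC c * z = z + toC u * ((N : ℂ) * z) := by
    have h2 : toC (c - 1) = toC ((N : OO n t) * u) := by rw [hu]
    rw [toC_sub, toC_one, toC_mul, toC_nat] at h2
    linear_combination z * h2
  rw [h1]
  unfold XC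
  rw [((hB1 n t _ hdb).1 z _ (lam_mono (lam_mul u hz))).1]

/-- **Ray.** -/
theorem tRay : S_B1 → S_B7 → S_O7 → S_Ray := by
  intro hB1 hB7 hO7 n t _ N hN h15 τ a a' hτ hR
  obtain ⟨-, -, -, -, -, h6, -⟩ := hO7 n t N hN
  have hne : a' ≠ ⊥ := (h6 a a' hR).1.1 hτ.ne
  have hcop : PrI a' N := (h6 a a' hR).2.1 (psi_pri hτ)
  obtain ⟨α, α', hα, hα', hcα, -, hd, he⟩ := hR
  obtain ⟨β, -, hβ⟩ := cop_inv hcα
  have hβ' : (N : OO n t) ∣ α' * β - 1 := by
    have e : α' * β - 1 = (α * β - 1) - (α - α') * β := by ring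
    rw [e]
    exact dvd_sub hβ (hd.mul_right β)
  have hc0 : α * β ≠ 0 := Ray_ne h15 hβ
  have hc0' : α' * β ≠ 0 := Ray_ne h15 hβ'
  have d3 : (3 : OO n t) ∣ (N : OO n t) := by
    have h := Ray_cast (n := n) (t := t) ((by norm_num : 3 ∣ 15).trans h15)
    exact_mod_cast h
  have d5 : (5 : OO n t) ∣ (N : OO n t) := by
    have h := Ray_cast (n := n) (t := t) ((by norm_num : 5 ∣ 15).trans h15)
    exact_mod_cast h
  have he' : sp (α * β) * a = sp (α' * β) * a' := by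
    have e1 : sp (α * β) = sp β * sp α := by
      rw [mul_comm, Ideal.span_singleton_mul_span_singleton]
    have e2 : sp (α' * β) = sp β * sp α' := by
      rw [mul_comm, Ideal.span_singleton_mul_span_singleton]
    rw [e1, e2, mul_assoc, mul_assoc]
    exact congrArg (fun x => sp β * x) he
  have hmul : ∀ b : Ideal (OO n t), sp (α * β) * (a * b) = sp (α' * β) * (a' * b) := by
    intro b
    rw [← mul_assoc, he', mul_assoc]
  have h15a : PrI a 15 := (psi_g15 hτ).cop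
  have h15a' : PrI a' 15 := pri_dvd hcop h15
  have key : ∀ b : Ideal (OO n t), b ≠ ⊥ → PrI b 15 →
      (A1 (a * b) = A1 (a' * b) ∧ A3 (a * b) = A3 (a' * b)) ∧
      ∀ z : ℂ, XC (a * b) (toC (α * β) * z) = XC (a' * b) (toC (α' * β) * z) := by
    intro b hb hb15
    obtain ⟨-, p1, p2, p3⟩ := ((hB7 n t (a * b) (ne_mul hτ.ne hb)).2.2 (pri_mul h15a hb15)).1
      (α * β) hc0 (d3.trans hβ) (Or.inl (d5.trans hβ))
    obtain ⟨-, q1, q2, q3⟩ := ((hB7 n t (a' * b) (ne_mul hne hb)).2.2 (pri_mul h15a' hb15)).1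
      (α' * β) hc0' (d3.trans hβ') (Or.inl (d5.trans hβ'))
    rw [hmul] at p1 p2
    refine ⟨⟨?_, ?_⟩, fun z => ?_⟩
    · rw [← p1, q1]
    · rw [← p2, q2]
    · rw [← (p3 z).1, ← (q3 z).1, hmul]
  refine ⟨hne, pri_15 hcop h15, fun b hb hb15 => ?_, fun b hb hb15 => ?_, fun b hb hb15 z hz => ?_⟩
  · rw [hτ.a1 b hb hb15]
    unfold a1O
    rw [(key b hb hb15).1.1]
  · rw [hτ.a3 b hb hb15]
    unfold a3O
    rw [(key b hb hb15).1.2]
  · rw [hτ.xx b hb hb15 z hz]
    unfold xO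
    rw [← Ray_per hB1 hβ (ne_mul hτ.ne hb) hz, ← Ray_per hB1 hβ' (ne_mul hne hb) hz,
      (key b hb hb15).2 z]

end Pool.Agent.DS.Eb
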