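import Pool.Agent.Lib.DS.E.SpecB

/-!
# Global theory (all imaginary quadratic fields), part E, module Uq: uniqueness of the class of `a` (`S_E1`, item 2)
-/

set_option autoImplicit false

open scoped Pointwise nonZeroDivisors

noncomputable section

namespace Pool.Agent.DS.Eb

open Pool.Agent.MuZ Pool.Agent.FW NumberField IsDedekindDomain Pool.Agent.DN Pool.Agent.DN.Eb
open Pool.Agent.DI (io ofC io_inj exists_io io_ofC ofC_io VP MP UP TP ex sqr sqr_sq kap)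

variable {n t : ℕ}

/-- Two conditions which cover a group. -/
private theorem Uq_cover {a : Ideal (OO n t)} {μ : ℂ} {N : ℕ} [SqN n t]
    (h : ∀ z : ℂ, (N : ℂ) * z ∈ Lam (⊤ : Ideal (OO n t)) → μ * z - z ∈ Lam a ∨ μ * z + z ∈ Lam a) :
    ∃ e : ℤ, (e = 1 ∨ e = -1) ∧
      ∀ z : ℂ, (N : ℂ) * z ∈ Lam (⊤ : Ideal (OO n t)) → (μ - e) * z ∈ Lam a := by
  by_cases h1 : ∀ z : ℂ, (N : ℂ) * z ∈ Lam (⊤ : Ideal (OO n t)) → μ * z - z ∈ Lam a
  · refine ⟨1, Or.inl rfl, fun z hz => ?_⟩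
    have e : (μ - ((1 : ℤ) : ℂ)) * z = μ * z - z := by
      push_cast
      ring
    rw [e]
    exact h1 z hz
  · push Not at h1
    obtain ⟨z₁, hz₁, hn₁⟩ := h1
    have hp₁ : μ * z₁ + z₁ ∈ Lam a := (h z₁ hz₁).resolve_left hn₁
    refine ⟨-1, Or.inr rfl, fun z hz => ?_⟩
    have e : (μ - ((-1 : ℤ) : ℂ)) * z = μ * z + z := by
      push_cast
      ring
    rw [e]
    by_contra hn
    have hp : μ * z - z ∈ Lam a := (h z hz).resolve_right hn
    have hs : (N : ℂ) * (z₁ + z) ∈ Lam (⊤ : Ideal (OO n t)) := by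
      rw [mul_add]
      exact lam_add hz₁ hz
    rcases h _ hs with h2 | h2
    · apply hn₁
      have e2 : μ * z₁ - z₁ = (μ * (z₁ + z) - (z₁ + z)) - (μ * z - z) := by ring
      rw [e2]
      exact lam_sub h2 hp
    · apply hn
      have e2 : μ * z + z = (μ * (z₁ + z) + (z₁ + z)) - (μ * z₁ + z₁) := by ring
      rw [e2]
      exact lam_sub h2 hp₁

private theorem Uq_sp (x y : OO n t) : sp (x * y) = sp x * sp y :=
  (Ideal.span_singleton_mul_span_singleton x y).symm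

/-- Normalised elements. -/
private theorem Uq_norm [SqN n t] {a a' : Ideal (OO n t)} {α α' : OO n t} (hα : Cop α 15)
    (h : sp α * a = sp α' * a') (h3 : (3 : OO n t) ∣ α - α')
    (h5 : (5 : OO n t) ∣ α - α' ∨ (5 : OO n t) ∣ α + α') :
    ∃ c c' : OO n t, c ≠ 0 ∧ c' ≠ 0 ∧ sp c * a = sp c' * a' ∧ (3 : OO n t) ∣ c - 1 ∧
      (5 : OO n t) ∣ c - 1 ∧ (3 : OO n t) ∣ c' - 1 ∧
      ((5 : OO n t) ∣ c' - 1 ∨ (5 : OO n t) ∣ c' + 1) := by
  obtain ⟨β, -, hβ⟩ := cop_inv hα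
  have d3 : (3 : OO n t) ∣ α * β - 1 := by
    refine dvd_trans ?_ hβ
    exact ⟨5, by push_cast; norm_num⟩
  have d5 : (5 : OO n t) ∣ α * β - 1 := by
    refine dvd_trans ?_ hβ
    exact ⟨3, by push_cast; norm_num⟩
  have d3' : (3 : OO n t) ∣ α' * β - 1 := by
    have e : α' * β - 1 = (α * β - 1) - (α - α') * β := by ring
    rw [e]
    exact dvd_sub d3 (h3.mul_right β)
  have d5' : (5 : OO n t) ∣ α' * β - 1 ∨ (5 : OO n t) ∣ α' * β + 1 := by
    rcases h5 with h5 | h5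
    · left
      have e : α' * β - 1 = (α * β - 1) - (α - α') * β := by ring
      rw [e]
      exact dvd_sub d5 (h5.mul_right β)
    · right
      have e : α' * β + 1 = (α + α') * β - (α * β - 1) := by ring
      rw [e]
      exact dvd_sub (h5.mul_right β) d5
  have h30 : ¬ (3 : OO n t) ∣ 0 - 1 := by
    intro h0
    have h1 : ((3 : ℕ) : OO n t) ∣ 0 - 1 := by exact_mod_cast h0
    have h2 := ((nat_dvd_iff 3 _).1 h1).1
    rw [zero_sub, QuadraticAlgebra.re_neg, re_one] at h2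
    omega
  refine ⟨α * β, α' * β, ?_, ?_, ?_, d3, d5, d3', d5'⟩
  · intro h0
    rw [h0] at d3
    exact h30 d3
  · intro h0
    rw [h0] at d3'
    exact h30 d3'
  · calc sp (α * β) * a = sp β * (sp α * a) := by rw [Uq_sp]; ring
      _ = sp β * (sp α' * a') := by rw [h]
      _ = sp (α' * β) * a' := by rw [Uq_sp]; ring

/-- **Uniqueness.** -/
theorem tUq : S_B1 → S_B7 → S_B13 → S_L5 → S_O6 → S_R1 → S_Uq := by
  intro hB1 hB7 hB13 hL5 hO6 hR1 n t _ N hN h15N τ a a' ha ha'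
  have hN' : (N : ℂ) ≠ 0 := by exact_mod_cast hN.ne'
  have ht : (⊤ : Ideal (OO n t)) ≠ ⊥ := ne_top
  have ht15 : PrI (⊤ : Ideal (OO n t)) 15 := pri_top 15
  have ga : G15 a := psi_g15 ha
  have ga' : G15 a' := psi_g15 ha'
  have pa : PrI a N := psi_pri ha
  have pa' : PrI a' N := psi_pri ha'
  have ra := hR1.1 n t |>.1 a ga
  have ra' := hR1.1 n t |>.1 a' ga'
  have e1 : A1 a = A1 a' := by
    have h1 := ha.a1 ⊤ ht ht15
    have h2 := ha'.a1 ⊤ ht ht15
    rw [Ideal.mul_top] at h1 h2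
    rw [← ra.1, ← ra'.1, ← h1, ← h2]
  have e3 : A3 a = A3 a' := by
    have h1 := ha.a3 ⊤ ht ht15
    have h2 := ha'.a3 ⊤ ht ht15
    rw [Ideal.mul_top] at h1 h2
    rw [← ra.2.1, ← ra'.2.1, ← h1, ← h2]
  obtain ⟨α₀, α₀', -, -, hα₀, -, h₀, h₀3, h₀5⟩ := hB13 n t a a' ga ga' e1 e3
  obtain ⟨α, α', hα, hα', hαa, d3, d5, d3', d5'⟩ := Uq_norm hα₀ h₀ h₀3 h₀5
  have cα : toC α ≠ 0 := toC_ne hα
  have cα' : toC α' ≠ 0 := toC_ne hα'
  obtain ⟨μ, hμ⟩ : ∃ μ : ℂ, μ = toC α / toC α' := ⟨_, rfl⟩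
  have hμ0 : μ ≠ 0 := by
    rw [hμ]
    exact div_ne_zero cα cα'
  have eμ : ∀ z : ℂ, toC α * (z / toC α') = μ * z := fun z => by
    rw [hμ]
    ring
  have ez : ∀ z : ℂ, toC α' * (z / toC α') = z := fun z => by
    field_simp
  -- (1)
  have f1 : ∀ z : ℂ, XC a' z = XC a (μ * z) := by
    intro z
    have h1 := ((((hB7 n t a' ga'.ne).2.2 ga'.cop).1 α' hα' d3' d5').2.2.2 (z / toC α')).1
    have h2 := ((((hB7 n t a ga.ne).2.2 ga.cop).1 α hα d3 (Or.inl d5)).2.2.2 (z / toC α')).1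
    rw [← hαa, h2, eμ, ez] at h1
    exact h1.symm
  -- (2)
  have f2 : ∀ z : ℂ, μ * z ∈ Lam a ↔ z ∈ Lam a' := by
    intro z
    have h1 : z / toC α' ∈ Lam (sp α * a) ↔ toC α * (z / toC α') ∈ Lam a := lam_sp
    have h2 : z / toC α' ∈ Lam (sp α' * a') ↔ toC α' * (z / toC α') ∈ Lam a' := lam_sp
    rw [eμ] at h1
    rw [ez] at h2
    rw [← h1, ← h2, hαa]
  -- (3)
  have f3 : ∀ z : ℂ, (N : ℂ) * z ∈ Lam (⊤ : Ideal (OO n t)) →
      XC a z = XC a' z ∧ (z ∈ Lam a ↔ z ∈ Lam a') := by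
    intro z hz
    have hT : Tor n t z := (tor_iff ht).2 ⟨N, hN, hz⟩
    have h1 := ha.xx ⊤ ht ht15 z hz
    have h2 := ha'.xx ⊤ ht ht15 z hz
    rw [Ideal.mul_top] at h1 h2
    have h3 : ∀ c : Ideal (OO n t), c ≠ ⊥ → PrI c N →
        (z ∈ Lam c ↔ z ∈ Lam (⊤ : Ideal (OO n t))) := by
      intro c hc hcN
      constructor
      · intro h
        refine (hL5 n t c ⊤ N hc ht hN hcN).1 z hz ?_
        rwa [Ideal.mul_top]
      · intro h
        have := lam_mono (a := c) h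
        rwa [Ideal.mul_top] at this
    refine ⟨?_, (h3 a ga.ne pa).trans (h3 a' ga'.ne pa').symm⟩
    rw [← (ra.2.2.1 z hT).1, ← (ra'.2.2.1 z hT).1, ← h1, ← h2]
  -- (4)
  have f4 : ∀ z : ℂ, (N : ℂ) * z ∈ Lam (⊤ : Ideal (OO n t)) →
      μ * z - z ∈ Lam a ∨ μ * z + z ∈ Lam a := by
    intro z hz
    obtain ⟨h1, h2⟩ := f3 z hz
    by_cases hza : z ∈ Lam a
    · exact Or.inl (lam_sub ((f2 z).2 (h2.1 hza)) hza)
    · have h3 : μ * z ∉ Lam a := fun h => hza (h2.2 ((f2 z).1 h))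
      obtain ⟨-, -, -, b4, -, b6⟩ := hB1 n t a ga.ne
      have hfr : fr a ^ 2 ≠ 0 := pow_ne_zero 2 (b6 ga.cop).1
      have h4 : XC a (μ * z) = XC a z := by rw [← f1, ← h1]
      unfold XC at h4
      have h5 := (div_left_inj' hfr).1 h4
      refine (b4 _ _ h3 hza).1 ?_
      exact sub_left_injective h5
  -- (5)
  obtain ⟨e, he, h5⟩ := Uq_cover f4
  -- (6)
  obtain ⟨v, hv, hv0, hvN⟩ := (hO6 n t).2.2.2.2 N a hN ga.ne pa
  have h6 : α * v ∈ sp α' * a' := by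
    rw [← hαa]
    exact Ideal.mul_mem_mul (Ideal.mem_span_singleton_self α) hv
  obtain ⟨v', hv', hvv'⟩ := Ideal.mem_span_singleton_mul.1 h6
  have hv'μ : toC v' = μ * toC v := by
    have h7 : toC α' * toC v' = toC α * toC v := by rw [← toC_mul, hvv', toC_mul]
    rw [hμ, div_mul_eq_mul_div, eq_div_iff cα', mul_comm, h7]
  have hv'0 : v' ≠ 0 := by
    rintro rfl
    rw [toC_zero] at hv'μ
    exact (mul_ne_zero hμ0 (toC_ne hv0)) hv'μ.symm
  obtain ⟨u, hu⟩ := h5 _ (one_div_lam ⊤ hN) v hv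
  have hdiv : v' - (e : OO n t) * v = (N : OO n t) * u := by
    apply toC_inj
    rw [toC_sub, toC_mul, toC_mul, toC_int, toC_nat, ← hu, hv'μ]
    field_simp
  have hee : (e : OO n t) * (e : OO n t) = 1 := by
    rcases he with rfl | rfl <;> simp
  have hdv : (N : OO n t) ∣ (e : OO n t) * v' - v := by
    refine ⟨(e : OO n t) * u, ?_⟩
    linear_combination (e : OO n t) * hdiv + v * hee
  have hcv : Cop v N := by
    refine cop_congr (j := N) (a := 1) ?_ (cop_one N)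
    rw [← neg_sub]
    exact (dvd_neg).2 hvN
  have hcv' : Cop ((e : OO n t) * v') N := by
    refine cop_congr (j := N) (a := v) ?_ hcv
    rw [← neg_sub]
    exact (dvd_neg).2 hdv
  refine ⟨(e : OO n t) * v', v, ?_, hv0, hcv', hcv, hdv, ?_⟩
  · intro h0
    apply hv'0
    have h7 : (e : OO n t) * ((e : OO n t) * v') = 0 := by rw [h0, mul_zero]
    rwa [← mul_assoc, hee, one_mul] at h7
  · have h7 : sp ((e : OO n t) * v') = sp v' := by
      rcases he with rfl | rfl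
      · simp
      · simp [Ideal.span_singleton_neg]
    change sp ((e : OO n t) * v') * a = sp v * a'
    rw [h7]
    have h8 : sp α' * (sp v' * a) = sp α' * (sp v * a') := by
      have h9 : sp α' * sp v' = sp α * sp v := by rw [← Uq_sp, ← Uq_sp, hvv']
      calc sp α' * (sp v' * a) = (sp α' * sp v') * a := (mul_assoc _ _ _).symm
        _ = (sp α * sp v) * a := by rw [h9]
        _ = sp v * (sp α * a) := by ring
        _ = sp v * (sp α' * a') := by rw [hαa]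
        _ = sp α' * (sp v * a') := by ring
    exact (Ideal.span_singleton_mul_right_inj hα').1 h8

end Pool.Agent.DS.Eb
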