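import Pool.Agent.Lib.DN.E.AllB
import Pool.Agent.Lib.DS.E.Ab
import Pool.Agent.Lib.DS.E.Cj
import Pool.Agent.Lib.DS.E.Cyc
import Pool.Agent.Lib.DS.E.Fix
import Pool.Agent.Lib.DS.E.Op
import Pool.Agent.Lib.DS.E.Ray
import Pool.Agent.Lib.DS.E.Srj
import Pool.Agent.Lib.DS.E.Uq

/-!
# Global theory for all imaginary quadratic fields, part E, second half: assembly (author helper28)

`S_E1`, `S_E6`, `S_E7`, `S_E8`, `S_Cj`, `S_E9` from the statements `S_R1`, `S_Ex`, `S_FN`, `S_E2`.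
-/

set_option autoImplicit false

noncomputable section

namespace Pool.Agent.DS.Eb

open Pool.Agent.DN Pool.Agent.DN.Eb

/-- `S_E1` from `S_R1` and `S_Ex`. -/
theorem bE1 (hR1 : S_R1) (hEx : S_Ex) : S_E1 :=
  sE1 hEx (tUq aB1 aB7 aB13 aL5 aO6 hR1) (tRay aB1 aB7 aO7)

theorem bOp (hFN : S_FN) : S_Op := tOp hFN

/-- `S_E6`. -/
theorem bE6 (hE1 : S_E1) (hE2 : S_E2) (hFN : S_FN) : S_E6 :=
  sE6 hE1 hE2 aO2 aO9 (bOp hFN) aGn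

/-- `S_E7`. -/
theorem bE7 (hE1 : S_E1) (hE2 : S_E2) : S_E7 := sE7 hE1 hE2 aO7 aO8 aFr

/-- `S_E8`. -/
theorem bE8 (hE1 : S_E1) (hFN : S_FN) : S_E8 := sE8 hE1 aO7 (bOp hFN)

theorem bAb (hE1 : S_E1) : S_Ab := tAb hE1 aO7

/-- `S_Cj`. -/
theorem bCj (hE1 : S_E1) (hR1 : S_R1) : S_Cj := tCj (bAb hE1) aL2 aO3 hR1

/-- `S_E9`. -/
theorem bE9 (hE1 : S_E1) (hR1 : S_R1) : S_E9 := sE9 (bCj hE1 hR1) aH2M aHPM

end Pool.Agent.DS.Eb
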