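import Pool.Agent.Lib.DR.Defs
import Pool.Agent.Lib.DS.E.SpecB
import Pool.Agent.Lib.DN.O.All
import Pool.Agent.Lib.DN.B.All

/-!
# Global theory (all imaginary quadratic fields): the elements outside of `Gal(Om/K)` (author helper28)

`PsiC τ N a` (`DR/Defs.lean`) holds if and only if `Psi (τ c) N a`, `c` the complex conjugation.
-/

set_option autoImplicit false

open scoped Pointwise nonZeroDivisors

noncomputable section

namespace Pool.Agent.DS.Eb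

open Pool.Agent.MuZ Pool.Agent.FW NumberField IsDedekindDomain Pool.Agent.DN Pool.Agent.DN.Eb
open Pool.Agent.DI (io ofC io_inj exists_io io_ofC ofC_io VP MP UP TP ex sqr sqr_sq kap)
open Pool.Agent.DR (PsiC)

/-- The elements outside of `Gal(Om/K)`: `PsiC`, its action on `W` and on the framing; compositions; uniqueness. -/
def S_E11 : Prop :=
  ∀ (n t : ℕ) [SqN n t] (N : ℕ), 0 < N → 15 ∣ N →
    (∀ τ : Gal(Om/ℚ), τ ∉ GK n t → (∃ a : Ideal (OO n t), PsiC τ N a) ∧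
      ∀ v : OO n t, τ (toO v) = toO (cjO v)) ∧
    (∀ (τ : Gal(Om/ℚ)) (a : Ideal (OO n t)), PsiC τ N a →
      (∀ b : Ideal (OO n t), G15 b →
        (∀ z : ℂ, (N : ℂ) * z ∈ Lam b → τ (vO b z) = vO (a * cjI b) ((starRingEnd ℂ) z)) ∧
        ∀ c : Ideal (OO n t), G15 c → τ (rO b c) = rO (a * cjI b) (a * cjI c)) ∧
      (∀ a' : Ideal (OO n t), PsiC τ N a' → Ray N a a') ∧
      (∀ a' : Ideal (OO n t), Ray N a a' → PsiC τ N a') ∧
      (∀ (σ : Gal(Om/ℚ)) (a' : Ideal (OO n t)), Psi σ N a' → PsiC (σ * τ) N (a' * a) ∧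
        PsiC (τ * σ) N (a * cjI a')) ∧
      ∀ (τ' : Gal(Om/ℚ)) (a' : Ideal (OO n t)), PsiC τ' N a' → Psi (τ * τ') N (a * cjI a')) ∧
    (∀ c : Gal(Om/ℚ), (∀ x : Om, io (c x) = (starRingEnd ℂ) (io x)) → PsiC c N (⊤ : Ideal (OO n t))) ∧
    ∀ (τ : Gal(Om/ℚ)) (M : ℕ) (a : Ideal (OO n t)), PsiC τ N a → M ∣ N → 15 ∣ M → PsiC τ M a

variable {n t : ℕ}

/-- The facts on the complex conjugation. -/
private structure CC (c : Gal(Om/ℚ)) (n t : ℕ) : Prop where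
  io : ∀ x : Om, Pool.Agent.DI.io (c x) = (starRingEnd ℂ) (Pool.Agent.DI.io x)
  a1 : ∀ b : Ideal (OO n t), G15 b → c (a1O b) = a1O (cjI b)
  a3 : ∀ b : Ideal (OO n t), G15 b → c (a3O b) = a3O (cjI b)
  xx : ∀ b : Ideal (OO n t), G15 b → ∀ z : ℂ, Tor n t z → c (xO b z) = xO (cjI b) ((starRingEnd ℂ) z)
  vv : ∀ b : Ideal (OO n t), G15 b → ∀ z : ℂ, Tor n t z → c (vO b z) = vO (cjI b) ((starRingEnd ℂ) z)
  rr : ∀ b b' : Ideal (OO n t), G15 b → G15 b' → c (rO b b') = rO (cjI b) (cjI b')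

private theorem CC.cc {c : Gal(Om/ℚ)} (h : CC c n t) (x : Om) : c (c x) = x := by
  apply io_inj
  rw [h.io, h.io, Complex.conj_conj]

private theorem cjcj [SqN n t] (b : Ideal (OO n t)) : cjI (cjI b) = b := ((aO3 n t).2.2.1 b).1

private theorem g15_cj [SqN n t] {b : Ideal (OO n t)} (h : G15 b) : G15 (cjI b) :=
  ⟨ne_cj aO3 h.ne, ((aO3 n t).2.2.2.2.1 b 15).2 h.cop⟩

private theorem lam_cj [SqN n t] {b : Ideal (OO n t)} (hb : b ≠ ⊥) {N : ℕ} {z : ℂ}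
    (h : (N : ℂ) * z ∈ Lam b) : (N : ℂ) * (starRingEnd ℂ) z ∈ Lam (cjI b) := by
  rw [(aL2 n t).2.2.2.2.2.2.1 b _ hb, map_mul, map_natCast, Complex.conj_conj]
  exact h

private theorem tor_of [SqN n t] {b : Ideal (OO n t)} (hb : b ≠ ⊥) {N : ℕ} (hN : 0 < N) {z : ℂ}
    (h : (N : ℂ) * z ∈ Lam b) : Tor n t z := ((aL2 n t).2.2.2.2.2.2.2 b z hb).2 ⟨N, hN, h⟩

private theorem psc_of [SqN n t] {c : Gal(Om/ℚ)} (hc : CC c n t) {τ : Gal(Om/ℚ)} {N : ℕ} (hN : 0 < N)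
    {a : Ideal (OO n t)} (h : Psi (τ * c) N a) : PsiC τ N a where
  ne := h.ne
  cop := h.cop
  a1 := fun b hb h15 => by
    have hg := g15_cj ⟨hb, h15⟩
    have h1 := h.a1 _ hg.ne hg.cop
    rwa [AlgEquiv.mul_apply, ← hc.a1 b ⟨hb, h15⟩, hc.cc] at h1
  a3 := fun b hb h15 => by
    have hg := g15_cj ⟨hb, h15⟩
    have h1 := h.a3 _ hg.ne hg.cop
    rwa [AlgEquiv.mul_apply, ← hc.a3 b ⟨hb, h15⟩, hc.cc] at h1
  xx := fun b hb h15 z hz => by
    have hg := g15_cj ⟨hb, h15⟩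
    have h1 := h.xx _ hg.ne hg.cop _ (lam_cj hb hz)
    rwa [AlgEquiv.mul_apply, ← hc.xx b ⟨hb, h15⟩ z (tor_of hb hN hz), hc.cc] at h1

private theorem psc_to [SqN n t] {c : Gal(Om/ℚ)} (hc : CC c n t) {τ : Gal(Om/ℚ)} {N : ℕ} (hN : 0 < N)
    {a : Ideal (OO n t)} (h : PsiC τ N a) : Psi (τ * c) N a where
  ne := h.ne
  cop := h.cop
  a1 := fun b hb h15 => by
    have hg := g15_cj ⟨hb, h15⟩
    rw [AlgEquiv.mul_apply, hc.a1 b ⟨hb, h15⟩, h.a1 _ hg.ne hg.cop, cjcj]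
  a3 := fun b hb h15 => by
    have hg := g15_cj ⟨hb, h15⟩
    rw [AlgEquiv.mul_apply, hc.a3 b ⟨hb, h15⟩, h.a3 _ hg.ne hg.cop, cjcj]
  xx := fun b hb h15 z hz => by
    have hg := g15_cj ⟨hb, h15⟩
    rw [AlgEquiv.mul_apply, hc.xx b ⟨hb, h15⟩ z (tor_of hb hN hz), h.xx _ hg.ne hg.cop _ (lam_cj hb hz),
      cjcj, Complex.conj_conj]

private theorem cc_of (hR1 : S_R1) : ∃ c : Gal(Om/ℚ), ∀ (n t : ℕ) [SqN n t], CC c n t := by
  obtain ⟨h1, c, hc, hcc⟩ := hR1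
  refine ⟨c, fun n t _ => ⟨hc, fun b hb => (hcc n t b hb).1, fun b hb => (hcc n t b hb).2.1,
    fun b hb z hz => ((hcc n t b hb).2.2 z hz).1, fun b hb z hz => ((hcc n t b hb).2.2 z hz).2, ?_⟩⟩
  intro b b' hb hb'
  have hfr : ∀ b : Ideal (OO n t), G15 b → (starRingEnd ℂ) (fr b) = fr (cjI b) := fun b hb =>
    ((aB7 n t b hb.ne).2.2 hb.cop).2.1
  apply io_inj
  rw [hc, (((h1 n t).1 b hb).2.2.2 b' hb').1, (((h1 n t).1 _ (g15_cj hb)).2.2.2 _ (g15_cj hb')).1, map_div₀,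
    hfr b hb, hfr b' hb']

/-- **The elements outside of `Gal(Om/K)`.** -/
theorem tE11 (hR1 : S_R1) (hCj : S_Cj) (hE1 : S_E1) (hE10 : S_E10) : S_E11 := by
  obtain ⟨c, hCC⟩ := cc_of hR1
  intro n t _ N hN h15
  have hc : CC c n t := hCC n t
  obtain ⟨o1, o2, o3, -, -, -⟩ := aO3 n t
  obtain ⟨e1, e2, e3, -, -⟩ := hE1 n t N hN h15
  have hmul : ∀ a b : Ideal (OO n t), cjI (a * b) = cjI a * cjI b := o2
  have hclass : ∀ c' : Gal(Om/ℚ), (∀ x : Om, io (c' x) = (starRingEnd ℂ) (io x)) → c' = c := by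
    intro c' hc'
    refine AlgEquiv.ext fun x => io_inj ?_
    rw [hc', hc.io]
  refine ⟨?_, ?_, ?_, ?_⟩
  · intro τ hτ
    obtain ⟨c', hc', hcj⟩ := hCj
    obtain rfl := hclass c' hc'
    obtain ⟨j1, j2, -⟩ := hcj n t
    have h1 : c' * τ ∈ GK n t := (j2 τ).resolve_left hτ
    have hinv : c'⁻¹ = c' := inv_eq_of_mul_eq_one_left (AlgEquiv.ext fun x => hc.cc x)
    have h2 : τ * c' ∈ GK n t := by
      have h3 := (j1 _ h1).1
      have e : c' * (c' * τ) * c'⁻¹ = τ * c' := by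
        rw [hinv]
        refine AlgEquiv.ext fun x => ?_
        rw [AlgEquiv.mul_apply, AlgEquiv.mul_apply, AlgEquiv.mul_apply, hc.cc]
        rfl
      rwa [e] at h3
    refine ⟨?_, fun v => ?_⟩
    · obtain ⟨a, ha⟩ := e1 _ h2
      exact ⟨a, psc_of hc hN ha⟩
    · have h4 : c' (toO v) = toO (cjO v) := by
        apply io_inj
        rw [hc', io_toO, io_toO, ((aO2 n t).2.2.2.2.2.2.2 v).1]
      have h5 := GK_toO h2 (cjO v)
      rw [AlgEquiv.mul_apply, ← h4, hc.cc] at h5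
      exact h5.trans h4
  · intro τ a ha
    have hP := psc_to hc hN ha
    refine ⟨fun b hb => ⟨fun z hz => ?_, fun b' hb' => ?_⟩, fun a' ha' => e2 _ a a' hP (psc_to hc hN ha'),
      fun a' hr => psc_of hc hN (e3 _ a a' hP hr), fun σ a' hσ => ⟨?_, ?_⟩, fun τ' a' ha' => ?_⟩
    · have h1 := ((hE10 n t (τ * c) N a hN h15 hP).1 _ (g15_cj hb)).1 _ (lam_cj hb.ne hz)
      rwa [AlgEquiv.mul_apply, ← hc.vv b hb z (tor_of hb.ne hN hz), hc.cc] at h1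
    · have h1 := ((hE10 n t (τ * c) N a hN h15 hP).1 _ (g15_cj hb)).2 _ (g15_cj hb')
      rwa [AlgEquiv.mul_apply, ← hc.rr b b' hb hb', hc.cc] at h1
    · refine psc_of hc hN ?_
      rw [mul_assoc]
      exact psi_mul hσ hP
    · have haG : G15 a := psi_g15 hP
      refine ⟨ne_mul ha.ne (ne_cj aO3 hσ.ne), pri_mul ha.cop (((aO3 n t).2.2.2.2.1 a' _).2 hσ.cop), ?_, ?_, ?_⟩
      · intro b hb h15'
        have hg := g15_mul (psi_g15 hσ) ⟨hb, h15'⟩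
        rw [AlgEquiv.mul_apply, hσ.a1 b hb h15', ha.a1 _ hg.ne hg.cop, hmul, mul_assoc]
      · intro b hb h15'
        have hg := g15_mul (psi_g15 hσ) ⟨hb, h15'⟩
        rw [AlgEquiv.mul_apply, hσ.a3 b hb h15', ha.a3 _ hg.ne hg.cop, hmul, mul_assoc]
      · intro b hb h15' z hz
        have hg := g15_mul (psi_g15 hσ) ⟨hb, h15'⟩
        rw [AlgEquiv.mul_apply, hσ.xx b hb h15' z hz, ha.xx _ hg.ne hg.cop z (lam_mono hz), hmul, mul_assoc]
    · have hP' := psc_to hc hN ha'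
      have hG' : G15 a' := psi_g15 hP'
      refine ⟨ne_mul ha.ne (ne_cj aO3 ha'.ne), pri_mul ha.cop (((aO3 n t).2.2.2.2.1 a' _).2 ha'.cop), ?_, ?_, ?_⟩
      · intro b hb h15'
        have hg := g15_mul hG' (g15_cj ⟨hb, h15'⟩)
        rw [AlgEquiv.mul_apply, ha'.a1 b hb h15', ha.a1 _ hg.ne hg.cop, hmul, cjcj, mul_assoc]
      · intro b hb h15'
        have hg := g15_mul hG' (g15_cj ⟨hb, h15'⟩)
        rw [AlgEquiv.mul_apply, ha'.a3 b hb h15', ha.a3 _ hg.ne hg.cop, hmul, cjcj, mul_assoc]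
      · intro b hb h15' z hz
        have hg := g15_mul hG' (g15_cj ⟨hb, h15'⟩)
        rw [AlgEquiv.mul_apply, ha'.xx b hb h15' z hz, ha.xx _ hg.ne hg.cop _ (lam_mono (lam_cj hb hz)), hmul, cjcj,
          mul_assoc, Complex.conj_conj]
  · intro c' hc'
    obtain rfl := hclass c' hc'
    refine psc_of hc hN ?_
    have e : c' * c' = 1 := AlgEquiv.ext fun x => hc.cc x
    rw [e]
    exact psi_top N
  · intro τ M a ha hM h15M
    have hM0 : 0 < M := Nat.pos_of_dvd_of_pos hM hN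
    exact psc_of hc hM0 (psi_level (psc_to hc hN ha) hM)

end Pool.Agent.DS.Eb
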