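import Pool.Agent.Lib.DS.E.Gau

/-!
# The global theory for all imaginary quadratic fields, part E: inertia above `2`, the field `ℚ(i)`
-/

set_option autoImplicit false

noncomputable section

namespace Pool.Agent.DS

open Pool.Agent.MuZ Pool.Agent.FW NumberField IsDedekindDomain Pool.Agent.DN
open Pool.Agent.DI (io ofC io_inj exists_io io_ofC ofC_io VP MP UP TP ex)

/-- The ideal of an element congruent to `± 1`. -/
private theorem Pr4_ray {n t : ℕ} [SqN n t] {N : ℕ} {γ : OO n t} (hγ : γ ≠ 0)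
    (h : (N : OO n t) ∣ γ - 1 ∨ (N : OO n t) ∣ γ + 1) : Ray N (sp γ) (⊤ : Ideal (OO n t)) := by
  rcases h with h | h
  · have h1 : (N : OO n t) ∣ 1 - γ := by
      have h2 := h.neg_right
      rwa [neg_sub] at h2
    refine ⟨1, γ, one_ne_zero, hγ, cop_one N, cop_congr h1 (cop_one N), h1, ?_⟩
    rw [Ideal.mul_top, ← sp_mul', one_mul]
  · have h1 : (N : OO n t) ∣ 1 - -γ := by
      have e : 1 - -γ = γ + 1 := by ring
      rwa [e]
    refine ⟨1, -γ, one_ne_zero, neg_ne_zero.2 hγ, cop_one N, cop_congr h1 (cop_one N), h1, ?_⟩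
    rw [Ideal.mul_top, ← sp_mul', one_mul]
    exact (Ideal.span_singleton_neg γ).symm

/-- `w ^ 2 = -1`. -/
private theorem Pr4_sq : wI 1 0 * wI 1 0 = -1 := by
  refine ext' ?_ ?_
  · rw [re_mul]
    simp [wI, re_one]
  · rw [im_mul]
    simp [wI, im_one]

/-- The unit `w`. -/
private theorem Pr4_unit : IsUnit (wI 1 0) := by
  refine IsUnit.of_mul_eq_one (-wI 1 0) ?_
  rw [mul_neg, Pr4_sq, neg_neg]

theorem sPr4 (hO6 : S_O6) (hO7 : S_O7) (hE1 : S_E1) (hDq : S_Dq) (hAux : S_Aux) (hAfi : S_Afi)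
    (hAff : S_Aff) (hAf3 : S_Af3) (hAfx : S_Afx) : S_Pr4 := by
  intro P hP τ hτ hi N a hN h15 hψ
  have := sq10
  obtain ⟨-, h2⟩ := hAux 1 0 (30 * N) (Nat.mul_pos (by norm_num) hN.pos)
  obtain ⟨q, l, hq, hl, hl3⟩ := h2 (by omega)
  have hl30 : l.Coprime 30 := hl.coprime_mul_right_right
  have hlo : Odd l := by
    have h1 : l.Coprime 2 := Nat.Coprime.coprime_dvd_right (by norm_num) hl30
    exact Nat.Coprime.odd_of_right h1
  have hN'o : Odd (N * l) := hN.mul hlo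
  have hN'15 : 15 ∣ N * l := h15.mul_right l
  have hN'p : 0 < N * l := hN'o.pos
  obtain ⟨a', ha'⟩ := (hE1 1 0 (2 * (N * l)) (by omega) (hN'15.mul_left 2)).1 τ hτ
  have haN' : Psi τ (N * l) a' := Eb.psi_level ha' (dvd_mul_left _ _)
  have haN : Psi τ N a' := Eb.psi_level haN' (dvd_mul_right _ _)
  have hR : Ray N a' a := (hE1 1 0 N hN.pos h15).2.1 τ a' a haN hψ
  obtain ⟨γ, hγ, rfl⟩ := sGau a' ha'.ne
  have hc2 : Cop γ 2 := by
    refine ((hO6 1 0).2.2.2.1 2 γ two_pos).1 ?_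
    exact Eb.pri_dvd ha'.cop ⟨15 * (N * l), by ring⟩
  obtain ⟨al, r, hA⟩ := hAff.1 1 0 P hP τ hi (N * l) γ hN'o hN'15 hγ hc2 haN'
  obtain ⟨d1, -, d3, -, -⟩ := hDq 1 0 q l hq
  have hN'q : ∀ x : OO 1 0, ((N * l : ℕ) : OO 1 0) ∣ x → x ∈ q := by
    rintro x ⟨y, rfl⟩
    refine Ideal.mul_mem_right _ _ ?_
    have h1 := (d1 ((N * l : ℕ) : ℤ)).2 ⟨N, by push_cast; ring⟩
    rwa [Int.cast_natCast] at h1
  have h3 : 3 ≤ N * l := by
    have := Nat.le_of_dvd hN'p hN'15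
    omega
  have hNN : (N : OO 1 0) ∣ ((N * l : ℕ) : OO 1 0) := ⟨(l : OO 1 0), by push_cast; ring⟩
  have main : ∀ (γ' : OO 1 0) (al' r' : Om), sp γ' = sp γ → AfM P (N * l) γ' al' r' →
      (γ' - 1 ∈ q ∨ γ' + 1 ∈ q) → Ray N a (⊤ : Ideal (OO 1 0)) := by
    intro γ' al' r' hsp hA' hpm
    have hγ' : γ' ≠ 0 := by
      rintro rfl
      apply hγ
      rw [← Ideal.span_singleton_eq_bot]
      change sp γ = ⊥
      rw [← hsp]
      exact Ideal.span_singleton_eq_bot.2 rfl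
    have hfin := (hAfx 1 0 P hP (N * l) hN'o h3 γ' al' r' hA').2 q l hq (dvd_mul_left _ _) hl30 hpm
    have hfin' : (N : OO 1 0) ∣ γ' - 1 ∨ (N : OO 1 0) ∣ γ' + 1 :=
      hfin.imp hNN.trans hNN.trans
    have hR' : Ray N (sp γ) (⊤ : Ideal (OO 1 0)) := by
      rw [← hsp]
      exact Pr4_ray hγ' hfin'
    obtain ⟨-, o2, o3, -⟩ := hO7 1 0 N hN.pos
    exact o3 _ _ _ (o2 _ _ hR) hR'
  obtain ⟨-, b2, b3⟩ := hAf3 1 0 P hP (N * l) hN'o hN'15 γ al r hA
  by_cases h1 : MP P (al - 1)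
  · rcases b2 h1 with h | h
    · refine main γ al r rfl hA ?_
      have h4 := hN'q _ h
      have e : γ ^ 2 - 1 = (γ - 1) * (γ + 1) := by ring
      rw [e] at h4
      exact hq.1.mem_or_mem h4
    · obtain ⟨-, -, -, hmul, -⟩ := hAfi 1 0 P hP (N * l) hN'o h3
      obtain ⟨r', hw⟩ := hAff.2 0 P hP (N * l) hN'o hN'15
      refine main (γ * wI 1 0) _ _ ?_ (hmul _ _ _ _ _ _ hA hw) ?_
      · unfold sp
        rw [Ideal.span_singleton_mul_right_unit Pr4_unit]
      · have h4 := hN'q _ h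
        have e : γ ^ 2 + 1 = (γ - wI 1 0) * (γ + wI 1 0) := by
          linear_combination Pr4_sq
        rw [e] at h4
        rcases hq.1.mem_or_mem h4 with h5 | h5
        · refine Or.inr ?_
          have e2 : γ * wI 1 0 + 1 = wI 1 0 * (γ - wI 1 0) := by
            linear_combination Pr4_sq
          rw [e2]
          exact Ideal.mul_mem_left _ _ h5
        · refine Or.inl ?_
          have e2 : γ * wI 1 0 - 1 = wI 1 0 * (γ + wI 1 0) := by
            linear_combination (-1 : OO 1 0) * Pr4_sq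
          rw [e2]
          exact Ideal.mul_mem_left _ _ h5
  · refine main γ al r rfl hA ?_
    rcases (b3 h1).2 with h | h
    · exact Or.inl (d3 hl3 γ (hN'q _ h))
    · refine Or.inr ?_
      have h4 := hN'q _ h
      have e : (-γ) ^ 3 - 1 = -(γ ^ 3 + 1) := by ring
      have h5 := d3 hl3 (-γ) (by rw [e]; exact neg_mem h4)
      have e2 : γ + 1 = -(-γ - 1) := by ring
      rw [e2]
      exact neg_mem h5

end Pool.Agent.DS
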