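import Pool.Agent.Lib.DN.E.All
import Pool.Agent.Lib.DS.E.Pr4
import Pool.Agent.Lib.DS.E.Gw

/-!
# The global theory for all imaginary quadratic fields, part E: inertia above `2`, supersingular reduction
-/

set_option autoImplicit false

open scoped Pointwise nonZeroDivisors

noncomputable section

namespace Pool.Agent.DS

open Pool.Agent.MuZ Pool.Agent.FW NumberField IsDedekindDomain Pool.Agent.DN
open Pool.Agent.DI (io ofC io_inj exists_io io_ofC ofC_io VP MP UP TP ex)

theorem sE4a (h1 : S_E1) (h2 : S_Pri) (h3 : S_Pr4) (h4 : S_Gw) : S_E4a := by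
  intro n t inst P hP τ hτ hi N hN h15
  by_cases hn : n = 1
  · subst hn
    rcases inst.out with ⟨ht, -⟩ | ⟨ht, -⟩
    · subst ht
      have : Ine 1 1 := { out := inst.out, one := rfl, odd := rfl }
      exact DN.aE4a 1 1 P hP.ab τ hτ hi N hN h15
    · subst ht
      obtain ⟨e1, e2, e3, -, -⟩ := h1 1 0 N hN.pos h15
      obtain ⟨a, ha⟩ := e1 τ hτ
      exact e3 τ a ⊤ ha (h3 P hP τ hτ hi N a hN h15 ha)
  · obtain ⟨e1, e2, e3, -, -⟩ := h1 n t N hN.pos h15
    obtain ⟨a, ha⟩ := e1 τ hτ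
    refine e3 τ a ⊤ ha ?_
    exact h2 n t hn P hP τ hτ hi N a hN h15 ha (h4 n t hn P hP τ hτ hi N a hN h15 ha)

end Pool.Agent.DS
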