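import Pool.Agent.Lib.DS.E.SpecA

/-!
# The global theory for all imaginary quadratic fields, part E, module Gau: `ℤ[i]` is a principal ideal domain
-/

set_option autoImplicit false

open scoped Pointwise nonZeroDivisors

noncomputable section

namespace Pool.Agent.DS

open Pool.Agent.MuZ Pool.Agent.FW NumberField IsDedekindDomain Pool.Agent.DN

private theorem rnd (A m : ℤ) (hm : 0 < m) : ∃ p : ℤ, -m ≤ 2 * (A - m * p) ∧ 2 * (A - m * p) ≤ m := by
  refine ⟨(2 * A + m) / (2 * m), ?_⟩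
  have h1 := Int.emod_add_mul_ediv (2 * A + m) (2 * m)
  have h2 := Int.emod_nonneg (2 * A + m) (show 2 * m ≠ 0 by omega)
  have h3 := Int.emod_lt_of_pos (2 * A + m) (show 0 < 2 * m by omega)
  constructor
  · linarith
  · linarith

/-- `ℚ(i)`. -/
theorem sq10 : SqN 1 0 := ⟨Or.inr ⟨rfl, one_pos, squarefree_one, by norm_num⟩⟩

/-- Division with remainder. -/
private theorem dvr [SqN 1 0] (x y : OO 1 0) (hy : y ≠ 0) : ∃ q : OO 1 0, Nm (x - q * y) < Nm y := by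
  have hm : 0 < Nm y := Nm_pos hy
  obtain ⟨p, hp1, hp2⟩ := rnd (x * cjO y).re (Nm y) hm
  obtain ⟨p', hp1', hp2'⟩ := rnd (x * cjO y).im (Nm y) hm
  refine ⟨⟨p, p'⟩, ?_⟩
  set m := Nm y with hmdef
  set A := (x * cjO y).re with hA
  set B := (x * cjO y).im with hB
  have e : (x - (⟨p, p'⟩ : OO 1 0) * y) * cjO y = ⟨A - m * p, B - m * p'⟩ := by
    have e1 : (x - (⟨p, p'⟩ : OO 1 0) * y) * cjO y = x * cjO y - ⟨p, p'⟩ * (m : OO 1 0) := by
      rw [hmdef, ← mul_cjO]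
      ring
    rw [e1]
    refine ext' ?_ ?_
    · rw [QuadraticAlgebra.re_sub, re_mul (⟨p, p'⟩ : OO 1 0), re_int, im_int]
      simp only [hA]
      ring
    · rw [QuadraticAlgebra.im_sub, im_mul (⟨p, p'⟩ : OO 1 0), re_int, im_int]
      simp only [hB]
      ring
  have h1 : Nm (x - (⟨p, p'⟩ : OO 1 0) * y) * m = (A - m * p) ^ 2 + (B - m * p') ^ 2 := by
    have h2 := congrArg Nm e
    rw [Nm_mul, Nm_cjO] at h2
    rw [h2]
    unfold Nm
    push_cast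
    ring
  generalize A - m * p = u at hp1 hp2 h1
  generalize B - m * p' = v at hp1' hp2' h1
  have h3 : 4 * (u ^ 2 + v ^ 2) ≤ 2 * m ^ 2 := by
    have a1 : (2 * u) ^ 2 ≤ m ^ 2 := sq_le_sq' hp1 hp2
    have a2 : (2 * v) ^ 2 ≤ m ^ 2 := sq_le_sq' hp1' hp2'
    nlinarith
  by_contra hlt
  push Not at hlt
  have h4 : m * m ≤ Nm (x - (⟨p, p'⟩ : OO 1 0) * y) * m := mul_le_mul_of_nonneg_right hlt hm.le
  nlinarith

theorem sGau : S_Gau := by
  classical
  have := sq10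
  intro a ha
  obtain ⟨x0, hx0, hx0'⟩ := Submodule.exists_mem_ne_zero_of_ne_bot ha
  have hex : ∃ m : ℕ, ∃ x ∈ a, x ≠ 0 ∧ (Nm x).toNat = m := ⟨_, x0, hx0, hx0', rfl⟩
  obtain ⟨γ, hγ, hγ0, hγm⟩ := Nat.find_spec hex
  refine ⟨γ, hγ0, le_antisymm (fun x hx => ?_) ((Ideal.span_singleton_le_iff_mem a).2 hγ)⟩
  obtain ⟨q, hq⟩ := dvr x γ hγ0
  have hr : x - q * γ ∈ a := a.sub_mem hx (a.mul_mem_left q hγ)
  have h0 : x - q * γ = 0 := by
    by_contra hne
    have h1 : 0 < Nm (x - q * γ) := Nm_pos hne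
    refine Nat.find_min hex (m := (Nm (x - q * γ)).toNat) ?_ ⟨_, hr, hne, rfl⟩
    rw [← hγm]
    omega
  rw [sub_eq_zero.1 h0]
  exact Ideal.mul_mem_left _ q (Ideal.mem_span_singleton_self γ)

end Pool.Agent.DS
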